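import Pool.Agent.Q194.AP.Stmts

set_option autoImplicit false
set_option maxSynthPendingDepth 3

open MeasureTheory Set Filter Topology
open scoped ENNReal

noncomputable section

namespace Q194.AP.A

open Q194.AP

variable (Ω : Type) [TopologicalSpace Ω] [CompactSpace Ω] [T2Space Ω] [TotallyDisconnectedSpace Ω]
  [SecondCountableTopology Ω] [MeasurableSpace Ω] [BorelSpace Ω] (m : Measure Ω) [IsProbabilityMeasure m]

theorem main (hJ : TaskJordan) (hR : TaskRMK) (hS : TaskSing Ω m) (hF : TaskFam Ω m)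
    (hH : TaskHH Ω m) : TaskA Ω m := by
  intro Y n F ε hε
  have h4 : 0 < ε / 4 := by positivity
  -- one positive functional
  have one : ∀ p : C(Ω, ℝ) →ₗ[ℝ] ℝ, (∀ u, (∀ x, 0 ≤ u x) → 0 ≤ p u) →
      ∃ K : Set Ω, IsClosed K ∧ m K = 0 ∧ (∀ i ≤ n, ∀ x, Y.θ i x ∈ K ↔ x ∈ K) ∧
        ∃ g : Ω → ℝ, Integrable g m ∧ ∀ u : C(Ω, ℝ), (∀ x ∈ K, u x = 0) → (∀ x, |u x| ≤ 1) →
          |p u - ∫ x, g x * u x ∂m| ≤ ε / 4 := by
    intro p hp
    obtain ⟨l, hl, hpl⟩ := hR Ω p hp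
    obtain ⟨K, hK1, hK2, hK3, g, hg, hu⟩ := hS Y l n (ε / 4) h4
    refine ⟨K, hK1, hK2, hK3, g, hg, fun u hu0 hu1 => ?_⟩
    rw [hpl u]
    exact hu u hu0 hu1
  have two : ∀ μ : C(Ω, ℝ) →L[ℝ] ℝ, ∃ (K : Set Ω) (g g' : Ω → ℝ), IsClosed K ∧ m K = 0 ∧
      (∀ i ≤ n, ∀ x, Y.θ i x ∈ K ↔ x ∈ K) ∧ Integrable g m ∧ Integrable g' m ∧
      ∀ u : C(Ω, ℝ), (∀ x ∈ K, u x = 0) → (∀ x, |u x| ≤ 1) →
        |μ u| ≤ |∫ x, g x * u x ∂m| + |∫ x, g' x * u x ∂m| + ε / 2 := by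
    intro μ
    obtain ⟨p, q, hp, hq, hpq⟩ := hJ Ω μ
    obtain ⟨K, hK1, hK2, hK3, g, hg, hu⟩ := one p hp
    obtain ⟨K', hK1', hK2', hK3', g', hg', hu'⟩ := one q hq
    refine ⟨K ∪ K', g, g', hK1.union hK1', measure_union_null hK2 hK2', ?_, hg, hg', ?_⟩
    · intro i hi x
      rw [mem_union, mem_union, hK3 i hi x, hK3' i hi x]
    · intro u hu0 hu1
      have a1 := hu u (fun x hx => hu0 x (Or.inl hx)) hu1
      have a2 := hu' u (fun x hx => hu0 x (Or.inr hx)) hu1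
      rw [hpq u]
      have b1 := abs_le.1 a1
      have b2 := abs_le.1 a2
      have c1 := abs_le.1 (le_refl |∫ x, g x * u x ∂m|)
      have c2 := abs_le.1 (le_refl |∫ x, g' x * u x ∂m|)
      rw [abs_le]
      constructor <;> linarith [b1.1, b1.2, b2.1, b2.2, c1.1, c1.2, c2.1, c2.2]
  choose K g g' hK1 hK2 hK3 hg hg' hu using two
  set e := F.equivFin.symm with he
  obtain ⟨α, hαn, hα0, hαu⟩ := hF Y n (F.card + F.card)
    (Fin.append (fun i => g (e i)) (fun i => g' (e i))) (⋃ μ ∈ F, K μ) (ε / 4)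
    (by
      intro i
      refine Fin.addCases (fun i => ?_) (fun i => ?_) i
      · rw [Fin.append_left]; exact hg _
      · rw [Fin.append_right]; exact hg' _)
    (F.finite_toSet.isClosed_biUnion fun μ _ => hK1 μ)
    ((measure_biUnion_null_iff F.countable_toSet).2 fun μ _ => hK2 μ)
    (by
      intro i hi x
      simp only [mem_iUnion, hK3 _ i hi x])
    h4
  refine ⟨α, hαn, ?_⟩
  intro μ hμ u huα
  obtain ⟨_, hu1, _, _, _⟩ := hH Y α u huα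
  have hu0 : ∀ x ∈ K μ, u x = 0 := by
    intro x hx
    obtain ⟨J, a, _, rfl⟩ := huα
    rw [ContinuousMap.sum_apply]
    apply Finset.sum_eq_zero
    intro j _
    rw [ContinuousMap.smul_apply, hα0 j x (mem_iUnion₂.2 ⟨μ, hμ, hx⟩), smul_zero]
  have h1 := hu μ u hu0 hu1
  have hidx : (e (F.equivFin ⟨μ, hμ⟩) : C(Ω, ℝ) →L[ℝ] ℝ) = μ := by
    rw [he, Equiv.symm_apply_apply]
  have h2 := hαu u huα (Fin.castAdd F.card (F.equivFin ⟨μ, hμ⟩))
  have h3 := hαu u huα (Fin.natAdd F.card (F.equivFin ⟨μ, hμ⟩))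
  rw [Fin.append_left] at h2
  rw [Fin.append_right] at h3
  rw [hidx] at h2 h3
  linarith

end Q194.AP.A
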