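import Pool.Agent.Q194.AP.Stmts

set_option autoImplicit false
set_option maxSynthPendingDepth 3

open MeasureTheory Set Filter Topology Q194.AP
open scoped ENNReal

noncomputable section

namespace Q194.AP.Apep

variable (Ω : Type) [TopologicalSpace Ω] [CompactSpace Ω] [T2Space Ω] [TotallyDisconnectedSpace Ω]
  [SecondCountableTopology Ω] [MeasurableSpace Ω] [BorelSpace Ω] (m : Measure Ω) [IsProbabilityMeasure m]

theorem closed_ineq {X : Type} [NormedAddCommGroup X] [NormedSpace ℝ X] (Φ ψ : X →L[ℝ] ℝ)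
    (c e κ : ℝ) : IsClosed {x | |ψ x - c| ≤ e + κ * (1 - Φ x)} :=
  isClosed_le (by fun_prop) (by fun_prop)

theorem convex_ineq {X : Type} [NormedAddCommGroup X] [NormedSpace ℝ X] (Φ ψ : X →L[ℝ] ℝ)
    (c e κ : ℝ) : Convex ℝ {x | |ψ x - c| ≤ e + κ * (1 - Φ x)} := by
  intro x hx y hy a b ha hb hab
  have hx' : |ψ x - c| ≤ e + κ * (1 - Φ x) := hx
  have hy' : |ψ y - c| ≤ e + κ * (1 - Φ y) := hy
  show |ψ (a • x + b • y) - c| ≤ e + κ * (1 - Φ (a • x + b • y))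
  obtain rfl : b = 1 - a := by linarith
  rw [map_add, map_smul, map_smul, map_add, map_smul, map_smul]
  simp only [smul_eq_mul]
  rw [abs_le] at hx' hy' ⊢
  have h1 := mul_le_mul_of_nonneg_left hx'.1 ha
  have h2 := mul_le_mul_of_nonneg_left hx'.2 ha
  have h3 := mul_le_mul_of_nonneg_left hy'.1 hb
  have h4 := mul_le_mul_of_nonneg_left hy'.2 hb
  constructor <;> linarith

theorem convex_le {X : Type} [NormedAddCommGroup X] [NormedSpace ℝ X] (Φ : X →L[ℝ] ℝ)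
    (c : ℝ) : Convex ℝ {x | Φ x ≤ c} := by
  intro x hx y hy a b ha hb hab
  have hx' : Φ x ≤ c := hx
  have hy' : Φ y ≤ c := hy
  show Φ (a • x + b • y) ≤ c
  obtain rfl : b = 1 - a := by linarith
  rw [map_add, map_smul, map_smul]
  simp only [smul_eq_mul]
  have h2 := mul_le_mul_of_nonneg_left hx' ha
  have h4 := mul_le_mul_of_nonneg_left hy' hb
  linarith

theorem apep_of {X : Type} [NormedAddCommGroup X] [NormedSpace ℝ X] (P : Set X) (z : X)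
    (hz : z ∈ P) (h : ∀ (F : Finset (X →L[ℝ] ℝ)) (ε : ℝ), 0 < ε → ∃ (Φ : X →L[ℝ] ℝ) (κ : ℝ), 0 < κ ∧
      (∀ x ∈ P, Φ x ≤ 1) ∧ (∃ x ∈ P, Φ x = 1) ∧
      ∀ x ∈ P, ∀ ψ ∈ F, |ψ x - ψ z| ≤ ε + κ * (1 - Φ x)) :
    APEP (closure (convexHull ℝ P)) z := by
  have hsub : P ⊆ closure (convexHull ℝ P) := (subset_convexHull ℝ P).trans subset_closure
  refine ⟨hsub hz, fun F ε hε => ?_⟩
  obtain ⟨Φ, κ, hκ, h1, ⟨p, hp, hp1⟩, h3⟩ := h F (ε / 2) (by positivity)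
  have hC1 : ∀ x ∈ closure (convexHull ℝ P), Φ x ≤ 1 := fun x hx =>
    closure_minimal (convexHull_min (t := {x | Φ x ≤ 1}) h1 (convex_le Φ 1))
      (isClosed_le Φ.continuous continuous_const) hx
  have hC3 : ∀ x ∈ closure (convexHull ℝ P), ∀ ψ ∈ F, |ψ x - ψ z| ≤ ε / 2 + κ * (1 - Φ x) :=
    fun x hx ψ hψ => closure_minimal (convexHull_min
      (t := {x | |ψ x - ψ z| ≤ ε / 2 + κ * (1 - Φ x)}) (fun x hx => h3 x hx ψ hψ)
      (convex_ineq Φ ψ (ψ z) (ε / 2) κ)) (closed_ineq Φ ψ (ψ z) (ε / 2) κ) hx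
  have hsup : sSup (Φ '' closure (convexHull ℝ P)) = 1 := by
    apply le_antisymm
    · refine csSup_le (⟨Φ p, ⟨p, hsub hp, rfl⟩⟩ : (Φ '' closure (convexHull ℝ P)).Nonempty) ?_
      rintro _ ⟨x, hx, rfl⟩
      exact hC1 x hx
    · rw [← hp1]
      refine le_csSup ⟨1, ?_⟩ ⟨p, hsub hp, rfl⟩
      rintro _ ⟨x, hx, rfl⟩
      exact hC1 x hx
  have ha : 0 < ε / (4 * κ) := by positivity
  refine ⟨Φ, ε / (4 * κ), ha, ⟨p, hsub hp, ?_⟩, ?_⟩
  · rw [hsup, hp1]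
    linarith
  · rintro x ⟨hx, hx1⟩ ψ hψ
    rw [hsup] at hx1
    have h4 := hC3 x hx ψ hψ
    have h5 : κ * (1 - Φ x) < κ * (ε / (4 * κ)) := mul_lt_mul_of_pos_left (by linarith) hκ
    have h6 : κ * (ε / (4 * κ)) = ε / 4 := by
      field_simp
    rw [h6] at h5
    linarith

theorem main (hMaj : TaskMaj Ω m) (hMem : TaskMem Ω m) : TaskApep Ω m := fun Y =>
  apep_of (PP Y) (x0 Y) (hMem Y).1 (hMaj Y)

end Q194.AP.Apep
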