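import Pool.Agent.Q194.AP.Stmts2
import Pool.Agent.Q194.AP.Apep

set_option autoImplicit false
set_option maxSynthPendingDepth 3

open MeasureTheory Set Filter Topology Q194.AP
open scoped ENNReal

noncomputable section

namespace Q194.AP.ApepD

variable (Ω : Type) [TopologicalSpace Ω] [CompactSpace Ω] [T2Space Ω] [TotallyDisconnectedSpace Ω]
  [SecondCountableTopology Ω] [MeasurableSpace Ω] [BorelSpace Ω] (m : Measure Ω) [IsProbabilityMeasure m]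

theorem aux {X : Type} [NormedAddCommGroup X] [NormedSpace ℝ X] (P : Set X) (z : X)
    (h : ∀ (F : Finset (X →L[ℝ] ℝ)) (ε : ℝ), 0 < ε → ∃ (Φ : X →L[ℝ] ℝ) (κ : ℝ), 0 < κ ∧
      (∀ x, Φ x ≤ ‖x‖) ∧ (∀ x ∈ P, Φ x ≤ 1) ∧ (∃ x ∈ P, Φ x = 1) ∧
      ∀ x ∈ P, ∀ ψ ∈ F, |ψ x - ψ z| ≤ ε + κ * (1 - Φ x)) (F : Finset (X →L[ℝ] ℝ)) (ε : ℝ)
    (hε : 0 < ε) : ∃ (Φ : X →L[ℝ] ℝ) (κ : ℝ), 0 < κ ∧
      (∀ x ∈ P ∪ {x | ‖x‖ ≤ 1 / 2}, Φ x ≤ 1) ∧ (∃ x ∈ P ∪ {x | ‖x‖ ≤ 1 / 2}, Φ x = 1) ∧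
      ∀ x ∈ P ∪ {x | ‖x‖ ≤ 1 / 2}, ∀ ψ ∈ F, |ψ x - ψ z| ≤ ε + κ * (1 - Φ x) := by
  obtain ⟨Φ, κ, hκ, h0, h1, ⟨p, hp, hp1⟩, h3⟩ := h F ε hε
  obtain ⟨M, hM⟩ : ∃ M : ℝ, M = ∑ ψ ∈ F, ‖ψ‖ * (1 / 2 + ‖z‖) := ⟨_, rfl⟩
  have hM0 : 0 ≤ M := by
    rw [hM]
    exact Finset.sum_nonneg fun ψ _ => by positivity
  have hMψ : ∀ ψ ∈ F, ‖ψ‖ * (1 / 2 + ‖z‖) ≤ M := by
    intro ψ hψ
    rw [hM]
    exact Finset.single_le_sum (f := fun ψ : X →L[ℝ] ℝ => ‖ψ‖ * (1 / 2 + ‖z‖))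
      (fun ψ _ => by positivity) hψ
  refine ⟨Φ, κ + 2 * M, by linarith, ?_, ⟨p, Or.inl hp, hp1⟩, ?_⟩
  · rintro x (hx | hx)
    · exact h1 x hx
    · have hx' : ‖x‖ ≤ 1 / 2 := hx
      linarith [h0 x]
  · rintro x (hx | hx) ψ hψ
    · have h4 := h3 x hx ψ hψ
      have h5 := h1 x hx
      nlinarith [mul_nonneg hM0 (sub_nonneg.2 h5)]
    · have hx' : ‖x‖ ≤ 1 / 2 := hx
      have h4 : |ψ x - ψ z| ≤ M := by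
        calc |ψ x - ψ z| = ‖ψ (x - z)‖ := by rw [map_sub, Real.norm_eq_abs]
          _ ≤ ‖ψ‖ * ‖x - z‖ := ψ.le_opNorm _
          _ ≤ ‖ψ‖ * (1 / 2 + ‖z‖) := by
            apply mul_le_mul_of_nonneg_left _ (norm_nonneg _)
            exact (norm_sub_le x z).trans (by linarith)
          _ ≤ M := hMψ ψ hψ
      have h5 : Φ x ≤ 1 / 2 := (h0 x).trans hx'
      nlinarith [mul_nonneg hκ.le (sub_nonneg.2 (h5.trans (by norm_num : (1 / 2 : ℝ) ≤ 1))),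
        mul_nonneg hM0 (sub_nonneg.2 h5)]

theorem main (hMaj : TaskMajN Ω m) (hMem : TaskMem Ω m) : TaskApepD Ω m := fun Y =>
  Q194.AP.Apep.apep_of (QQ Y) (x0 Y) (Or.inl (hMem Y).1) (aux (PP Y) (x0 Y) (hMaj Y))

end Q194.AP.ApepD
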