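import Pool.Agent.Q194.AP.Stmts

set_option autoImplicit false
set_option maxSynthPendingDepth 3

open MeasureTheory Set Filter Topology
open scoped ENNReal

noncomputable section

namespace Q194.AP.B

open Q194.AP

variable (Ω : Type) [TopologicalSpace Ω] [CompactSpace Ω] [T2Space Ω] [TotallyDisconnectedSpace Ω]
  [SecondCountableTopology Ω] [MeasurableSpace Ω] [BorelSpace Ω] (m : Measure Ω) [IsProbabilityMeasure m]

theorem main (hW : TaskW) : TaskB Ω m := by
  intro Y φ ε δ hε hδ
  obtain ⟨w, hwm, hwi, hw⟩ := hW Ω m φ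
  have happ := Y.appr w hwi
  have hev : ∀ᶠ n in atTop, ∫ x, |w (Y.θ n x) - w x| ∂m < ε * δ :=
    (tendsto_order.1 happ).2 _ (by positivity)
  filter_upwards [hev] with n hn
  have hθm : Measurable (Y.θ n) := (Y.cont n).measurable
  have hwθ : Integrable (fun x => w (Y.θ n x)) m :=
    ((Y.mp n).integrable_comp hwi.aestronglyMeasurable).2 hwi
  set D : Ω → ℝ := fun x => |w (Y.θ n x) - w x| with hD
  have hDm : Measurable D := continuous_abs.measurable.comp ((hwm.comp hθm).sub hwm)
  have hDi : Integrable D m := (hwθ.sub hwi).abs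
  refine ⟨{x | D x ≤ ε}, measurableSet_le hDm measurable_const, ?_, ?_, ?_⟩
  · intro x
    simp only [mem_setOf_eq, hD, Y.inv n x]
    rw [abs_sub_comm]
  · have h1 := mul_meas_ge_le_integral_of_nonneg
      (ae_of_all m fun x => abs_nonneg _ : 0 ≤ᵐ[m] D) hDi ε
    have h2 : {x | D x ≤ ε}ᶜ ⊆ {x | ε ≤ D x} := by
      intro x hx
      simp only [mem_compl_iff, mem_setOf_eq, not_le] at hx ⊢
      exact hx.le
    have h3 : m.real {x | D x ≤ ε}ᶜ ≤ m.real {x | ε ≤ D x} := measureReal_mono h2
    have h4 : ε * m.real {x | ε ≤ D x} ≤ ε * δ := h1.trans hn.le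
    exact h3.trans (le_of_mul_le_mul_left h4 hε)
  · intro E' hE'E hE'm hE'inv f g hodd hg
    have hfm : Measurable (f : Ω → ℝ) := (Lp.stronglyMeasurable f).measurable
    have hint_f : Integrable (f : Ω → ℝ) m := L1.integrable_coeFn f
    set b : ℕ → Ω → ℝ := fun k => E'.indicator fun x => if |(f : Ω → ℝ) x| ≤ (k : ℝ) then
      (f : Ω → ℝ) x else 0 with hb
    have hbm : ∀ k : ℕ, Measurable (b k) := fun k =>
      Measurable.indicator (Measurable.ite
        (measurableSet_le (continuous_abs.measurable.comp hfm) measurable_const) hfm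
        measurable_const) hE'm
    have hbk : ∀ (k : ℕ) x, |b k x| ≤ k := by
      intro k x
      simp only [hb, indicator]
      split_ifs with h1 h2
      · exact h2
      · simp
      · simp
    have hbf : ∀ (k : ℕ) x, |b k x| ≤ |(f : Ω → ℝ) x| := by
      intro k x
      simp only [hb, indicator]
      split_ifs with h1 h2
      · exact le_rfl
      · simp
      · simp
    have hbodd : ∀ k : ℕ, ∀ᵐ x ∂m, b k (Y.θ n x) = -b k x := by
      intro k
      filter_upwards [hodd] with x hx
      simp only [hb, indicator]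
      by_cases h : x ∈ E'
      · rw [if_pos h, if_pos ((hE'inv x).2 h), hx, abs_neg]
        split_ifs
        · rfl
        · simp
      · rw [if_neg h, if_neg (fun h' => h ((hE'inv x).1 h'))]
        simp
    have hbi : ∀ k, Integrable (b k) m := fun k =>
      hint_f.mono (hbm k).aestronglyMeasurable (ae_of_all _ fun x => hbf k x)
    set gk : ℕ → Lp ℝ 1 m := fun k => (memLp_one_iff_integrable.2 (hbi k)).toLp (b k) with hgkdef
    have hgk : ∀ k, (gk k : Ω → ℝ) =ᵐ[m] b k := fun k => MemLp.coeFn_toLp _
    have hφk : ∀ k, φ (gk k) = ∫ x, w x * b k x ∂m := fun k =>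
      hw (gk k) (b k) k (hbm k) (hbk k) (hgk k)
    have hvb : ∀ (v : Ω → ℝ), Measurable v → Integrable v m → ∀ k : ℕ,
        Integrable (fun x => v x * b k x) m := by
      intro v hvm hvi k
      refine (hvi.norm.const_mul (k : ℝ)).mono' ((hvm.mul (hbm k)).aestronglyMeasurable)
        (ae_of_all _ fun x => ?_)
      rw [Real.norm_eq_abs, abs_mul, mul_comm, Real.norm_eq_abs]
      exact mul_le_mul_of_nonneg_right (hbk k x) (abs_nonneg _)
    have key : ∀ k, |φ (gk k)| ≤ ε * ‖f‖ := by
      intro k
      have h1 : ∫ x, w (Y.θ n x) * b k (Y.θ n x) ∂m = ∫ x, w x * b k x ∂m := by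
        have h := integral_map (μ := m) hθm.aemeasurable (f := fun x => w x * b k x)
          (by rw [(Y.mp n).map_eq]; exact (hvb w hwm hwi k).aestronglyMeasurable)
        rw [(Y.mp n).map_eq] at h
        exact h.symm
      have h2 : ∫ x, w (Y.θ n x) * b k (Y.θ n x) ∂m = -∫ x, w (Y.θ n x) * b k x ∂m := by
        rw [← integral_neg]
        refine integral_congr_ae ?_
        filter_upwards [hbodd k] with x hx
        rw [hx]; ring
      have h3 : 2 * ∫ x, w x * b k x ∂m = ∫ x, (w x - w (Y.θ n x)) * b k x ∂m := by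
        have h : ∫ x, (w x - w (Y.θ n x)) * b k x ∂m =
            ∫ x, w x * b k x ∂m - ∫ x, w (Y.θ n x) * b k x ∂m := by
          have hsub := integral_sub (hvb w hwm hwi k)
            (hvb (fun x => w (Y.θ n x)) (hwm.comp hθm) hwθ k)
          refine Eq.trans ?_ hsub
          refine integral_congr_ae (ae_of_all _ fun x => ?_)
          simp only
          ring
        rw [h]
        linarith [h1, h2]
      have h4 : |∫ x, (w x - w (Y.θ n x)) * b k x ∂m| ≤ ∫ x, ε * |(f : Ω → ℝ) x| ∂m := by
        refine (abs_integral_le_integral_abs).trans ?_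
        refine integral_mono_of_nonneg (ae_of_all _ fun x => abs_nonneg _)
          (hint_f.abs.const_mul ε) (ae_of_all _ fun x => ?_)
        simp only
        by_cases h : x ∈ E'
        · have h6 : D x ≤ ε := hE'E h
          rw [abs_mul]
          refine mul_le_mul ?_ (hbf k x) (abs_nonneg _) hε.le
          rw [abs_sub_comm]
          exact h6
        · have h6 : b k x = 0 := by
            simp only [hb]
            exact indicator_of_notMem h _
          rw [h6, mul_zero, abs_zero]
          positivity
      have h5 : ∫ x, ε * |(f : Ω → ℝ) x| ∂m = ε * ‖f‖ := by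
        rw [integral_const_mul, L1.norm_eq_integral_norm]
        rfl
      rw [hφk]
      have h6 : |2 * ∫ x, w x * b k x ∂m| ≤ ε * ‖f‖ := by
        rw [h3, ← h5]; exact h4
      rw [abs_mul, abs_of_pos (two_pos : (0 : ℝ) < 2)] at h6
      linarith [abs_nonneg (∫ x, w x * b k x ∂m)]
    have hlim : Tendsto gk atTop (𝓝 g) := by
      rw [tendsto_iff_norm_sub_tendsto_zero]
      have h1 : ∀ k, ‖gk k - g‖ = ∫ x, |b k x - E'.indicator (f : Ω → ℝ) x| ∂m := by
        intro k
        rw [L1.norm_eq_integral_norm]
        refine integral_congr_ae ?_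
        filter_upwards [Lp.coeFn_sub (gk k) g, hgk k, hg] with x h1 h2 h3
        rw [h1, Pi.sub_apply, h2, h3, Real.norm_eq_abs]
      simp only [h1]
      have h2 : Tendsto (fun k : ℕ => ∫ x, |b k x - E'.indicator (f : Ω → ℝ) x| ∂m) atTop
          (𝓝 (∫ _x, (0 : ℝ) ∂m)) := by
        refine tendsto_integral_of_dominated_convergence (fun x => 2 * |(f : Ω → ℝ) x|)
          (fun k => ?_) (hint_f.abs.const_mul 2) (fun k => ae_of_all _ fun x => ?_)
          (ae_of_all _ fun x => ?_)
        · exact (continuous_abs.measurable.comp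
            ((hbm k).sub (hfm.indicator hE'm))).aestronglyMeasurable
        · rw [Real.norm_eq_abs, abs_abs]
          have h3 : |E'.indicator (f : Ω → ℝ) x| ≤ |(f : Ω → ℝ) x| := by
            simp only [indicator]
            split_ifs
            · exact le_rfl
            · simp
          have h4 := hbf k x
          have h5 := abs_sub (b k x) (E'.indicator (f : Ω → ℝ) x)
          linarith
        · refine tendsto_const_nhds.congr' ?_
          obtain ⟨k0, hk0⟩ := exists_nat_ge |(f : Ω → ℝ) x|
          filter_upwards [eventually_ge_atTop k0] with k hk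
          have h3 : |(f : Ω → ℝ) x| ≤ (k : ℝ) := hk0.trans (by exact_mod_cast hk)
          simp only [hb, indicator]
          rw [if_pos h3]
          split_ifs <;> simp
      simpa using h2
    have h9 : Tendsto (fun k => |φ (gk k)|) atTop (𝓝 |φ g|) :=
      ((φ.continuous.tendsto g).comp hlim).abs
    exact le_of_tendsto' h9 key

end Q194.AP.B
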