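import Pool.Agent.Q194.AP.Stmts2

set_option autoImplicit false
set_option maxSynthPendingDepth 3

open MeasureTheory Set Filter Topology
open scoped ENNReal

noncomputable section

namespace Q194.AP.BB

open Q194.AP

variable (Ω : Type) [TopologicalSpace Ω] [CompactSpace Ω] [T2Space Ω] [TotallyDisconnectedSpace Ω]
  [SecondCountableTopology Ω] [MeasurableSpace Ω] [BorelSpace Ω] (m : Measure Ω) [IsProbabilityMeasure m]

theorem normV {Y : Sys Ω m} (x : V Y) (r : ℝ) :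
    ‖x‖ ≤ r ↔ ‖x.1‖ ≤ r ∧ ‖x.2.1‖ ≤ r ∧ ‖x.2.2.1‖ ≤ r ∧ ‖x.2.2.2‖ ≤ r := by
  rw [Prod.norm_def, Prod.norm_def, Prod.norm_def, max_le_iff, max_le_iff, max_le_iff]

/-- the embedding of `C(Ω)`. -/
def ι (Y : Sys Ω m) : C(Ω, ℝ) →L[ℝ] V Y :=
  (ContinuousLinearMap.inr ℝ (Lp ℝ 1 m) ((lp (fun _ : Dat Y => ℝ) 2) × C(Ω, ℝ) × ℝ)).comp
    ((ContinuousLinearMap.inr ℝ (lp (fun _ : Dat Y => ℝ) 2) (C(Ω, ℝ) × ℝ)).comp
      (ContinuousLinearMap.inl ℝ C(Ω, ℝ) ℝ))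

/-- the embedding of `L1`. -/
def κ (Y : Sys Ω m) : Lp ℝ 1 m →L[ℝ] V Y :=
  ContinuousLinearMap.inl ℝ (Lp ℝ 1 m) ((lp (fun _ : Dat Y => ℝ) 2) × C(Ω, ℝ) × ℝ)

theorem ι_apply (Y : Sys Ω m) (u : C(Ω, ℝ)) : ι Ω m Y u = ((0, 0, u, 0) : V Y) := rfl

theorem κ_apply (Y : Sys Ω m) (f : Lp ℝ 1 m) : κ Ω m Y f = ((f, 0, 0, 0) : V Y) := rfl

theorem main (hDec : TaskDecG Ω m) (hExt : TaskExtC Ω) : TaskBB Ω m := by
  intro Y B c p q hp hq hc
  have hp' := (normV Ω m p (1 / 2)).1 hp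
  have hq' := (normV Ω m q (1 / 2)).1 hq
  -- the first step
  have h1 : B p q = B (p.1, p.2.1, 0, p.2.2.2) q + ((B.flip q).comp (ι Ω m Y)) p.2.2.1 := by
    rw [ContinuousLinearMap.comp_apply, ContinuousLinearMap.flip_apply, ← ContinuousLinearMap.add_apply, ← map_add,
      ι_apply]
    congr 2
    ext1 <;> simp
  obtain ⟨v, hv, hv2⟩ := hExt ((B.flip q).comp (ι Ω m Y)) p.2.2.1 (c - B (p.1, p.2.1, 0, p.2.2.2) q) (1 / 2)
    (by norm_num) hp'.2.2.1 (by linarith)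
  have hvn : ‖(1 / 2 : ℝ) • v‖ ≤ 1 / 2 := by
    rw [ContinuousMap.norm_le _ (by norm_num)]
    intro x
    rcases hv x with h | h <;> simp [h]
  set p' : V Y := (p.1, p.2.1, (1 / 2 : ℝ) • v, p.2.2.2) with hpp
  have hp'n : ‖p'‖ ≤ 1 / 2 := (normV Ω m p' (1 / 2)).2 ⟨hp'.1, hp'.2.1, hvn, hp'.2.2.2⟩
  have h2 : B p' q = B (p.1, p.2.1, 0, p.2.2.2) q + ((B.flip q).comp (ι Ω m Y)) ((1 / 2 : ℝ) • v) := by
    rw [ContinuousLinearMap.comp_apply, ContinuousLinearMap.flip_apply, ← ContinuousLinearMap.add_apply, ← map_add,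
      ι_apply]
    congr 2
    ext1 <;> simp [hpp]
  have h3 : c < B p' q := by
    rw [h2]
    linarith
  -- the second step
  have h4 : B p' q = B p' (0, q.2.1, q.2.2.1, q.2.2.2) + ((B p').comp (κ Ω m Y)) q.1 := by
    rw [ContinuousLinearMap.comp_apply, ← map_add, κ_apply]
    congr 1
    ext1 <;> simp
  obtain ⟨j, g, hg1, hg2, -, hg4⟩ := hDec (fun j => if j = 0 then v else 0)
    (fun j x => by
      by_cases hj : j = 0
      · simp only [hj, if_true]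
        rcases hv x with h | h
        · exact Or.inr (Or.inl h)
        · exact Or.inr (Or.inr h)
      · left
        simp [hj])
    (fun i j x hij => by
      by_cases hi : i = 0
      · right
        have hj : j ≠ 0 := fun h => hij (hi.trans h.symm)
        simp [hj]
      · left
        simp [hi])
    (Filter.Eventually.of_forall fun x => ⟨0, by
      rcases hv x with h | h <;> simp [h]⟩)
    ((B p').comp (κ Ω m Y)) q.1 (c - B p' (0, q.2.1, q.2.2.1, q.2.2.2)) (1 / 2) (by norm_num) hq'.1 (by linarith)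
  have hj : j = 0 := by
    by_contra hj
    simp [hj] at hg4
  subst hj
  simp only [if_true] at hg4
  set q' : V Y := (g, q.2.1, q.2.2.1, q.2.2.2) with hqq
  refine ⟨p', q', hp'n, (normV Ω m q' (1 / 2)).2 ⟨hg1, hq'.2.1, hq'.2.2.1, hq'.2.2.2⟩, ?_, ?_⟩
  · have h5 : B p' q' = B p' (0, q.2.1, q.2.2.1, q.2.2.2) + ((B p').comp (κ Ω m Y)) g := by
      rw [ContinuousLinearMap.comp_apply, ← map_add, κ_apply]
      congr 1
      ext1 <;> simp [hqq]
    rw [h5]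
    linarith
  · have h6 : (∫ ω, p'.2.2.1 ω * (q'.1 : Ω → ℝ) ω ∂m) = 1 / 2 * ∫ ω, v ω * (g : Ω → ℝ) ω ∂m := by
      rw [← integral_const_mul]
      congr 1
      funext ω
      simp only [hpp, hqq, ContinuousMap.smul_apply, smul_eq_mul]
      ring
    rw [h6, abs_mul, hg4]
    norm_num

end Q194.AP.BB
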