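import Pool.Agent.Q194.AP.Stmts2

/-! TaskBP (helper279), after TaskHalf (helper135). -/

set_option autoImplicit false
set_option maxSynthPendingDepth 3

open MeasureTheory Set Filter Topology
open scoped ENNReal

noncomputable section

namespace Q194.AP.BP
open Q194.AP

variable (Ω : Type) [TopologicalSpace Ω] [CompactSpace Ω] [T2Space Ω] [TotallyDisconnectedSpace Ω]
  [SecondCountableTopology Ω] [MeasurableSpace Ω] [BorelSpace Ω] (m : Measure Ω) [IsProbabilityMeasure m]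

theorem main (hDec : TaskDecG Ω m) (hHH : TaskHH Ω m) : TaskBP Ω m := by
  intro Y B c p q hp hq hc
  obtain ⟨α, f, t, u, s, hf, hf1, ht, hu, hs, hq⟩ := hq
  obtain ⟨fp, rp⟩ := p
  have hfp : ‖fp‖ ≤ 1 / 2 := (norm_fst_le ((fp, rp) : V Y)).trans hp
  have hrp : ‖rp‖ ≤ 1 / 2 := (norm_snd_le ((fp, rp) : V Y)).trans hp
  let ψ : Lp ℝ 1 m →L[ℝ] ℝ := (B.flip q).comp
    (ContinuousLinearMap.inl ℝ (Lp ℝ 1 m) ((lp (fun _ : Dat Y => ℝ) 2) × C(Ω, ℝ) × ℝ))
  have hψ : ∀ g0 : Lp ℝ 1 m, B ((g0, rp) : V Y) q = ψ g0 + B ((0, rp) : V Y) q := by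
    intro g0
    have h1 : ((g0, rp) : V Y) = (g0, 0) + (0, rp) := by simp
    rw [h1, map_add]
    rfl
  rw [hψ] at hc
  obtain ⟨j, g', hg1', hc', hsupp, hint⟩ := hDec α.h α.val α.disj α.full ψ fp
    (c - B ((0, rp) : V Y) q) (1 / 2) (by norm_num) hfp (by linarith)
  obtain ⟨-, -, -, hcoef, -⟩ := hHH Y α u hu
  obtain ⟨a, ha, hua, hb⟩ := hcoef j
  set p' : V Y := (g', rp) with hp'
  have hpq : c < B p' q := by
    rw [hp', hψ]
    linarith
  let D : ℝ := B p' (0, 0, α.h j, 0)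
  have haff : ∀ b : ℝ, B p' (f, t • bv α, u + (b - a) • α.h j, s) = B p' q + (b - a) * D := by
    intro b
    have h1 : ((f, t • bv α, u + (b - a) • α.h j, s) : V Y) =
        q + (b - a) • ((0, 0, α.h j, 0) : V Y) := by
      simp [hq]
    rw [h1, map_add, map_smul]
    rfl
  obtain ⟨b, hb1, hbD⟩ : ∃ b : ℝ, |b| = 1 ∧ 0 ≤ (b - a) * D := by
    rcases le_or_gt 0 D with h | h
    · exact ⟨1, by simp, mul_nonneg (by linarith [(abs_le.1 ha).2]) h⟩
    · exact ⟨-1, by simp, mul_nonneg_of_nonpos_of_nonpos (by linarith [(abs_le.1 ha).1]) h.le⟩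
  refine ⟨p', (f, t • bv α, u + (b - a) • α.h j, s), ?_,
    ⟨α, f, t, _, s, hf, hf1, ht, hb b hb1.le, hs, rfl⟩, ?_, ?_⟩
  · exact max_le hg1' hrp
  · rw [haff]
    linarith
  · have e : ∫ ω, (u + (b - a) • α.h j) ω * (g' : Ω → ℝ) ω ∂m =
        b * ∫ ω, α.h j ω * (g' : Ω → ℝ) ω ∂m := by
      rw [← integral_const_mul]
      refine integral_congr_ae ?_
      filter_upwards [hsupp] with x hx
      by_cases h0 : α.h j x = 0
      · rw [hx h0]
        simp
      · have h1 := hua x h0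
        simp only [ContinuousMap.add_apply, ContinuousMap.smul_apply, smul_eq_mul, h1]
        ring
    change |∫ ω, (u + (b - a) • α.h j) ω * (g' : Ω → ℝ) ω ∂m| = 1 / 2
    rw [e, abs_mul, hb1, hint, one_mul]

end Q194.AP.BP
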