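import Pool.Agent.Q194.AP.Stmts

/-! # Proof of `TaskBil` -/

set_option autoImplicit false
set_option maxSynthPendingDepth 3

open Set Filter Topology

noncomputable section

namespace Q194.AP.Bil

open Q194.AP

private lemma ev_apply {X : Type} [NormedAddCommGroup X] [NormedSpace ℝ X] (x y : X) (B : Q194.AP.Bil X X) :
    ev x y B = B x y := rfl

private lemma tens_add_left {X : Type} [NormedAddCommGroup X] [NormedSpace ℝ X] (x x' y : X) :
    tens (x + x') y = tens x y + tens x' y := by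
  apply Subtype.ext
  change ev (x + x') y = ev x y + ev x' y
  ext B
  simp [ev_apply]

private lemma tens_add_right {X : Type} [NormedAddCommGroup X] [NormedSpace ℝ X] (x y y' : X) :
    tens x (y + y') = tens x y + tens x y' := by
  apply Subtype.ext
  change ev x (y + y') = ev x y + ev x y'
  ext B
  simp [ev_apply]

private lemma tens_smul_left {X : Type} [NormedAddCommGroup X] [NormedSpace ℝ X] (c : ℝ) (x y : X) :
    tens (c • x) y = c • tens x y := by
  apply Subtype.ext
  change ev (c • x) y = c • ev x y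
  ext B
  simp [ev_apply]

private lemma tens_smul_right {X : Type} [NormedAddCommGroup X] [NormedSpace ℝ X] (c : ℝ) (x y : X) :
    tens x (c • y) = c • tens x y := by
  apply Subtype.ext
  change ev x (c • y) = c • ev x y
  ext B
  simp [ev_apply]

private lemma tens_norm {X : Type} [NormedAddCommGroup X] [NormedSpace ℝ X] (x y : X) :
    ‖tens x y‖ ≤ ‖x‖ * ‖y‖ := by
  change ‖ev x y‖ ≤ ‖x‖ * ‖y‖
  apply ContinuousLinearMap.opNorm_le_bound _ (by positivity)
  intro B
  rw [ev_apply]
  calc ‖B x y‖ ≤ ‖B‖ * ‖x‖ * ‖y‖ := ContinuousLinearMap.le_opNorm₂ B x y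
    _ = ‖x‖ * ‖y‖ * ‖B‖ := by ring

theorem main : TaskBil := by
  intro X _ _
  refine ⟨fun Φ => ?_, fun B => ?_⟩
  · obtain ⟨C, hC0, hC⟩ := ContinuousLinearMap.bound (𝕜 := ℝ) (𝕜₂ := ℝ) (σ₁₂ := RingHom.id ℝ) (E := ↥(PT X X)) (F := ℝ) Φ
    let f : X →ₗ[ℝ] X →ₗ[ℝ] ℝ := LinearMap.mk₂ ℝ (fun x y => Φ (tens x y))
      (fun x x' y => by rw [tens_add_left, map_add])
      (fun c x y => by rw [tens_smul_left, map_smul])
      (fun x y y' => by rw [tens_add_right, map_add])
      (fun c x y => by rw [tens_smul_right, map_smul])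
    refine ⟨LinearMap.mkContinuous₂ f C ?_, ?_⟩
    · intro x y
      change ‖Φ (tens x y)‖ ≤ C * ‖x‖ * ‖y‖
      calc ‖Φ (tens x y)‖ ≤ C * ‖tens x y‖ := hC _
        _ ≤ C * (‖x‖ * ‖y‖) := mul_le_mul_of_nonneg_left (tens_norm x y) hC0.le
        _ = _ := by ring
    · intro x y
      rw [LinearMap.mkContinuous₂_apply]
      rfl
  · refine ⟨(ContinuousLinearMap.apply ℝ ℝ B).comp (PT X X).subtypeL, ?_⟩
    intro x y
    rfl

end Q194.AP.Bil
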