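import Mathlib

/-! Blueprint for MP_3d49e4_an (Q1 is false): almost preserved extreme points (APEP) are not stable under projective
tensor products. `X = Y = V = L1 × ℓ2(Λ) × C(Ω) × ℝ`, `C = D = closure (convexHull PP)`, `x0 = (0,0,0,1)`.
Write `theorem main (h : TaskDep) ... : TaskXxx` in `Pool/Agent/Q194/AP/Xxx.lean`, namespace `Q194.AP.Xxx`,
import Pool.Agent.Q194.AP.Stmts, `set_option maxSynthPendingDepth 3`, open Q194.AP. The dependencies named in the doc strings are hypotheses of `main`.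
Header after the imports: `variable (Ω : Type) [TopologicalSpace Ω] [CompactSpace Ω] [T2Space Ω] [TotallyDisconnectedSpace Ω]
[SecondCountableTopology Ω] [MeasurableSpace Ω] [BorelSpace Ω] (m : Measure Ω) [IsProbabilityMeasure m]` and e.g.
`theorem main (hW : TaskW) : TaskB Ω m` (TaskSup, TaskBil, TaskSys, TaskW, TaskJordan, TaskRMK have no arguments). -/

set_option autoImplicit false
set_option maxSynthPendingDepth 3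

open MeasureTheory Set Filter Topology
open scoped ENNReal

noncomputable section

namespace Q194.AP

/-! ### general definitions -/

/-- slices -/
def Slice {X : Type} [NormedAddCommGroup X] [NormedSpace ℝ X] (C : Set X) (φ : X →L[ℝ] ℝ) (a : ℝ) : Set X :=
  {x | x ∈ C ∧ sSup (φ '' C) - a < φ x}

/-- almost preserved extreme points: every basic weak neighbourhood of `x0` contains a nonempty slice -/
def APEP {X : Type} [NormedAddCommGroup X] [NormedSpace ℝ X] (C : Set X) (x0 : X) : Prop :=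
  x0 ∈ C ∧ ∀ (F : Finset (X →L[ℝ] ℝ)) (ε : ℝ), 0 < ε → ∃ (φ : X →L[ℝ] ℝ) (a : ℝ), 0 < a ∧
    (Slice C φ a).Nonempty ∧ ∀ x ∈ Slice C φ a, ∀ ψ ∈ F, |ψ x - ψ x0| < ε

section tensor

variable (X Y : Type) [NormedAddCommGroup X] [NormedSpace ℝ X] [NormedAddCommGroup Y] [NormedSpace ℝ Y]

/-- bounded bilinear forms -/
abbrev Bil : Type := X →L[ℝ] Y →L[ℝ] ℝ

variable {X Y} in
/-- `x ⊗ y` as a functional on bilinear forms -/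
def ev (x : X) (y : Y) : Bil X Y →L[ℝ] ℝ :=
  (ContinuousLinearMap.apply ℝ ℝ y).comp (ContinuousLinearMap.apply ℝ (Y →L[ℝ] ℝ) x)

/-- the projective tensor product: the closed span of the `x ⊗ y` in the dual of the bilinear forms -/
def PT : Submodule ℝ (Bil X Y →L[ℝ] ℝ) := (Submodule.span ℝ {z | ∃ x y, z = ev x y}).topologicalClosure

variable {X Y} in
/-- `x ⊗ y` -/
def tens (x : X) (y : Y) : PT X Y :=
  ⟨ev x y, Submodule.le_topologicalClosure _ (Submodule.subset_span ⟨x, y, rfl⟩)⟩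

variable {X Y} in
/-- the closed convex hull of `C ⊗ D` -/
def hull (C : Set X) (D : Set Y) : Set (PT X Y) := closure (convexHull ℝ {z | ∃ x ∈ C, ∃ y ∈ D, z = tens x y})

end tensor

/-- the final statement -/
def Goal : Prop := ∃ (X : Type) (_ : NormedAddCommGroup X) (_ : NormedSpace ℝ X) (_ : CompleteSpace X) (C : Set X) (x0 : X),
  (∀ x ∈ C, -x ∈ C) ∧ Bornology.IsBounded C ∧ IsClosed C ∧ Convex ℝ C ∧ APEP C x0 ∧ ¬ APEP (hull C C) (tens x0 x0)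

/-- a functional on the tensor product large at a point of the hull of `closure (convexHull P)` is large at some `p ⊗ q`
with `p, q ∈ P` (the set `{z | Φ z ≤ c}` is closed and convex, separately in each variable) -/
def TaskSup : Prop := ∀ (X : Type) [NormedAddCommGroup X] [NormedSpace ℝ X] (P : Set X) (Φ : PT X X →L[ℝ] ℝ) (c : ℝ),
  (∃ z ∈ hull (closure (convexHull ℝ P)) (closure (convexHull ℝ P)), c < Φ z) → ∃ p ∈ P, ∃ q ∈ P, c < Φ (tens p q)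

/-- functionals on the tensor product give bilinear forms, and the other way round -/
def TaskBil : Prop := ∀ (X : Type) [NormedAddCommGroup X] [NormedSpace ℝ X],
  (∀ Φ : PT X X →L[ℝ] ℝ, ∃ B : Bil X X, ∀ x y, Φ (tens x y) = B x y) ∧
  ∀ B : Bil X X, ∃ Φ : PT X X →L[ℝ] ℝ, ∀ x y, Φ (tens x y) = B x y

/-! ### the measure space -/

/-- commuting measure preserving involutions `θ n` and signs `r n`; e.g. `Ω = (ℤ/2)^ℕ` with Haar measure, `θ n` = change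
of the coordinate `n`, `r n` = Rademacher functions -/
structure Sys (Ω : Type) [TopologicalSpace Ω] [MeasurableSpace Ω] (m : Measure Ω) where
  θ : ℕ → Ω → Ω
  cont : ∀ n, Continuous (θ n)
  inv : ∀ n x, θ n (θ n x) = x
  comm : ∀ i j x, θ i (θ j x) = θ j (θ i x)
  mp : ∀ n, MeasurePreserving (θ n) m m
  r : ℕ → C(Ω, ℝ)
  r_val : ∀ n x, r n x = 1 ∨ r n x = -1
  r_self : ∀ n x, r n (θ n x) = -r n x
  r_ne : ∀ i n x, i ≠ n → r n (θ i x) = r n x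
  appr : ∀ g : Ω → ℝ, Integrable g m → Tendsto (fun n => ∫ x, |g (θ n x) - g x| ∂m) atTop (𝓝 0)

/-- existence (`appr`: true for continuous functions by uniform continuity, then density in `L1`) -/
def TaskSys : Prop := ∃ (Ω : Type) (_ : TopologicalSpace Ω) (_ : CompactSpace Ω) (_ : T2Space Ω)
  (_ : TotallyDisconnectedSpace Ω) (_ : SecondCountableTopology Ω) (_ : MeasurableSpace Ω) (_ : BorelSpace Ω)
  (m : Measure Ω) (_ : IsProbabilityMeasure m), Nonempty (Sys Ω m)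

variable {Ω : Type} [TopologicalSpace Ω] [CompactSpace Ω] [T2Space Ω] [TotallyDisconnectedSpace Ω]
  [SecondCountableTopology Ω] [MeasurableSpace Ω] [BorelSpace Ω] {m : Measure Ω} [IsProbabilityMeasure m]

/-- data -/
structure Dat (Y : Sys Ω m) where
  n : ℕ
  h : ℕ → C(Ω, ℝ)
  val : ∀ j x, h j x = 0 ∨ h j x = 1 ∨ h j x = -1
  disj : ∀ i j x, i ≠ j → h i x = 0 ∨ h j x = 0
  full : ∀ᵐ x ∂m, ∃ j, h j x ≠ 0
  odd : ∀ j i x, i ≤ n → h j (Y.θ i x) = -h j x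

/-- the Banach space -/
abbrev V (Y : Sys Ω m) : Type := Lp ℝ 1 m × (lp (fun _ : Dat Y => ℝ) 2) × C(Ω, ℝ) × ℝ

/-- `f ∘ θ n = - f` -/
def IsOdd (Y : Sys Ω m) (n : ℕ) (f : Lp ℝ 1 m) : Prop := (fun x => (f : Ω → ℝ) (Y.θ n x)) =ᵐ[m] fun x => -(f : Ω → ℝ) x

/-- finite sums `∑ a_j h_j`, `|a_j| ≤ 1` -/
def HH {Y : Sys Ω m} (α : Dat Y) : Set C(Ω, ℝ) :=
  {u | ∃ (J : ℕ) (a : ℕ → ℝ), (∀ j, |a j| ≤ 1) ∧ u = ∑ j ∈ Finset.range J, a j • α.h j}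

open Classical in
/-- unit vectors of `ℓ2` -/
def bv {Y : Sys Ω m} (α : Dat Y) : lp (fun _ : Dat Y => ℝ) 2 := lp.single 2 α (1 : ℝ)

def PP (Y : Sys Ω m) : Set (V Y) :=
  {x | ∃ (α : Dat Y) (f : Lp ℝ 1 m) (t : ℝ) (u : C(Ω, ℝ)) (s : ℝ), IsOdd Y α.n f ∧ ‖f‖ ≤ 1 ∧ |t| ≤ 1 ∧ u ∈ HH α ∧
    |s| ≤ 1 ∧ x = (f, t • bv α, u, s)}

def CC (Y : Sys Ω m) : Set (V Y) := closure (convexHull ℝ (PP Y))

def x0 (Y : Sys Ω m) : V Y := (0, 0, 0, 1)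

variable (Ω m)

/-- `f ∈ L2 ⊆ L1`: Riesz: `φ f = ∫ w f` for bounded measurable `f` (`w ∈ L2`, `MemLp w 2`, so integrable) -/
def TaskW : Prop := ∀ (Ω : Type) [MeasurableSpace Ω] (m : Measure Ω) [IsProbabilityMeasure m] (φ : Lp ℝ 1 m →L[ℝ] ℝ),
  ∃ w : Ω → ℝ, Measurable w ∧ Integrable w m ∧ ∀ (f : Lp ℝ 1 m) (b : Ω → ℝ) (c : ℝ), Measurable b → (∀ x, |b x| ≤ c) →
    (f : Ω → ℝ) =ᵐ[m] b → φ f = ∫ x, w x * b x ∂m

/-- deps `TaskW`. `E = {x | |w (θ n x) - w x| ≤ ε}`, `m Eᶜ ≤ δ` for large `n` by Markov and `appr`; for odd bounded `f`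
`φ (f 1_E) = ½ ∫_E (w - w ∘ θ) f`; general odd `f`: truncation `f 1_{|f| ≤ k}` (odd, bounded), limit in `L1` -/
def TaskB : Prop := ∀ (Y : Sys Ω m) (φ : Lp ℝ 1 m →L[ℝ] ℝ) (ε δ : ℝ), 0 < ε → 0 < δ → ∀ᶠ n in atTop,
  ∃ E : Set Ω, MeasurableSet E ∧ (∀ x, Y.θ n x ∈ E ↔ x ∈ E) ∧ m.real Eᶜ ≤ δ ∧ ∀ E' ⊆ E, MeasurableSet E' →
    (∀ x, Y.θ n x ∈ E' ↔ x ∈ E') → ∀ f g : Lp ℝ 1 m, IsOdd Y n f →
    (g : Ω → ℝ) =ᵐ[m] E'.indicator (f : Ω → ℝ) → |φ g| ≤ ε * ‖f‖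

/-- Riemann-Lebesgue: `2 ∫ g r_n = ∫ (g - g ∘ θ n) r_n` by invariance and `r_self`, then `appr` -/
def TaskRL : Prop := ∀ (Y : Sys Ω m) (g : Ω → ℝ), Integrable g m → Tendsto (fun n => ∫ x, g x * Y.r n x ∂m) atTop (𝓝 0)

/-- Jordan decomposition of a bounded functional on `C(Ω)`: `p u = sup {μ v | 0 ≤ v ≤ u}` for `u ≥ 0` -/
def TaskJordan : Prop := ∀ (Ω : Type) [TopologicalSpace Ω] [CompactSpace Ω] (μ : C(Ω, ℝ) →L[ℝ] ℝ),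
  ∃ p q : C(Ω, ℝ) →ₗ[ℝ] ℝ, (∀ u, (∀ x, 0 ≤ u x) → 0 ≤ p u) ∧ (∀ u, (∀ x, 0 ≤ u x) → 0 ≤ q u) ∧ ∀ u, μ u = p u - q u

/-- Riesz-Markov (`RealRMK`, `Mathlib.MeasureTheory.Integral.RieszMarkovKakutani.Real`, `C_c(Ω) = C(Ω)`) -/
def TaskRMK : Prop := ∀ (Ω : Type) [TopologicalSpace Ω] [CompactSpace Ω] [T2Space Ω] [MeasurableSpace Ω] [BorelSpace Ω]
  (p : C(Ω, ℝ) →ₗ[ℝ] ℝ), (∀ u, (∀ x, 0 ≤ u x) → 0 ≤ p u) →
  ∃ (l : Measure Ω) (_ : IsFiniteMeasure l), ∀ u, p u = ∫ x, u x ∂l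

/-- Lebesgue decomposition `l = g m + s`, `s` singular; a closed (compact) `m`-null set `K` with `s Kᶜ ≤ ε` (inner
regularity); replace it by the union of its finitely many images under the products of `θ 0, …, θ n` -/
def TaskSing : Prop := ∀ (Y : Sys Ω m) (l : Measure Ω) [IsFiniteMeasure l] (n : ℕ) (ε : ℝ), 0 < ε →
  ∃ K : Set Ω, IsClosed K ∧ m K = 0 ∧ (∀ i ≤ n, ∀ x, Y.θ i x ∈ K ↔ x ∈ K) ∧ ∃ g : Ω → ℝ, Integrable g m ∧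
    ∀ u : C(Ω, ℝ), (∀ x ∈ K, u x = 0) → (∀ x, |u x| ≤ 1) → |∫ x, u x ∂l - ∫ x, g x * u x ∂m| ≤ ε

/-- disjoint invariant clopen sets `G j` which fill the complement of `K` up to a null set: clopen `V k ⊇ K` with
`m (V k) ≤ 1 / (k+1)` (outer regularity; clopen sets are a basis), invariant (finite intersections of images) and decreasing;
`G 0 = (V 0)ᶜ`, `G (j+1) = V j \ V (j+1)` -/
def TaskDisj : Prop := ∀ (Y : Sys Ω m) (n : ℕ) (K : Set Ω), IsClosed K → m K = 0 → (∀ i ≤ n, ∀ x, Y.θ i x ∈ K ↔ x ∈ K) →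
  ∃ G : ℕ → Set Ω, (∀ j, IsClopen (G j)) ∧ (∀ i j, i ≠ j → Disjoint (G i) (G j)) ∧ (∀ j, Disjoint (G j) K) ∧
    (∀ j, ∀ i ≤ n, ∀ x, Y.θ i x ∈ G j ↔ x ∈ G j) ∧ ∀ᵐ x ∂m, ∃ j, x ∈ G j

/-- deps `TaskRL`, `TaskDisj`. `h j = 1_{G j} r_0 ⋯ r_n r_{N j}` with `N j > n` so large that
`|∫ g h_j| ≤ ε / 2^(j+1)` for all `g` in the finite list -/
def TaskFam : Prop := ∀ (Y : Sys Ω m) (n k : ℕ) (g : Fin k → Ω → ℝ) (K : Set Ω) (ε : ℝ), (∀ i, Integrable (g i) m) →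
  IsClosed K → m K = 0 → (∀ i ≤ n, ∀ x, Y.θ i x ∈ K ↔ x ∈ K) → 0 < ε →
  ∃ α : Dat Y, α.n = n ∧ (∀ j, ∀ x ∈ K, α.h j x = 0) ∧ ∀ u ∈ HH α, ∀ i, |∫ x, g i x * u x ∂m| ≤ ε

/-- elements of `HH` are bounded by one -/
def TaskHH : Prop := ∀ (Y : Sys Ω m) (α : Dat Y), ∀ u ∈ HH α, ‖u‖ ≤ 1 ∧ (∀ x, |u x| ≤ 1) ∧ -u ∈ HH α ∧
  (∀ (j : ℕ), ∃ a : ℝ, |a| ≤ 1 ∧ (∀ x, α.h j x ≠ 0 → u x = a * α.h j x) ∧
    ∀ b : ℝ, |b| ≤ 1 → u + (b - a) • α.h j ∈ HH α) ∧ (0 : C(Ω, ℝ)) ∈ HH α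

/-- deps `TaskJordan`, `TaskRMK`, `TaskSing`, `TaskFam`, `TaskHH`. -/
def TaskA : Prop := ∀ (Y : Sys Ω m) (n : ℕ) (F : Finset (C(Ω, ℝ) →L[ℝ] ℝ)) (ε : ℝ), 0 < ε →
  ∃ α : Dat Y, α.n = n ∧ ∀ μ ∈ F, ∀ u ∈ HH α, |μ u| ≤ ε

/-- a functional on `ℓ2` is small at almost all unit vectors (Bessel), and `‖bv α‖ = 1`; coordinates as a functional -/
def TaskBv : Prop := ∀ (Y : Sys Ω m), (∀ (φ : (lp (fun _ : Dat Y => ℝ) 2) →L[ℝ] ℝ) (ε : ℝ), 0 < ε →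
  {α : Dat Y | ε < |φ (bv α)|}.Finite) ∧ (∀ α : Dat Y, ‖bv α‖ = 1) ∧
  ∀ α : Dat Y, ∃ z : (lp (fun _ : Dat Y => ℝ) 2) →L[ℝ] ℝ, z (bv α) = 1 ∧ ∀ β : Dat Y, β ≠ α → z (bv β) = 0

/-- `g f = ∫ r_n 1_E f`: `|g f| ≤ ‖f‖`, and `‖f - f 1_E‖ ≤ 1 - g f` if `‖f‖ ≤ 1`; value `1` at the odd function
`r_n 1_E / m E` -/
def TaskG : Prop := ∀ (Y : Sys Ω m) (n : ℕ) (E : Set Ω), MeasurableSet E → (∀ x, Y.θ n x ∈ E ↔ x ∈ E) → m E ≠ 0 →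
  ∃ γ : Lp ℝ 1 m →L[ℝ] ℝ, (∀ f, |γ f| ≤ ‖f‖) ∧ (∀ f : Lp ℝ 1 m, ‖f‖ ≤ 1 → ∃ f1 : Lp ℝ 1 m,
    (f1 : Ω → ℝ) =ᵐ[m] E.indicator (f : Ω → ℝ) ∧ ‖f - f1‖ ≤ 1 - γ f) ∧ ∃ f : Lp ℝ 1 m, IsOdd Y n f ∧ ‖f‖ ≤ 1 ∧ γ f = 1

/-- deps `TaskB`, `TaskA`, `TaskBv`, `TaskG`. Choice of `α`: all sets of `TaskB` for the `L1`-parts of the functionals of `F`
(all large `n`, `E` = intersection, `δ = 1 / (2 |F| + 2)`), `α` from `TaskA` for each large `n`, infinitely many `α`, so one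
with `|ψ (bv α)| ≤ ε` by `TaskBv`; the functional `Φ (f,z,u,s) = (γ f + z_α + s) / 3`. Estimate: the same `α`: each part;
another `α`: `Φ ≤ 2/3` -/
def TaskMaj : Prop := ∀ (Y : Sys Ω m) (F : Finset (V Y →L[ℝ] ℝ)) (ε : ℝ), 0 < ε →
  ∃ (Φ : V Y →L[ℝ] ℝ) (κ : ℝ), 0 < κ ∧ (∀ x ∈ PP Y, Φ x ≤ 1) ∧ (∃ x ∈ PP Y, Φ x = 1) ∧
    ∀ x ∈ PP Y, ∀ ψ ∈ F, |ψ x - ψ (x0 Y)| ≤ ε + κ * (1 - Φ x)

/-- deps `TaskMaj`, `TaskMem`. The inequalities pass to `CC`; slice of `Φ` with `a = ε / κ` (so `Φ x > 1 - a`) -/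
def TaskApep : Prop := ∀ (Y : Sys Ω m), APEP (CC Y) (x0 Y)

/-- deps `TaskA` (a datum exists), `TaskHH`, `TaskBv`. `x0 ∈ PP`, symmetric, bounded (norm ≤ 1), closed, convex -/
def TaskMem : Prop := ∀ (Y : Sys Ω m), x0 Y ∈ PP Y ∧ (∀ x ∈ PP Y, -x ∈ PP Y) ∧ (∀ x ∈ CC Y, -x ∈ CC Y) ∧
  Bornology.IsBounded (CC Y) ∧ IsClosed (CC Y) ∧ Convex ℝ (CC Y)

/-- the bilinear form `T x y = ∫ u_x f_y` -/
def TaskT : Prop := ∀ (Y : Sys Ω m), ∃ T : Bil (V Y) (V Y), ∀ x y : V Y, T x y = ∫ ω, x.2.2.1 ω * (y.1 : Ω → ℝ) ω ∂m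

/-- decomposition in `L1`: `f = ∑ f 1_{G j} 1_{± f h_j > 0}` (`G j = {h j ≠ 0}`, invariant under `θ k`, `k ≤ α.n`), each
nonzero piece divided by its norm; if `ψ f ≤ ε` take `±` any normalised piece, e.g. of `h_j / ‖h_j‖` -/
def TaskDec : Prop := ∀ (Y : Sys Ω m) (α : Dat Y) (k : ℕ), k ≤ α.n → ∀ (ψ : Lp ℝ 1 m →L[ℝ] ℝ) (f : Lp ℝ 1 m) (c : ℝ),
  IsOdd Y k f → ‖f‖ ≤ 1 → c < ψ f → ∃ (j : ℕ) (g : Lp ℝ 1 m), IsOdd Y k g ∧ ‖g‖ ≤ 1 ∧ c < ψ g ∧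
    (∀ᵐ x ∂m, α.h j x = 0 → (g : Ω → ℝ) x = 0) ∧ |∫ x, α.h j x * (g : Ω → ℝ) x ∂m| = 1

/-- deps `TaskDec`, `TaskHH`. First replace `f_q` by `g` of `TaskDec` (for `ψ f = B p (f, q.2)`, subtract the constant
`B p (0, q.2)`), then the coefficient `a_j` of `u_p` by `1` or `-1` (the value of `B` is affine in it) -/
def TaskHalf : Prop := ∀ (Y : Sys Ω m) (B : Bil (V Y) (V Y)) (c : ℝ) (α β : Dat Y) (f g : Lp ℝ 1 m) (t s t' s' : ℝ)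
  (u v : C(Ω, ℝ)), β.n ≤ α.n → IsOdd Y α.n f → ‖f‖ ≤ 1 → |t| ≤ 1 → u ∈ HH α → |s| ≤ 1 → IsOdd Y β.n g → ‖g‖ ≤ 1 →
  |t'| ≤ 1 → v ∈ HH β → |s'| ≤ 1 → c < B (f, t • bv α, u, s) (g, t' • bv β, v, s') →
  ∃ p ∈ PP Y, ∃ q ∈ PP Y, c < B p q ∧ |∫ ω, p.2.2.1 ω * (q.1 : Ω → ℝ) ω ∂m| = 1

/-- deps `TaskHalf` (for `B` and the flipped form `B.flip`) -/
def TaskKey : Prop := ∀ (Y : Sys Ω m) (B : Bil (V Y) (V Y)) (c : ℝ), (∃ p ∈ PP Y, ∃ q ∈ PP Y, c < B p q) →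
  ∃ p ∈ PP Y, ∃ q ∈ PP Y, c < B p q ∧ (|∫ ω, p.2.2.1 ω * (q.1 : Ω → ℝ) ω ∂m| = 1 ∨
    |∫ ω, q.2.2.1 ω * (p.1 : Ω → ℝ) ω ∂m| = 1)

/-- deps `TaskSup`, `TaskBil`, `TaskT`, `TaskKey`, `TaskMem`. `F` = the two functionals of `T` and `T.flip`, `ε = 1/2`; both
are zero at `x0 ⊗ x0` -/
def TaskNot : Prop := ∀ (Y : Sys Ω m), ¬ APEP (hull (CC Y) (CC Y)) (tens (x0 Y) (x0 Y))

end Q194.AP
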