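import Mathlib
import Pool.Agent.Q194.AP.Stmts

set_option autoImplicit false
set_option maxSynthPendingDepth 3

open MeasureTheory Set Filter Topology
open scoped ENNReal

noncomputable section

namespace Q194.AP.Bv

open Q194.AP

variable (Ω : Type) [TopologicalSpace Ω] [CompactSpace Ω] [T2Space Ω] [TotallyDisconnectedSpace Ω]
  [SecondCountableTopology Ω] [MeasurableSpace Ω] [BorelSpace Ω] (m : Measure Ω) [IsProbabilityMeasure m]

theorem gen {I : Type} [DecidableEq I] :
    (∀ (φ : (lp (fun _ : I => ℝ) 2) →L[ℝ] ℝ) (ε : ℝ), 0 < ε →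
      {α : I | ε < |φ (lp.single 2 α (1 : ℝ))|}.Finite) ∧
    (∀ α : I, ‖(lp.single 2 α (1 : ℝ) : lp (fun _ : I => ℝ) 2)‖ = 1) ∧
    ∀ α : I, ∃ z : (lp (fun _ : I => ℝ) 2) →L[ℝ] ℝ, z (lp.single 2 α (1 : ℝ)) = 1 ∧
      ∀ β : I, β ≠ α → z (lp.single 2 β (1 : ℝ)) = 0 := by
  refine ⟨?_, ?_, ?_⟩
  · intro φ ε hε
    set v := (InnerProductSpace.toDual ℝ (lp (fun _ : I => ℝ) 2)).symm φ with hv
    have h1 : ∀ α : I, φ (lp.single 2 α (1 : ℝ)) = v α := by
      intro α
      have h2 : φ (lp.single 2 α (1 : ℝ)) = inner ℝ v (lp.single 2 α (1 : ℝ)) := by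
        rw [hv, InnerProductSpace.toDual_symm_apply]
      rw [h2, lp.inner_single_right]
      simp
    have h3 := (lp.memℓp v).summable (by norm_num : (0 : ℝ) < (2 : ℝ≥0∞).toReal)
    have h4 := h3.tendsto_cofinite_zero
    have h5 : ∀ᶠ α in cofinite, ‖v α‖ ^ (2 : ℝ≥0∞).toReal < ε ^ (2 : ℝ≥0∞).toReal :=
      h4.eventually (gt_mem_nhds (by positivity))
    refine (Filter.eventually_cofinite.1 h5).subset ?_
    intro α hα
    simp only [mem_ofPred_eq, h1] at hα ⊢
    rw [not_lt]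
    exact Real.rpow_le_rpow hε.le (by rw [Real.norm_eq_abs]; exact hα.le) (by norm_num)
  · intro α
    rw [lp.norm_single (by norm_num)]
    simp
  · intro α
    refine ⟨innerSL ℝ (lp.single 2 α (1 : ℝ)), ?_, ?_⟩
    · rw [innerSL_apply_apply, lp.inner_single_right]
      simp
    · intro β hβ
      rw [innerSL_apply_apply, lp.inner_single_right]
      simp [hβ]

theorem main : TaskBv Ω m := by
  intro Y
  exact @gen (Dat Y) (fun a b => Classical.propDecidable (a = b))

end Q194.AP.Bv
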