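import Pool.Agent.Q194.AP.Stmts2

/-!
`TaskBvN` (blueprint of helper194 for MP_3d49e4_an): the coordinates as functionals of norm at most one.
-/

set_option autoImplicit false
set_option maxSynthPendingDepth 3

open MeasureTheory Set Filter Topology
open scoped ENNReal

noncomputable section

namespace Q194.AP.BvN

open Q194.AP

variable (Ω : Type) [TopologicalSpace Ω] [CompactSpace Ω] [T2Space Ω] [TotallyDisconnectedSpace Ω]
  [SecondCountableTopology Ω] [MeasurableSpace Ω] [BorelSpace Ω] (m : Measure Ω) [IsProbabilityMeasure m]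

theorem main : TaskBvN Ω m := by
  intro Y α
  have h2 : (2 : ℝ≥0∞) ≠ 0 := by norm_num
  refine ⟨LinearMap.mkContinuous (E := lp (fun _ : Dat Y => ℝ) 2) (F := ℝ)
    ⟨⟨fun x => (x : Dat Y → ℝ) α, fun _ _ => rfl⟩, fun _ _ => rfl⟩ 1 (by
      intro y
      rw [one_mul]
      exact lp.norm_apply_le_norm h2 y α), ?_, ?_, ?_⟩
  · show (bv α : Dat Y → ℝ) α = 1
    unfold bv
    classical
    exact lp.single_apply_self (E := fun _ : Dat Y => ℝ) 2 α (1 : ℝ)
  · intro β hβ
    show (bv β : Dat Y → ℝ) α = 0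
    unfold bv
    classical
    exact lp.single_apply_ne (E := fun _ : Dat Y => ℝ) 2 β (1 : ℝ) (Ne.symm hβ)
  · intro x
    exact lp.norm_apply_le_norm h2 x α

end Q194.AP.BvN
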