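import Pool.Agent.Q194.AP.Stmts2

set_option autoImplicit false
set_option maxSynthPendingDepth 3

open MeasureTheory Set Filter Topology Q194.AP
open scoped ENNReal

noncomputable section

namespace Q194.AP.DecG

variable {Ω : Type} [TopologicalSpace Ω] [CompactSpace Ω] [T2Space Ω] [TotallyDisconnectedSpace Ω]
  [SecondCountableTopology Ω] [MeasurableSpace Ω] [BorelSpace Ω] {m : Measure Ω} [IsProbabilityMeasure m]

def PS (H : ℕ → C(Ω, ℝ)) (f : Lp ℝ 1 m) (j : ℕ) (σ : ℝ) : Set Ω :=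
  {x | 0 < σ * ((f : Ω → ℝ) x * H j x)}

theorem PS_meas (H : ℕ → C(Ω, ℝ)) (f : Lp ℝ 1 m) (j : ℕ) (σ : ℝ) : MeasurableSet (PS H f j σ) :=
  measurableSet_lt measurable_const
    (measurable_const.mul ((Lp.stronglyMeasurable f).measurable.mul (H j).continuous.measurable))

def pc (H : ℕ → C(Ω, ℝ)) (f : Lp ℝ 1 m) (j : ℕ) (σ : ℝ) : Lp ℝ 1 m :=
  ((Lp.memLp f).indicator (PS_meas H f j σ)).toLp _

theorem pc_ae (H : ℕ → C(Ω, ℝ)) (f : Lp ℝ 1 m) (j : ℕ) (σ : ℝ) :
    (pc H f j σ : Ω → ℝ) =ᵐ[m] (PS H f j σ).indicator (f : Ω → ℝ) := MemLp.coeFn_toLp _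

theorem pc_norm (H : ℕ → C(Ω, ℝ)) (f : Lp ℝ 1 m) (j : ℕ) (σ : ℝ) :
    ‖pc H f j σ‖ = ∫ x, |(PS H f j σ).indicator (f : Ω → ℝ) x| ∂m := by
  rw [L1.norm_eq_integral_norm]
  apply integral_congr_ae
  filter_upwards [pc_ae H f j σ] with x hx
  rw [hx, Real.norm_eq_abs]

theorem piece (H : ℕ → C(Ω, ℝ)) (hval : ∀ j x, H j x = 0 ∨ H j x = 1 ∨ H j x = -1) (f : Lp ℝ 1 m) (j : ℕ)
    (σ : ℝ) (hσ : |σ| = 1) (a d : ℝ) (hd : 0 < d) (ha : |a| * ‖pc H f j σ‖ = d) :
    ‖a • pc H f j σ‖ ≤ d ∧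
    (∀ᵐ x ∂m, H j x = 0 → ((a • pc H f j σ : Lp ℝ 1 m) : Ω → ℝ) x = 0) ∧
    |∫ x, H j x * ((a • pc H f j σ : Lp ℝ 1 m) : Ω → ℝ) x ∂m| = d := by
  have hG : ((a • pc H f j σ : Lp ℝ 1 m) : Ω → ℝ) =ᵐ[m] fun x => a * (PS H f j σ).indicator (f : Ω → ℝ) x := by
    filter_upwards [Lp.coeFn_smul a (pc H f j σ), pc_ae H f j σ] with x h1 h2
    rw [h1, Pi.smul_apply, h2, smul_eq_mul]
  refine ⟨?_, ?_, ?_⟩
  · rw [norm_smul, Real.norm_eq_abs, ha]
  · filter_upwards [hG] with x h1 h2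
    rw [h1, indicator_of_notMem, mul_zero]
    intro hx
    have hx' : 0 < σ * ((f : Ω → ℝ) x * H j x) := hx
    rw [h2] at hx'
    simp at hx'
  · have e : ∫ x, H j x * ((a • pc H f j σ : Lp ℝ 1 m) : Ω → ℝ) x ∂m =
        ∫ x, a * σ * |(PS H f j σ).indicator (f : Ω → ℝ) x| ∂m := by
      apply integral_congr_ae
      filter_upwards [hG] with x h1
      rw [h1]
      by_cases hx : x ∈ PS H f j σ
      · rw [indicator_of_mem hx]
        have hx' : 0 < σ * ((f : Ω → ℝ) x * H j x) := hx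
        have hσ2 : σ * σ = 1 := by rw [← abs_mul_abs_self, hσ]; norm_num
        have hh : |H j x| = 1 := by
          rcases hval j x with h | h | h
          · rw [h] at hx'; simp at hx'
          · rw [h]; norm_num
          · rw [h]; norm_num
        have h5 : σ * ((f : Ω → ℝ) x * H j x) = |(f : Ω → ℝ) x| := by
          rw [← abs_of_pos hx', abs_mul, abs_mul, hσ, hh]; ring
        have h6 : (f : Ω → ℝ) x * H j x = σ * |(f : Ω → ℝ) x| := by
          rw [← h5, ← mul_assoc, hσ2, one_mul]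
        calc H j x * (a * (f : Ω → ℝ) x) = a * ((f : Ω → ℝ) x * H j x) := by ring
          _ = a * σ * |(f : Ω → ℝ) x| := by rw [h6]; ring
      · rw [indicator_of_notMem hx]; simp
    rw [e, integral_const_mul, ← pc_norm, abs_mul, abs_mul, hσ, mul_one, abs_of_nonneg (norm_nonneg _), ha]

theorem two_abs (H : ℕ → C(Ω, ℝ)) (f : Lp ℝ 1 m) (j : ℕ) (x : Ω) :
    |(PS H f j 1).indicator (f : Ω → ℝ) x| + |(PS H f j (-1)).indicator (f : Ω → ℝ) x| =
      if H j x ≠ 0 then |(f : Ω → ℝ) x| else 0 := by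
  rcases lt_trichotomy ((f : Ω → ℝ) x * H j x) 0 with h | h | h
  · have h1 : x ∉ PS H f j 1 := fun hx => by
      have : 0 < (1 : ℝ) * ((f : Ω → ℝ) x * H j x) := hx
      linarith
    have h2 : x ∈ PS H f j (-1) := by
      show 0 < (-1 : ℝ) * ((f : Ω → ℝ) x * H j x)
      linarith
    have h3 : H j x ≠ 0 := fun h0 => by rw [h0] at h; simp at h
    rw [indicator_of_notMem h1, indicator_of_mem h2, if_pos h3]; simp
  · have h1 : x ∉ PS H f j 1 := fun hx => by
      have : 0 < (1 : ℝ) * ((f : Ω → ℝ) x * H j x) := hx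
      linarith
    have h2 : x ∉ PS H f j (-1) := fun hx => by
      have : 0 < (-1 : ℝ) * ((f : Ω → ℝ) x * H j x) := hx
      linarith
    rw [indicator_of_notMem h1, indicator_of_notMem h2]
    split_ifs with h3
    · rcases mul_eq_zero.1 h with h4 | h4
      · rw [h4]; simp
      · exact absurd h4 h3
    · simp
  · have h1 : x ∈ PS H f j 1 := by
      show 0 < (1 : ℝ) * ((f : Ω → ℝ) x * H j x)
      linarith
    have h2 : x ∉ PS H f j (-1) := fun hx => by
      have : 0 < (-1 : ℝ) * ((f : Ω → ℝ) x * H j x) := hx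
      linarith
    have h3 : H j x ≠ 0 := fun h0 => by rw [h0] at h; simp at h
    rw [indicator_of_mem h1, indicator_of_notMem h2, if_pos h3]; simp

theorem two_val (H : ℕ → C(Ω, ℝ)) (f : Lp ℝ 1 m) (j : ℕ) (x : Ω) :
    (PS H f j 1).indicator (f : Ω → ℝ) x + (PS H f j (-1)).indicator (f : Ω → ℝ) x =
      if H j x ≠ 0 then (f : Ω → ℝ) x else 0 := by
  rcases lt_trichotomy ((f : Ω → ℝ) x * H j x) 0 with h | h | h
  · have h1 : x ∉ PS H f j 1 := fun hx => by
      have : 0 < (1 : ℝ) * ((f : Ω → ℝ) x * H j x) := hx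
      linarith
    have h2 : x ∈ PS H f j (-1) := by
      show 0 < (-1 : ℝ) * ((f : Ω → ℝ) x * H j x)
      linarith
    have h3 : H j x ≠ 0 := fun h0 => by rw [h0] at h; simp at h
    rw [indicator_of_notMem h1, indicator_of_mem h2, if_pos h3]; simp
  · have h1 : x ∉ PS H f j 1 := fun hx => by
      have : 0 < (1 : ℝ) * ((f : Ω → ℝ) x * H j x) := hx
      linarith
    have h2 : x ∉ PS H f j (-1) := fun hx => by
      have : 0 < (-1 : ℝ) * ((f : Ω → ℝ) x * H j x) := hx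
      linarith
    rw [indicator_of_notMem h1, indicator_of_notMem h2]
    split_ifs with h3
    · rcases mul_eq_zero.1 h with h4 | h4
      · rw [h4]; simp
      · exact absurd h4 h3
    · simp
  · have h1 : x ∈ PS H f j 1 := by
      show 0 < (1 : ℝ) * ((f : Ω → ℝ) x * H j x)
      linarith
    have h2 : x ∉ PS H f j (-1) := fun hx => by
      have : 0 < (-1 : ℝ) * ((f : Ω → ℝ) x * H j x) := hx
      linarith
    have h3 : H j x ≠ 0 := fun h0 => by rw [h0] at h; simp at h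
    rw [indicator_of_mem h1, indicator_of_notMem h2, if_pos h3]; simp

open Classical in
theorem sum_v (H : ℕ → C(Ω, ℝ)) (hdisj : ∀ i j x, i ≠ j → H i x = 0 ∨ H j x = 0) (x : Ω) (v : ℝ) (J : ℕ) :
    ∑ j ∈ Finset.range J, (if H j x ≠ 0 then v else 0) = if ∃ j < J, H j x ≠ 0 then v else 0 := by
  induction J with
  | zero => simp
  | succ J ih =>
    rw [Finset.sum_range_succ, ih]
    by_cases h1 : ∃ j < J, H j x ≠ 0
    · obtain ⟨j, hj, hj2⟩ := h1
      have h2 : H J x = 0 := by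
        rcases hdisj j J x (by omega) with h | h
        · exact absurd h hj2
        · exact h
      rw [if_pos ⟨j, hj, hj2⟩, if_neg (by simp [h2]), if_pos ⟨j, by omega, hj2⟩, add_zero]
    · rw [if_neg h1]
      by_cases h2 : H J x ≠ 0
      · rw [if_pos h2, if_pos ⟨J, by omega, h2⟩, zero_add]
      · rw [if_neg h2, if_neg, add_zero]
        rintro ⟨j, hj, hj2⟩
        rcases Nat.lt_succ_iff_lt_or_eq.1 hj with h | h
        · exact h1 ⟨j, h, hj2⟩
        · exact h2 (h ▸ hj2)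

open Classical in
theorem sum_ae (H : ℕ → C(Ω, ℝ)) (hdisj : ∀ i j x, i ≠ j → H i x = 0 ∨ H j x = 0) (f : Lp ℝ 1 m) (J : ℕ) :
    ((∑ j ∈ Finset.range J, (pc H f j 1 + pc H f j (-1)) : Lp ℝ 1 m) : Ω → ℝ) =ᵐ[m]
      fun x => if ∃ j < J, H j x ≠ 0 then (f : Ω → ℝ) x else 0 := by
  have key : ((∑ j ∈ Finset.range J, (pc H f j 1 + pc H f j (-1)) : Lp ℝ 1 m) : Ω → ℝ) =ᵐ[m]
      fun x => ∑ j ∈ Finset.range J, (if H j x ≠ 0 then (f : Ω → ℝ) x else 0) := by
    induction J with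
    | zero =>
      simp only [Finset.range_zero, Finset.sum_empty]
      exact Lp.coeFn_zero _ _ _
    | succ J ih =>
      rw [Finset.sum_range_succ]
      filter_upwards [ih, Lp.coeFn_add (∑ j ∈ Finset.range J, (pc H f j 1 + pc H f j (-1)))
        (pc H f J 1 + pc H f J (-1)), Lp.coeFn_add (pc H f J 1) (pc H f J (-1)), pc_ae H f J 1,
        pc_ae H f J (-1)] with x h1 h2 h3 h4 h5
      rw [h2, Pi.add_apply, h1, h3, Pi.add_apply, h4, h5, two_val, Finset.sum_range_succ]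
  filter_upwards [key] with x hx
  rw [hx, sum_v H hdisj]

theorem norm_sum (H : ℕ → C(Ω, ℝ)) (hdisj : ∀ i j x, i ≠ j → H i x = 0 ∨ H j x = 0) (f : Lp ℝ 1 m) (J : ℕ) :
    ∑ j ∈ Finset.range J, (‖pc H f j 1‖ + ‖pc H f j (-1)‖) ≤ ‖f‖ := by
  classical
  have hi : ∀ (j : ℕ) (σ : ℝ), Integrable (fun x => |(PS H f j σ).indicator (f : Ω → ℝ) x|) m := fun j σ =>
    ((L1.integrable_coeFn f).indicator (PS_meas H f j σ)).abs
  have hi2 : ∀ j : ℕ, Integrable (fun x => |(PS H f j 1).indicator (f : Ω → ℝ) x| +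
      |(PS H f j (-1)).indicator (f : Ω → ℝ) x|) m := fun j => (hi j 1).add (hi j (-1))
  have e : ∑ j ∈ Finset.range J, (‖pc H f j 1‖ + ‖pc H f j (-1)‖) =
      ∫ x, ∑ j ∈ Finset.range J, (|(PS H f j 1).indicator (f : Ω → ℝ) x| +
        |(PS H f j (-1)).indicator (f : Ω → ℝ) x|) ∂m := by
    rw [integral_finsetSum _ fun j _ => hi2 j]
    apply Finset.sum_congr rfl
    intro j _
    rw [pc_norm, pc_norm, integral_add (hi j 1) (hi j (-1))]
  rw [e, L1.norm_eq_integral_norm]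
  apply integral_mono (integrable_finsetSum _ fun j _ => hi2 j) (L1.integrable_coeFn f).norm
  intro x
  show ∑ j ∈ Finset.range J, (|(PS H f j 1).indicator (f : Ω → ℝ) x| +
        |(PS H f j (-1)).indicator (f : Ω → ℝ) x|) ≤ ‖(f : Ω → ℝ) x‖
  simp_rw [two_abs]
  rw [sum_v H hdisj, Real.norm_eq_abs]
  split_ifs
  · exact le_rfl
  · exact abs_nonneg _

theorem sum_tendsto (H : ℕ → C(Ω, ℝ)) (hdisj : ∀ i j x, i ≠ j → H i x = 0 ∨ H j x = 0)
    (hfull : ∀ᵐ x ∂m, ∃ j, H j x ≠ 0) (f : Lp ℝ 1 m) :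
    Tendsto (fun J : ℕ => ∑ j ∈ Finset.range J, (pc H f j 1 + pc H f j (-1))) atTop (𝓝 f) := by
  classical
  rw [tendsto_iff_norm_sub_tendsto_zero]
  have e : ∀ J : ℕ, ‖(∑ j ∈ Finset.range J, (pc H f j 1 + pc H f j (-1))) - f‖ =
      ∫ x, (if ∃ j < J, H j x ≠ 0 then 0 else |(f : Ω → ℝ) x|) ∂m := by
    intro J
    rw [L1.norm_eq_integral_norm]
    apply integral_congr_ae
    filter_upwards [sum_ae H hdisj f J, Lp.coeFn_sub (∑ j ∈ Finset.range J, (pc H f j 1 + pc H f j (-1))) f]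
      with x h1 h2
    rw [h2, Pi.sub_apply, h1, Real.norm_eq_abs]
    split_ifs <;> simp
  simp_rw [e]
  have h0 : ∫ _x : Ω, (0 : ℝ) ∂m = 0 := by simp
  suffices hs : Tendsto (fun J : ℕ => ∫ x, (if ∃ j < J, H j x ≠ 0 then 0 else |(f : Ω → ℝ) x|) ∂m) atTop
      (𝓝 (∫ _x : Ω, (0 : ℝ) ∂m)) by rwa [h0] at hs
  apply tendsto_integral_of_dominated_convergence (fun x => |(f : Ω → ℝ) x|)
  · intro J
    have hm : MeasurableSet {x : Ω | ∃ j < J, H j x ≠ 0} := by
      have : {x : Ω | ∃ j < J, H j x ≠ 0} = ⋃ j, ⋃ (_ : j < J), {x : Ω | H j x ≠ 0} := by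
        ext x; simp
      rw [this]
      exact MeasurableSet.iUnion fun j => MeasurableSet.iUnion fun _ =>
        ((H j).continuous.measurable (measurableSet_singleton 0)).compl
    exact (Measurable.ite hm measurable_const (Lp.stronglyMeasurable f).measurable.abs).aestronglyMeasurable
  · exact (L1.integrable_coeFn f).abs
  · intro J
    refine Eventually.of_forall fun x => ?_
    split_ifs <;> simp
  · filter_upwards [hfull] with x hx
    obtain ⟨j, hj⟩ := hx
    apply tendsto_const_nhds.congr'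
    filter_upwards [eventually_gt_atTop j] with J hJ
    rw [if_pos ⟨j, hJ, hj⟩]

theorem main (Ω : Type) [TopologicalSpace Ω] [CompactSpace Ω] [T2Space Ω] [TotallyDisconnectedSpace Ω]
    [SecondCountableTopology Ω] [MeasurableSpace Ω] [BorelSpace Ω] (m : Measure Ω) [IsProbabilityMeasure m] :
    TaskDecG Ω m := by
  intro H hval hdisj hfull ψ f c d hd hf1 hc
  by_cases hc0 : 0 ≤ c
  · have hcd : 0 ≤ c / d := div_nonneg hc0 hd.le
    obtain ⟨j, σ, hσ, h1⟩ : ∃ (j : ℕ) (σ : ℝ), |σ| = 1 ∧ c / d * ‖pc H f j σ‖ < ψ (pc H f j σ) := by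
      by_contra hcon
      push Not at hcon
      have hJ : ∀ J : ℕ, ψ (∑ j ∈ Finset.range J, (pc H f j 1 + pc H f j (-1))) ≤ c := by
        intro J
        rw [map_sum]
        have h2 : ∑ j ∈ Finset.range J, ψ (pc H f j 1 + pc H f j (-1)) ≤
            ∑ j ∈ Finset.range J, c / d * (‖pc H f j 1‖ + ‖pc H f j (-1)‖) :=
          Finset.sum_le_sum fun j _ => by
            rw [map_add]
            have a1 := hcon j 1 (by norm_num)
            have a2 := hcon j (-1) (by norm_num)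
            linarith
        rw [← Finset.mul_sum] at h2
        have h3 := norm_sum H hdisj f J
        have h4 := mul_le_mul_of_nonneg_left (h3.trans hf1) hcd
        rw [div_mul_cancel₀ _ hd.ne'] at h4
        linarith
      have h5 := le_of_tendsto ((ψ.continuous.tendsto f).comp (sum_tendsto H hdisj hfull f))
        (Eventually.of_forall hJ)
      linarith
    have hne : 0 < ‖pc H f j σ‖ := by
      by_contra h0
      have h2 : pc H f j σ = 0 := norm_le_zero_iff.1 (not_lt.1 h0)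
      rw [h2] at h1
      simp at h1
    have hpos : 0 < d / ‖pc H f j σ‖ := div_pos hd hne
    obtain ⟨p2, p3, p4⟩ := piece H hval f j σ hσ (d / ‖pc H f j σ‖) d hd (by
      rw [abs_of_pos hpos, div_mul_cancel₀ _ hne.ne'])
    refine ⟨j, _, p2, ?_, p3, p4⟩
    rw [map_smul, smul_eq_mul]
    have h2 := mul_lt_mul_of_pos_left h1 hpos
    have e : d / ‖pc H f j σ‖ * (c / d * ‖pc H f j σ‖) = c := by field_simp
    rw [e] at h2
    exact h2
  · rw [not_le] at hc0
    obtain ⟨j, hj⟩ : ∃ j, m {x | H j x ≠ 0} ≠ 0 := by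
      by_contra hcon
      push Not at hcon
      have h1 : ∀ᵐ x ∂m, ∀ j, H j x = 0 := ae_all_iff.2 fun j => by
        rw [ae_iff]; exact hcon j
      obtain ⟨x, h2, h3⟩ := (h1.and hfull).exists
      obtain ⟨j, hj⟩ := h3
      exact hj (h2 j)
    have hmem : MemLp (fun x => H j x) 1 m :=
      MemLp.of_bound (H j).continuous.measurable.aestronglyMeasurable 1 (Eventually.of_forall fun x => by
        rcases hval j x with h | h | h <;> rw [h] <;> norm_num)
    obtain ⟨f0, hf0'⟩ : ∃ f0 : Lp ℝ 1 m, f0 = hmem.toLp _ := ⟨_, rfl⟩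
    have hf0 : (f0 : Ω → ℝ) =ᵐ[m] fun x => H j x := by rw [hf0']; exact hmem.coeFn_toLp
    have hne : 0 < ‖pc H f0 j 1‖ := by
      by_contra h0
      have h2 : pc H f0 j 1 = 0 := norm_le_zero_iff.1 (not_lt.1 h0)
      apply hj
      have h3 := pc_ae H f0 j 1
      rw [h2] at h3
      have h4 : ∀ᵐ x ∂m, H j x = 0 := by
        filter_upwards [h3, hf0, Lp.coeFn_zero ℝ 1 m] with x a1 a2 a3
        by_contra h5
        have hx : x ∈ PS H f0 j 1 := by
          show 0 < (1 : ℝ) * ((f0 : Ω → ℝ) x * H j x)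
          rw [a2, one_mul]
          exact mul_self_pos.2 h5
        rw [indicator_of_mem hx, a2, a3] at a1
        exact h5 a1.symm
      rwa [ae_iff] at h4
    have hpos : 0 < d / ‖pc H f0 j 1‖ := div_pos hd hne
    obtain ⟨a, ha1, ha2⟩ : ∃ a : ℝ, |a| * ‖pc H f0 j 1‖ = d ∧ 0 ≤ a * ψ (pc H f0 j 1) := by
      rcases le_total 0 (ψ (pc H f0 j 1)) with h | h
      · exact ⟨d / ‖pc H f0 j 1‖, by
          rw [abs_of_pos hpos, div_mul_cancel₀ _ hne.ne'], mul_nonneg hpos.le h⟩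
      · exact ⟨-(d / ‖pc H f0 j 1‖), by
          rw [abs_neg, abs_of_pos hpos, div_mul_cancel₀ _ hne.ne'], by
          have := mul_nonpos_of_nonneg_of_nonpos hpos.le h
          linarith⟩
    obtain ⟨p2, p3, p4⟩ := piece H hval f0 j 1 (by norm_num) a d hd ha1
    refine ⟨j, _, p2, ?_, p3, p4⟩
    rw [map_smul, smul_eq_mul]
    linarith

end Q194.AP.DecG
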