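import Pool.Agent.Q194.AP.Stmts

set_option autoImplicit false
set_option maxSynthPendingDepth 3

open MeasureTheory Set Filter Topology Q194.AP
open scoped ENNReal

namespace Q194.AP.Disj

variable (Ω : Type) [TopologicalSpace Ω] [CompactSpace Ω] [T2Space Ω] [TotallyDisconnectedSpace Ω]
  [SecondCountableTopology Ω] [MeasurableSpace Ω] [BorelSpace Ω] (m : Measure Ω)
  [IsProbabilityMeasure m]

variable {Ω m} in
/-- the invariant hull of a clopen set -/
theorem hullInv (Y : Sys Ω m) (K : Set Ω) : ∀ n : ℕ, (∀ i < n, ∀ x, Y.θ i x ∈ K ↔ x ∈ K) →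
    ∀ C : Set Ω, IsClopen C → Disjoint C K → ∃ D : Set Ω, IsClopen D ∧ C ⊆ D ∧ Disjoint D K ∧
      ∀ i < n, ∀ x, Y.θ i x ∈ D ↔ x ∈ D := by
  intro n
  induction n with
  | zero => exact fun _ C hC hK => ⟨C, hC, Subset.rfl, hK, fun i hi => absurd hi (Nat.not_lt_zero i)⟩
  | succ n ih =>
    intro hK C hC hCK
    obtain ⟨D, hD, hCD, hDK, hinv⟩ := ih (fun i hi => hK i (hi.trans n.lt_succ_self)) C hC hCK
    refine ⟨D ∪ Y.θ n ⁻¹' D, hD.union (hD.preimage (Y.cont n)), hCD.trans subset_union_left,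
      ?_, fun i hi x => ?_⟩
    · rw [Set.disjoint_left] at hDK ⊢
      rintro x (hx | hx) hxK
      · exact hDK hx hxK
      · exact hDK hx ((hK n n.lt_succ_self x).2 hxK)
    · simp only [mem_union, mem_preimage]
      rcases Nat.lt_succ_iff_lt_or_eq.1 hi with h | h
      · rw [hinv i h, Y.comm n i, hinv i h]
      · subst h
        rw [Y.inv, or_comm]

theorem main : TaskDisj Ω m := by
  classical
  intro Y n K hK hm hinv
  have hch : ∀ x : Ω, ∃ D : Set Ω, IsClopen D ∧ Disjoint D K ∧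
      (∀ i < n + 1, ∀ y, Y.θ i y ∈ D ↔ y ∈ D) ∧ (x ∉ K → x ∈ D) := by
    intro x
    by_cases hx : x ∈ K
    · exact ⟨∅, isClopen_empty, Set.empty_disjoint _, fun i _ y => Iff.rfl, fun h => (h hx).elim⟩
    · obtain ⟨C, hC, hxC, hCK⟩ := compact_exists_isClopen_in_isOpen hK.isOpen_compl hx
      obtain ⟨D, hD, hCD, hDK, hDi⟩ := hullInv Y K (n + 1)
        (fun i hi => hinv i (Nat.lt_succ_iff.1 hi)) C hC (Set.disjoint_left.2 fun y hy => hCK hy)
      exact ⟨D, hD, hDK, hDi, fun _ => hCD hxC⟩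
  choose D hD hDK hDi hxD using hch
  obtain ⟨T, hT, hTU⟩ := TopologicalSpace.isOpen_iUnion_countable D fun x => (hD x).isOpen
  have hae : ∀ᵐ x ∂m, x ∉ K := measure_eq_zero_iff_ae_notMem.1 hm
  rcases T.eq_empty_or_nonempty with hTe | hTn
  · refine ⟨fun _ => ∅, fun _ => isClopen_empty, fun _ _ _ => Set.empty_disjoint _,
      fun _ => Set.empty_disjoint _, fun _ _ _ _ => Iff.rfl, ?_⟩
    filter_upwards [hae] with x hx
    have h1 : x ∈ ⋃ i, D i := mem_iUnion.2 ⟨x, hxD x hx⟩
    rw [← hTU, hTe] at h1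
    simp at h1
  · obtain ⟨f, hf⟩ := hT.exists_eq_range hTn
    refine ⟨fun j => D (f j) \ ⋃ i ∈ Finset.range j, D (f i), fun j => ?_, ?_, fun j => ?_,
      fun j i hi x => ?_, ?_⟩
    · exact (hD _).diff (isClopen_biUnion_finset fun i _ => hD _)
    · have key : ∀ i j, i < j → Disjoint (D (f i) \ ⋃ k ∈ Finset.range i, D (f k))
          (D (f j) \ ⋃ k ∈ Finset.range j, D (f k)) := by
        intro i j hij
        rw [Set.disjoint_left]
        rintro x ⟨hx, -⟩ ⟨-, hx2⟩
        exact hx2 (mem_biUnion (Finset.mem_coe.2 (Finset.mem_range.2 hij)) hx)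
      intro i j hij
      rcases lt_or_gt_of_ne hij with h | h
      · exact key i j h
      · exact (key j i h).symm
    · exact (hDK _).mono_left diff_subset
    · have h1 : ∀ k, Y.θ i x ∈ D (f k) ↔ x ∈ D (f k) := fun k => hDi _ i (Nat.lt_succ_of_le hi) x
      simp only [mem_diff, mem_iUnion, h1]
    · filter_upwards [hae] with x hx
      have h1 : x ∈ ⋃ i, D i := mem_iUnion.2 ⟨x, hxD x hx⟩
      rw [← hTU, hf] at h1
      have h2 : ∃ k, x ∈ D (f k) := by
        simp only [mem_iUnion, mem_range, exists_prop, exists_exists_eq_and] at h1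
        exact h1
      refine ⟨Nat.find h2, Nat.find_spec h2, ?_⟩
      simp only [mem_iUnion, Finset.mem_range, not_exists]
      exact fun k hk => Nat.find_min h2 hk

end Q194.AP.Disj
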