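import Pool.Agent.Q194.AP.Stmts2

set_option autoImplicit false
set_option maxSynthPendingDepth 3

open MeasureTheory Set Filter Topology
open scoped ENNReal

noncomputable section

namespace Q194.AP.ExtC

open Q194.AP

variable (Ω : Type) [TopologicalSpace Ω] [CompactSpace Ω] [T2Space Ω] [TotallyDisconnectedSpace Ω]
  [SecondCountableTopology Ω] [MeasurableSpace Ω] [BorelSpace Ω]

theorem main : TaskExtC Ω := by
  classical
  intro μ u c d hd hu hc
  set η : ℝ := (μ u - c) / (2 * (‖μ‖ + 1)) with hη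
  have hμ0 : 0 ≤ ‖μ‖ := norm_nonneg _
  have hη0 : 0 < η := by
    rw [hη]
    apply div_pos (by linarith) (by linarith)
  have hη1 : 2 * η * ‖μ‖ < μ u - c := by
    have h1 : 2 * η * (‖μ‖ + 1) = μ u - c := by
      rw [hη]; field_simp
    nlinarith
  have hS : {p : ℝ × ℝ | |p.1 - p.2| < η} ∈ nhdsSet (diagonal ℝ) := by
    have hop : IsOpen {p : ℝ × ℝ | |p.1 - p.2| < η} :=
      isOpen_lt (by fun_prop) continuous_const
    rw [hop.mem_nhdsSet]
    rintro ⟨a, b⟩ hab
    have : a = b := hab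
    simpa [this] using hη0
  obtain ⟨n, g, h0, hg, hgh⟩ :=
    ContinuousMap.exists_finite_approximation_of_mem_nhds_diagonal u hS
  have hgc : ∀ a : Fin n → ℝ, Continuous fun x => a (g x) := fun a =>
    (continuous_of_discreteTopology (f := a)).comp hg
  let S : (Fin n → ℝ) → C(Ω, ℝ) := fun a => ⟨fun x => a (g x), hgc a⟩
  let e : Fin n → C(Ω, ℝ) := fun i => S (fun j => if j = i then 1 else 0)
  have hsum : ∀ a : Fin n → ℝ, S a = ∑ i, a i • e i := by
    intro a
    ext x
    rw [ContinuousMap.sum_apply]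
    simp only [ContinuousMap.smul_apply, smul_eq_mul]
    show a (g x) = ∑ i, a i * (if g x = i then 1 else 0)
    simp
  have hμS : ∀ a : Fin n → ℝ, μ (S a) = ∑ i, a i * μ (e i) := by
    intro a
    rw [hsum, map_sum]
    simp only [map_smul, smul_eq_mul]
  set M : ℝ := ∑ i, |μ (e i)| with hM
  let sg : Fin n → ℝ := fun i => if 0 ≤ μ (e i) then 1 else -1
  have hsg : ∀ i, sg i = 1 ∨ sg i = -1 := by
    intro i
    by_cases h : 0 ≤ μ (e i)
    · left; simp [sg, h]
    · right; simp [sg, h]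
  have hsgM : μ (S sg) = M := by
    rw [hμS, hM]
    refine Finset.sum_congr rfl fun i _ => ?_
    by_cases h : 0 ≤ μ (e i)
    · simp only [sg, if_pos h, one_mul, abs_of_nonneg h]
    · simp only [sg, if_neg h]
      push Not at h
      rw [abs_of_neg h]; ring
  have hMle : M ≤ ‖μ‖ := by
    rw [← hsgM]
    have h1 : ‖S sg‖ ≤ 1 := by
      rw [ContinuousMap.norm_le _ zero_le_one]
      intro x
      show ‖sg (g x)‖ ≤ 1
      rcases hsg (g x) with h | h <;> rw [h] <;> simp
    calc μ (S sg) ≤ ‖μ (S sg)‖ := Real.le_norm_self _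
      _ ≤ ‖μ‖ * ‖S sg‖ := μ.le_opNorm _
      _ ≤ ‖μ‖ * 1 := mul_le_mul_of_nonneg_left h1 hμ0
      _ = ‖μ‖ := mul_one _
  have hux : ∀ x, |u x| ≤ d := fun x => (u.norm_coe_le_norm x).trans hu
  have hw : μ (S h0) ≤ (d + η) * M := by
    rw [hμS, hM, Finset.mul_sum]
    refine Finset.sum_le_sum fun i _ => ?_
    by_cases hi : μ (e i) = 0
    · rw [hi]; simp
    · have hex : ∃ x, g x = i := by
        by_contra hne
        push Not at hne
        apply hi
        have : e i = 0 := by
          ext x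
          show (if g x = i then (1 : ℝ) else 0) = 0
          rw [if_neg (hne x)]
        rw [this, map_zero]
      obtain ⟨x, hx⟩ := hex
      have h1 : |u x - h0 (g x)| < η := hgh x
      have h2 : |h0 i| ≤ d + η := by
        have h3 := hux x
        rw [hx] at h1
        rw [abs_le] at h3 ⊢
        rw [abs_lt] at h1
        constructor <;> linarith
      calc h0 i * μ (e i) ≤ |h0 i * μ (e i)| := le_abs_self _
        _ = |h0 i| * |μ (e i)| := abs_mul _ _
        _ ≤ (d + η) * |μ (e i)| := mul_le_mul_of_nonneg_right h2 (abs_nonneg _)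
  have huw : μ u - μ (S h0) ≤ η * ‖μ‖ := by
    have h1 : ‖u - S h0‖ ≤ η := by
      rw [ContinuousMap.norm_le _ hη0.le]
      intro x
      exact (hgh x).le
    calc μ u - μ (S h0) = μ (u - S h0) := by rw [map_sub]
      _ ≤ ‖μ (u - S h0)‖ := Real.le_norm_self _
      _ ≤ ‖μ‖ * ‖u - S h0‖ := μ.le_opNorm _
      _ ≤ ‖μ‖ * η := mul_le_mul_of_nonneg_left h1 hμ0
      _ = η * ‖μ‖ := mul_comm _ _
  refine ⟨S sg, fun x => hsg (g x), ?_⟩
  rw [map_smul, smul_eq_mul, hsgM]
  have h3 : η * M ≤ η * ‖μ‖ := mul_le_mul_of_nonneg_left hMle hη0.le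
  nlinarith

end Q194.AP.ExtC
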