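import Pool.Agent.Q194.AP.Stmts

/-! Proof of `TaskFam`. -/

set_option autoImplicit false
set_option maxSynthPendingDepth 3

open MeasureTheory Set Filter Topology
open scoped ENNReal

noncomputable section

namespace Q194.AP.Fam

open Q194.AP

variable (Ω : Type) [TopologicalSpace Ω] [CompactSpace Ω] [T2Space Ω] [TotallyDisconnectedSpace Ω]
  [SecondCountableTopology Ω] [MeasurableSpace Ω] [BorelSpace Ω] (m : Measure Ω) [IsProbabilityMeasure m]

omit [CompactSpace Ω] [T2Space Ω] [TotallyDisconnectedSpace Ω] [SecondCountableTopology Ω]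
  [MeasurableSpace Ω] [BorelSpace Ω] in
theorem ind_cont (G : Set Ω) (hG : IsClopen G) : Continuous (G.indicator fun _ => (1 : ℝ)) := by
  have h := (LocallyConstant.charFn ℝ hG).continuous
  rwa [LocallyConstant.coe_charFn] at h

omit [T2Space Ω] [TotallyDisconnectedSpace Ω] [IsProbabilityMeasure m] in
theorem int_mul (g : Ω → ℝ) (hg : Integrable g m) (v : C(Ω, ℝ)) :
    Integrable (fun x => g x * v x) m := by
  refine Integrable.mono' (hg.norm.mul_const ‖v‖) (hg.aestronglyMeasurable.mul
    v.continuous.aestronglyMeasurable) (Filter.Eventually.of_forall fun x => ?_)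
  rw [norm_mul]
  exact mul_le_mul_of_nonneg_left (v.norm_coe_le_norm x) (norm_nonneg _)

theorem geo (ε : ℝ) (J : ℕ) : ∑ j ∈ Finset.range J, ε / 2 ^ (j + 1) = ε - ε / 2 ^ J := by
  induction J with
  | zero => simp
  | succ J ih => rw [Finset.sum_range_succ, ih, pow_succ]; ring

theorem main (hRL : TaskRL Ω m) (hD : TaskDisj Ω m) : TaskFam Ω m := by
  intro Y n k g K ε hg hK hmK hinv hε
  obtain ⟨G, hGc, hGd, hGK, hGi, hGf⟩ := hD Y n K hK hmK hinv
  let I : ℕ → C(Ω, ℝ) := fun j => ⟨(G j).indicator fun _ => (1 : ℝ), ind_cont Ω (G j) (hGc j)⟩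
  have hI : ∀ j x, I j x = (G j).indicator (fun _ => (1 : ℝ)) x := fun j x => rfl
  let Rr : C(Ω, ℝ) := ∏ i ∈ Finset.range (n + 1), Y.r i
  have hR : ∀ x, Rr x = ∏ i ∈ Finset.range (n + 1), Y.r i x := by
    intro x
    exact ContinuousMap.prod_apply _ _ x
  have hRval : ∀ x, Rr x = 1 ∨ Rr x = -1 := by
    intro x
    rw [hR]
    induction (Finset.range (n + 1)) using Finset.induction_on with
    | empty => left; simp
    | insert a s ha ih =>
      rw [Finset.prod_insert ha]
      rcases Y.r_val a x with h1 | h1 <;> rcases ih with h2 | h2 <;> rw [h1, h2] <;> norm_num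
  have hRodd : ∀ i ≤ n, ∀ x, Rr (Y.θ i x) = -Rr x := by
    intro i hi x
    rw [hR, hR]
    have him : i ∈ Finset.range (n + 1) := Finset.mem_range.2 (by omega)
    rw [← Finset.mul_prod_erase _ _ him, ← Finset.mul_prod_erase _ _ him, Y.r_self]
    rw [Finset.prod_congr rfl (fun j hj => Y.r_ne i j x (Finset.ne_of_mem_erase hj).symm)]
    ring
  have hN : ∀ j, ∃ N, n < N ∧ ∀ i, |∫ x, g i x * (I j * Rr * Y.r N) x ∂m| ≤ ε / 2 ^ (j + 1) := by
    intro j
    have h1 : ∀ i, ∀ᶠ N in atTop, |∫ x, g i x * (I j * Rr * Y.r N) x ∂m| ≤ ε / 2 ^ (j + 1) := by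
      intro i
      have h2 := hRL Y (fun x => g i x * (I j * Rr) x) (int_mul Ω m (g i) (hg i) _)
      have h3 := h2.abs.eventually_lt_const (u := ε / 2 ^ (j + 1)) (by
        rw [abs_zero]; positivity)
      filter_upwards [h3] with N hN
      refine le_trans (le_of_eq ?_) hN.le
      congr 1
      refine integral_congr_ae (Filter.Eventually.of_forall fun x => ?_)
      show g i x * (I j x * Rr x * Y.r N x) = g i x * (I j x * Rr x) * Y.r N x
      ring
    obtain ⟨N, h4, h5⟩ := ((eventually_all.2 h1).and (eventually_gt_atTop n)).exists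
    exact ⟨N, h5, h4⟩
  choose N hNn hNb using hN
  let h : ℕ → C(Ω, ℝ) := fun j => I j * Rr * Y.r (N j)
  have hh : ∀ j x, h j x = (G j).indicator (fun _ => (1 : ℝ)) x * Rr x * Y.r (N j) x :=
    fun j x => rfl
  have hout : ∀ j x, x ∉ G j → h j x = 0 := by
    intro j x hx
    rw [hh, indicator_of_notMem hx, zero_mul, zero_mul]
  have hin : ∀ j x, x ∈ G j → h j x = 1 ∨ h j x = -1 := by
    intro j x hx
    rw [hh, indicator_of_mem hx]
    rcases hRval x with h1 | h1 <;> rcases Y.r_val (N j) x with h2 | h2 <;> rw [h1, h2] <;> norm_num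
  refine ⟨⟨n, h, ?_, ?_, ?_, ?_⟩, rfl, ?_, ?_⟩
  · intro j x
    by_cases hx : x ∈ G j
    · exact Or.inr (hin j x hx)
    · exact Or.inl (hout j x hx)
  · intro i j x hij
    by_cases hx : x ∈ G i
    · exact Or.inr (hout j x (Set.disjoint_left.1 (hGd i j hij) hx))
    · exact Or.inl (hout i x hx)
  · filter_upwards [hGf] with x hx
    obtain ⟨j, hj⟩ := hx
    refine ⟨j, ?_⟩
    rcases hin j x hj with h1 | h1 <;> rw [h1] <;> norm_num
  · intro j i x hi
    rw [hh, hh, hRodd i hi, Y.r_ne i (N j) x (by have := hNn j; omega)]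
    have h6 : (G j).indicator (fun _ => (1 : ℝ)) (Y.θ i x) = (G j).indicator (fun _ => (1 : ℝ)) x := by
      by_cases hx : x ∈ G j
      · rw [indicator_of_mem hx, indicator_of_mem ((hGi j i hi x).2 hx)]
      · rw [indicator_of_notMem hx, indicator_of_notMem (fun h => hx ((hGi j i hi x).1 h))]
    rw [h6]
    ring
  · intro j x hx
    exact hout j x (fun h => (Set.disjoint_left.1 (hGK j) h) hx)
  · rintro u ⟨J, a, ha, rfl⟩ i
    have e1 : ∫ x, g i x * (∑ j ∈ Finset.range J, a j • h j) x ∂m =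
        ∑ j ∈ Finset.range J, a j * ∫ x, g i x * h j x ∂m := by
      have e2 : ∀ x, g i x * (∑ j ∈ Finset.range J, a j • h j) x =
          ∑ j ∈ Finset.range J, a j * (g i x * h j x) := by
        intro x
        rw [ContinuousMap.sum_apply, Finset.mul_sum]
        refine Finset.sum_congr rfl fun j _ => ?_
        rw [ContinuousMap.smul_apply, smul_eq_mul]
        ring
      simp only [e2]
      rw [integral_finsetSum _ (fun j _ => (int_mul Ω m (g i) (hg i) (h j)).const_mul _)]
      exact Finset.sum_congr rfl fun j _ => integral_const_mul _ _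
    show |∫ x, g i x * (∑ j ∈ Finset.range J, a j • h j) x ∂m| ≤ ε
    rw [e1]
    refine (Finset.abs_sum_le_sum_abs _ _).trans ?_
    refine (Finset.sum_le_sum (g := fun j => ε / 2 ^ (j + 1)) fun j _ => ?_).trans ?_
    · rw [abs_mul]
      calc |a j| * |∫ x, g i x * h j x ∂m| ≤ 1 * (ε / 2 ^ (j + 1)) :=
            mul_le_mul (ha j) (hNb j i) (abs_nonneg _) zero_le_one
        _ = _ := one_mul _
    · rw [geo]
      have : 0 ≤ ε / 2 ^ J := by positivity
      linarith

end Q194.AP.Fam
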