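import Pool.Agent.Q194.AP.Stmts

set_option autoImplicit false
set_option maxSynthPendingDepth 3

noncomputable section

namespace Q194.AP.Fin

open Q194.AP

section defs

variable (X Y : Type) [NormedAddCommGroup X] [NormedSpace ℝ X] [NormedAddCommGroup Y] [NormedSpace ℝ Y]

/-- bounded bilinear forms on `X × Y` -/
def BF : Type := X →L[ℝ] Y →L[ℝ] ℝ

instance : NormedAddCommGroup (BF X Y) := (inferInstance : NormedAddCommGroup (X →L[ℝ] Y →L[ℝ] ℝ))
instance : NormedSpace ℝ (BF X Y) := (inferInstance : NormedSpace ℝ (X →L[ℝ] Y →L[ℝ] ℝ))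

/-- the dual of the space of bounded bilinear forms -/
def BD : Type := BF X Y →L[ℝ] ℝ

instance : NormedAddCommGroup (BD X Y) := (inferInstance : NormedAddCommGroup (BF X Y →L[ℝ] ℝ))
instance : NormedSpace ℝ (BD X Y) := (inferInstance : NormedSpace ℝ (BF X Y →L[ℝ] ℝ))

variable {X Y} in
/-- the value of the form `B` at `(x, y)` -/
def bval (B : BF X Y) (x : X) (y : Y) : ℝ := (show X →L[ℝ] Y →L[ℝ] ℝ from B) x y

variable {X Y} in
/-- `z = x ⊗ y`: `z` is the evaluation of forms at `(x, y)` -/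
def IsTens (z : BD X Y) (x : X) (y : Y) : Prop := ∀ B : BF X Y, (show BF X Y →L[ℝ] ℝ from z) B = bval B x y

/-- the projective tensor product: the closed span of the `x ⊗ y` in the dual of the bilinear forms -/
def PS : Submodule ℝ (BD X Y) := (Submodule.span ℝ {z | ∃ x y, IsTens z x y}).topologicalClosure

/-- the projective tensor product as a normed space -/
def PTS : Type := PS X Y

instance : NormedAddCommGroup (PTS X Y) := (inferInstance : NormedAddCommGroup (PS X Y))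
instance : NormedSpace ℝ (PTS X Y) := (inferInstance : NormedSpace ℝ (PS X Y))

variable {X Y} in
/-- `z = x ⊗ y` in the projective tensor product -/
def IsT (z : PTS X Y) (x : X) (y : Y) : Prop := IsTens (show PS X Y from z).1 x y

variable {X Y} in
/-- the closed convex hull of `C ⊗ D` -/
def hullT (C : Set X) (D : Set Y) : Set (PTS X Y) := closure (convexHull ℝ {z | ∃ x ∈ C, ∃ y ∈ D, IsT z x y})

end defs

variable {X : Type} [NormedAddCommGroup X] [NormedSpace ℝ X]

theorem isTens_iff (z : BD X X) (x y : X) : IsTens z x y ↔ z = (ev x y : Bil X X →L[ℝ] ℝ) := by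
  constructor
  · intro h
    refine ContinuousLinearMap.ext (f := (z : Bil X X →L[ℝ] ℝ)) (g := ev x y) fun B => ?_
    exact h B
  · rintro rfl B
    rfl

theorem key (C : Set X) (x0 : X) (h : ¬ APEP (hull C C) (tens x0 x0)) :
    ∀ P : Submodule ℝ (Bil X X →L[ℝ] ℝ), P = PT X X → ∃ z0 : P, z0.1 = ev x0 x0 ∧
      ¬ APEP (closure (convexHull ℝ {z : P | ∃ x ∈ C, ∃ y ∈ C, z.1 = ev x y})) z0 := by
  rintro P rfl
  refine ⟨tens x0 x0, rfl, ?_⟩
  have : {z : PT X X | ∃ x ∈ C, ∃ y ∈ C, z.1 = ev x y} = {z | ∃ x ∈ C, ∃ y ∈ C, z = tens x y} := by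
    ext z
    constructor
    · rintro ⟨x, hx, y, hy, hz⟩
      exact ⟨x, hx, y, hy, Subtype.ext hz⟩
    · rintro ⟨x, hx, y, hy, rfl⟩
      exact ⟨x, hx, y, hy, rfl⟩
  rw [this]
  exact h

theorem main (C : Set X) (x0 : X) (h : ¬ APEP (hull C C) (tens x0 x0)) :
    ∃ z0 : PTS X X, IsT z0 x0 x0 ∧ ¬ APEP (hullT C C) z0 := by
  have hP : (PS X X : Submodule ℝ (Bil X X →L[ℝ] ℝ)) = PT X X := by
    have : {z : BD X X | ∃ x y, IsTens z x y} = {z : Bil X X →L[ℝ] ℝ | ∃ x y, z = ev x y} := by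
      ext z
      constructor
      · rintro ⟨x, y, hz⟩
        exact ⟨x, y, (isTens_iff z x y).1 hz⟩
      · rintro ⟨x, y, hz⟩
        exact ⟨x, y, (isTens_iff z x y).2 hz⟩
    unfold PS PT
    rw [this]
    rfl
  obtain ⟨z0, h1, h2⟩ := key C x0 h (PS X X) hP
  refine ⟨z0, (isTens_iff z0.1 x0 x0).2 h1, ?_⟩
  intro h3
  apply h2
  have h4 : {z : PTS X X | ∃ x ∈ C, ∃ y ∈ C, IsT z x y} = {z : PS X X | ∃ x ∈ C, ∃ y ∈ C, z.1 = (ev x y : Bil X X →L[ℝ] ℝ)} := by
    ext z
    constructor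
    · rintro ⟨x, hx, y, hy, hz⟩
      exact ⟨x, hx, y, hy, (isTens_iff (show PS X X from z).1 x y).1 hz⟩
    · rintro ⟨x, hx, y, hy, hz⟩
      exact ⟨x, hx, y, hy, (isTens_iff (show PS X X from z).1 x y).2 hz⟩
  unfold hullT at h3
  rw [h4] at h3
  exact h3

end Q194.AP.Fin
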