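import Pool.Agent.Q194.AP.Stmts

/-! MP_3d49e4_an, blueprint of helper194: the functional `f ↦ ∫_E r_n f`. -/

set_option autoImplicit false
set_option maxSynthPendingDepth 3

open MeasureTheory Set Filter Topology
open scoped ENNReal

namespace Q194.AP.G

open Q194.AP

variable (Ω : Type) [TopologicalSpace Ω] [CompactSpace Ω] [T2Space Ω] [TotallyDisconnectedSpace Ω]
  [SecondCountableTopology Ω] [MeasurableSpace Ω] [BorelSpace Ω] (m : Measure Ω)
  [IsProbabilityMeasure m]

theorem main : TaskG Ω m := by
  intro Y n E hE hinv hE0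
  set w : Ω → ℝ := E.indicator (fun x => Y.r n x) with hw
  have hwm : Measurable w := ((Y.r n).continuous.measurable).indicator hE
  have hwb : ∀ x, |w x| ≤ 1 := by
    intro x
    rw [hw]
    by_cases hx : x ∈ E
    · rw [indicator_of_mem hx]
      rcases Y.r_val n x with h | h <;> rw [h] <;> simp
    · rw [indicator_of_notMem hx]; simp
  have hint : ∀ f : Lp ℝ 1 m, Integrable (fun x => (f : Ω → ℝ) x) m := fun f =>
    L1.integrable_coeFn f
  have hwint : ∀ f : Lp ℝ 1 m, Integrable (fun x => w x * (f : Ω → ℝ) x) m := fun f =>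
    (hint f).bdd_mul hwm.aestronglyMeasurable
      (Eventually.of_forall fun x => by rw [Real.norm_eq_abs]; exact hwb x)
  have hnorm : ∀ f : Lp ℝ 1 m, ‖f‖ = ∫ x, |(f : Ω → ℝ) x| ∂m := by
    intro f
    rw [L1.norm_eq_integral_norm]
    rfl
  have hbound : ∀ f : Lp ℝ 1 m, |∫ x, w x * (f : Ω → ℝ) x ∂m| ≤ ‖f‖ := by
    intro f
    rw [hnorm]
    refine (abs_integral_le_integral_abs).trans ?_
    refine integral_mono (hwint f).abs (hint f).abs fun x => ?_
    change |w x * (f : Ω → ℝ) x| ≤ |(f : Ω → ℝ) x|
    rw [abs_mul]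
    exact mul_le_of_le_one_left (abs_nonneg _) (hwb x)
  let γ0 : Lp ℝ 1 m →ₗ[ℝ] ℝ :=
    { toFun := fun f => ∫ x, w x * (f : Ω → ℝ) x ∂m
      map_add' := by
        intro f g
        rw [← integral_add (hwint f) (hwint g)]
        refine integral_congr_ae ?_
        filter_upwards [Lp.coeFn_add f g] with x hx
        rw [hx, Pi.add_apply]
        ring
      map_smul' := by
        intro c f
        rw [RingHom.id_apply, smul_eq_mul, ← integral_const_mul]
        refine integral_congr_ae ?_
        filter_upwards [Lp.coeFn_smul c f] with x hx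
        rw [hx, Pi.smul_apply, smul_eq_mul]
        ring }
  have hγ0 : ∀ f : Lp ℝ 1 m, ‖γ0 f‖ ≤ 1 * ‖f‖ := by
    intro f
    rw [one_mul]
    exact hbound f
  refine ⟨γ0.mkContinuous 1 hγ0, fun f => hbound f, fun f hf => ?_, ?_⟩
  · refine ⟨((hint f).indicator hE).toL1 _, Integrable.coeFn_toL1 _, ?_⟩
    set f1 : Lp ℝ 1 m := ((hint f).indicator hE).toL1 _ with hf1
    have hf1ae : (f1 : Ω → ℝ) =ᵐ[m] E.indicator (fun x => (f : Ω → ℝ) x) :=
      Integrable.coeFn_toL1 _
    have h1 : ‖f - f1‖ + ∫ x, w x * (f : Ω → ℝ) x ∂m ≤ ‖f‖ := by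
      rw [hnorm, hnorm, ← integral_add (hint (f - f1)).abs (hwint f)]
      refine integral_mono_ae ((hint (f - f1)).abs.add (hwint f)) (hint f).abs ?_
      filter_upwards [Lp.coeFn_sub f f1, hf1ae] with x hx1 hx2
      change |((f - f1 : Lp ℝ 1 m) : Ω → ℝ) x| + w x * (f : Ω → ℝ) x ≤ |(f : Ω → ℝ) x|
      rw [hx1, Pi.sub_apply, hx2]
      by_cases hx : x ∈ E
      · rw [indicator_of_mem hx, sub_self, abs_zero, zero_add]
        refine (le_abs_self _).trans ?_
        rw [abs_mul]
        exact mul_le_of_le_one_left (abs_nonneg _) (hwb x)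
      · rw [indicator_of_notMem hx, sub_zero, hw, indicator_of_notMem hx, zero_mul, add_zero]
    have h2 : (γ0.mkContinuous 1 hγ0) f = ∫ x, w x * (f : Ω → ℝ) x ∂m := rfl
    rw [h2]
    linarith
  · have hpos : 0 < m.real E := ENNReal.toReal_pos hE0 (measure_ne_top m E)
    set b : Ω → ℝ := fun x => w x / m.real E with hb
    have hwi : Integrable w m := by
      refine (integrable_const (1 : ℝ)).mono' hwm.aestronglyMeasurable
        (Eventually.of_forall fun x => ?_)
      rw [Real.norm_eq_abs]; exact hwb x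
    have hbi : Integrable b m := hwi.div_const _
    have hbae : ((hbi.toL1 b : Lp ℝ 1 m) : Ω → ℝ) =ᵐ[m] b := Integrable.coeFn_toL1 _
    have hww : ∀ x, w x * w x = E.indicator (1 : Ω → ℝ) x := by
      intro x
      rw [hw]
      by_cases hx : x ∈ E
      · rw [indicator_of_mem hx, indicator_of_mem hx]
        rcases Y.r_val n x with h | h <;> rw [h] <;> simp
      · rw [indicator_of_notMem hx, indicator_of_notMem hx, zero_mul]
    have habs : ∀ x, |w x| = E.indicator (1 : Ω → ℝ) x := by
      intro x
      rw [hw]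
      by_cases hx : x ∈ E
      · rw [indicator_of_mem hx, indicator_of_mem hx]
        rcases Y.r_val n x with h | h <;> rw [h] <;> simp
      · rw [indicator_of_notMem hx, indicator_of_notMem hx, abs_zero]
    have hodd : ∀ x, b (Y.θ n x) = - b x := by
      intro x
      rw [hb]
      change w (Y.θ n x) / m.real E = -(w x / m.real E)
      have : w (Y.θ n x) = - w x := by
        rw [hw]
        by_cases hx : x ∈ E
        · rw [indicator_of_mem hx, indicator_of_mem ((hinv x).2 hx), Y.r_self]
        · rw [indicator_of_notMem hx, indicator_of_notMem fun h => hx ((hinv x).1 h), neg_zero]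
      rw [this, neg_div]
    refine ⟨hbi.toL1 b, ?_, ?_, ?_⟩
    · have hcomp := (Y.mp n).quasiMeasurePreserving.ae_eq_comp hbae
      filter_upwards [hbae, hcomp] with x hx1 hx2
      rw [hx1]
      exact hx2.trans (hodd x)
    · rw [hnorm]
      have : ∫ x, |((hbi.toL1 b : Lp ℝ 1 m) : Ω → ℝ) x| ∂m
          = ∫ x, E.indicator (1 : Ω → ℝ) x / m.real E ∂m := by
        refine integral_congr_ae ?_
        filter_upwards [hbae] with x hx
        rw [hx, hb]
        change |w x / m.real E| = _
        rw [abs_div, habs, abs_of_pos hpos]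
      rw [this, integral_div, integral_indicator_one hE, div_self hpos.ne']
    · change ∫ x, w x * ((hbi.toL1 b : Lp ℝ 1 m) : Ω → ℝ) x ∂m = 1
      have : ∫ x, w x * ((hbi.toL1 b : Lp ℝ 1 m) : Ω → ℝ) x ∂m
          = ∫ x, E.indicator (1 : Ω → ℝ) x / m.real E ∂m := by
        refine integral_congr_ae ?_
        filter_upwards [hbae] with x hx
        rw [hx, hb]
        change w x * (w x / m.real E) = _
        rw [← mul_div_assoc, hww]
      rw [this, integral_div, integral_indicator_one hE, div_self hpos.ne']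

end Q194.AP.G
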