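import Pool.Agent.Q194.AP.Stmts

set_option autoImplicit false
set_option maxSynthPendingDepth 3

open MeasureTheory Set Filter Topology
open scoped ENNReal
open Q194.AP

namespace Q194.AP.HH

variable (Ω : Type) [TopologicalSpace Ω] [CompactSpace Ω] [T2Space Ω] [TotallyDisconnectedSpace Ω]
  [SecondCountableTopology Ω] [MeasurableSpace Ω] [BorelSpace Ω] (m : Measure Ω) [IsProbabilityMeasure m]

variable {Ω m} in
theorem rep {Y : Sys Ω m} {α : Dat Y} {u : C(Ω, ℝ)} (hu : u ∈ Q194.AP.HH α) (j : ℕ) :
    ∃ (J : ℕ) (c : ℕ → ℝ), j < J ∧ (∀ i, |c i| ≤ 1) ∧ u = ∑ i ∈ Finset.range J, c i • α.h i := by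
  obtain ⟨J, a, ha, rfl⟩ := hu
  refine ⟨max J (j + 1), fun i => if i < J then a i else 0,
    lt_of_lt_of_le (Nat.lt_succ_self j) (le_max_right _ _), ?_, ?_⟩
  · intro i
    by_cases h : i < J
    · simp only [h, if_true]
      exact ha i
    · simp only [h, if_false, abs_zero]
      exact zero_le_one
  · symm
    calc ∑ i ∈ Finset.range (max J (j + 1)), (if i < J then a i else 0) • α.h i
        = ∑ i ∈ Finset.range J, (if i < J then a i else 0) • α.h i := by
          refine (Finset.sum_subset (Finset.range_mono (le_max_left J (j + 1))) ?_).symm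
          intro i _ hi
          rw [if_neg (fun h => hi (Finset.mem_range.2 h)), zero_smul]
      _ = ∑ i ∈ Finset.range J, a i • α.h i :=
          Finset.sum_congr rfl fun i hi => by rw [if_pos (Finset.mem_range.1 hi)]

variable {Ω m} in
theorem eval {Y : Sys Ω m} (α : Dat Y) (c : ℕ → ℝ) (J j : ℕ) (hj : j < J) (x : Ω)
    (hx : α.h j x ≠ 0) : (∑ i ∈ Finset.range J, c i • α.h i) x = c j * α.h j x := by
  rw [ContinuousMap.sum_apply, Finset.sum_eq_single j]
  · simp
  · intro i _ hij
    have := (α.disj i j x hij).resolve_right hx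
    simp [this]
  · intro h
    exact absurd (Finset.mem_range.2 hj) h

theorem main : TaskHH Ω m := by
  intro Y α u hu
  have hab : ∀ x, |u x| ≤ 1 := by
    intro x
    by_cases hx : ∃ j, α.h j x ≠ 0
    · obtain ⟨j, hj⟩ := hx
      obtain ⟨J, c, hjJ, hc, hue⟩ := rep hu j
      rw [hue, eval α c J j hjJ x hj, abs_mul]
      have h1 : |α.h j x| ≤ 1 := by
        rcases α.val j x with h | h | h <;> rw [h] <;> norm_num
      calc |c j| * |α.h j x| ≤ 1 * 1 := mul_le_mul (hc j) h1 (abs_nonneg _) zero_le_one
        _ = 1 := one_mul 1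
    · have hx' : ∀ j, α.h j x = 0 := fun j => by
        by_contra h
        exact hx ⟨j, h⟩
      obtain ⟨J, a, _, hue⟩ := hu
      rw [hue, ContinuousMap.sum_apply, Finset.sum_eq_zero]
      · simp
      · intro i _
        simp [hx' i]
  refine ⟨?_, hab, ?_, ?_, ?_⟩
  · rw [ContinuousMap.norm_le _ zero_le_one]
    intro x
    rw [Real.norm_eq_abs]
    exact hab x
  · obtain ⟨J, a, ha, hue⟩ := hu
    refine ⟨J, fun i => -a i, fun i => by rw [abs_neg]; exact ha i, ?_⟩
    rw [hue, ← Finset.sum_neg_distrib]
    exact Finset.sum_congr rfl fun i _ => by rw [neg_smul]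
  · intro j
    obtain ⟨J, c, hjJ, hc, hue⟩ := rep hu j
    refine ⟨c j, hc j, fun x hx => by rw [hue]; exact eval α c J j hjJ x hx, ?_⟩
    intro b hb
    refine ⟨J, Function.update c j b, ?_, ?_⟩
    · intro i
      by_cases h : i = j
      · subst h
        rw [Function.update_self]
        exact hb
      · rw [Function.update_of_ne h]
        exact hc i
    · rw [hue, ← Finset.add_sum_erase _ _ (Finset.mem_range.2 hjJ),
        ← Finset.add_sum_erase _ (fun i => Function.update c j b i • α.h i) (Finset.mem_range.2 hjJ)]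
      rw [Function.update_self]
      have e : ∑ i ∈ (Finset.range J).erase j, Function.update c j b i • α.h i =
          ∑ i ∈ (Finset.range J).erase j, c i • α.h i :=
        Finset.sum_congr rfl fun i hi => by
          rw [Function.update_of_ne (Finset.ne_of_mem_erase hi)]
      rw [e, sub_smul]
      abel
  · exact ⟨0, fun _ => 0, fun _ => by simp, by simp⟩

end Q194.AP.HH
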