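import Pool.Agent.Q194.AP.Stmts

/-!
# Jordan decomposition of a bounded functional (helper57)
-/

set_option autoImplicit false
set_option maxSynthPendingDepth 3

open Set

noncomputable section

namespace Q194.AP.Jordan

open Q194.AP

variable {Ω : Type} [TopologicalSpace Ω] [CompactSpace Ω] (μ : C(Ω, ℝ) →L[ℝ] ℝ)

def S (u : C(Ω, ℝ)) : Set ℝ := {r | ∃ v : C(Ω, ℝ), 0 ≤ v ∧ v ≤ u ∧ r = μ v}

theorem bdd (u : C(Ω, ℝ)) : BddAbove (S μ u) := by
  refine ⟨‖μ‖ * ‖u‖, ?_⟩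
  rintro _ ⟨v, hv, hvu, rfl⟩
  refine (le_abs_self _).trans ((μ.le_opNorm v).trans ?_)
  refine mul_le_mul_of_nonneg_left ?_ (norm_nonneg _)
  rw [ContinuousMap.norm_le _ (norm_nonneg _)]
  intro x
  have h1 : 0 ≤ v x := hv x
  have h2 : v x ≤ u x := hvu x
  rw [Real.norm_eq_abs, abs_of_nonneg h1]
  exact h2.trans ((le_abs_self _).trans (u.norm_coe_le_norm x))

def P (u : C(Ω, ℝ)) : ℝ := sSup (S μ u)

theorem le_P {u v : C(Ω, ℝ)} (hv : 0 ≤ v) (hvu : v ≤ u) : μ v ≤ P μ u :=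
  le_csSup (bdd μ u) ⟨v, hv, hvu, rfl⟩

theorem P_le {u : C(Ω, ℝ)} (hu : 0 ≤ u) {c : ℝ} (h : ∀ v : C(Ω, ℝ), 0 ≤ v → v ≤ u → μ v ≤ c) :
    P μ u ≤ c := by
  refine csSup_le ⟨μ 0, 0, le_rfl, hu, rfl⟩ ?_
  rintro _ ⟨v, hv, hvu, rfl⟩
  exact h v hv hvu

theorem P_zero : P μ 0 = 0 := by
  refine le_antisymm (P_le μ le_rfl fun v hv hv0 => ?_) ?_
  · have h1 : v = 0 := le_antisymm hv0 hv
    rw [h1, map_zero]
  · have h1 := le_P μ (le_refl (0 : C(Ω, ℝ))) le_rfl
    rwa [map_zero] at h1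

theorem P_add {u w : C(Ω, ℝ)} (hu : 0 ≤ u) (hw : 0 ≤ w) : P μ (u + w) = P μ u + P μ w := by
  refine le_antisymm (P_le μ (add_nonneg hu hw) fun v hv hvu => ?_) ?_
  · have h1 : μ v = μ (v ⊓ u) + μ (v - v ⊓ u) := by rw [← map_add, add_sub_cancel]
    rw [h1]
    refine add_le_add (le_P μ (le_inf hv hu) inf_le_right) (le_P μ (sub_nonneg.2 inf_le_left) ?_)
    intro x
    have h2 : v x ≤ u x + w x := hvu x
    have h3 : 0 ≤ w x := hw x
    change v x - min (v x) (u x) ≤ w x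
    rcases min_choice (v x) (u x) with h4 | h4 <;> rw [h4] <;> linarith
  · rw [← le_sub_iff_add_le]
    refine P_le μ hu fun v hv hvu => ?_
    rw [le_sub_comm]
    refine P_le μ hw fun v' hv' hvw => ?_
    rw [le_sub_iff_add_le, add_comm, ← map_add]
    exact le_P μ (add_nonneg hv hv') (add_le_add hvu hvw)

theorem P_smul {c : ℝ} (hc : 0 ≤ c) {u : C(Ω, ℝ)} (hu : 0 ≤ u) : P μ (c • u) = c * P μ u := by
  rcases hc.eq_or_lt with rfl | hc
  · rw [zero_smul, zero_mul, P_zero]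
  have hcu : 0 ≤ c • u := by
    intro x
    exact mul_nonneg hc.le (hu x)
  refine le_antisymm (P_le μ hcu fun v hv hvu => ?_) ?_
  · have h1 : v = c • (c⁻¹ • v) := by rw [smul_smul, mul_inv_cancel₀ hc.ne', one_smul]
    have h2 : μ v = c * μ (c⁻¹ • v) := by
      conv_lhs => rw [h1]
      rw [map_smul, smul_eq_mul]
    rw [h2]
    refine mul_le_mul_of_nonneg_left (le_P μ ?_ ?_) hc.le
    · intro x
      exact mul_nonneg (inv_nonneg.2 hc.le) (hv x)
    · intro x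
      have h3 : v x ≤ c * u x := hvu x
      change c⁻¹ * v x ≤ u x
      rw [inv_mul_le_iff₀ hc]
      exact h3
  · rw [← le_inv_mul_iff₀ hc]
    refine P_le μ hu fun v hv hvu => ?_
    rw [le_inv_mul_iff₀ hc, ← smul_eq_mul, ← map_smul]
    refine le_P μ ?_ ?_
    · intro x
      exact mul_nonneg hc.le (hv x)
    · intro x
      exact mul_le_mul_of_nonneg_left (hvu x) hc.le

theorem p_eq {u a b : C(Ω, ℝ)} (ha : 0 ≤ a) (hb : 0 ≤ b) (h : u = a - b) :
    P μ u⁺ - P μ u⁻ = P μ a - P μ b := by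
  have h1 : u⁺ + b = a + u⁻ := by
    have h2 := posPart_sub_negPart u
    have h3 : u⁺ = u + u⁻ := by rw [← sub_eq_iff_eq_add, h2]
    rw [h3, h]
    abel
  have h2 := congrArg (P μ) h1
  rw [P_add μ (posPart_nonneg u) hb, P_add μ ha (negPart_nonneg u)] at h2
  linarith

def pos : C(Ω, ℝ) →ₗ[ℝ] ℝ where
  toFun u := P μ u⁺ - P μ u⁻
  map_add' u w := by
    rw [p_eq μ (u := u + w) (a := u⁺ + w⁺) (b := u⁻ + w⁻)
      (add_nonneg (posPart_nonneg u) (posPart_nonneg w))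
      (add_nonneg (negPart_nonneg u) (negPart_nonneg w)),
      P_add μ (posPart_nonneg u) (posPart_nonneg w), P_add μ (negPart_nonneg u) (negPart_nonneg w)]
    · ring
    · conv_lhs => rw [← posPart_sub_negPart u, ← posPart_sub_negPart w]
      abel
  map_smul' c u := by
    have hnn : ∀ (d : ℝ), 0 ≤ d → ∀ v : C(Ω, ℝ), 0 ≤ v → 0 ≤ d • v := by
      intro d hd v hv x
      exact mul_nonneg hd (hv x)
    rw [RingHom.id_apply, smul_eq_mul]
    rcases le_total 0 c with hc | hc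
    · rw [p_eq μ (u := c • u) (a := c • u⁺) (b := c • u⁻) (hnn c hc _ (posPart_nonneg u))
        (hnn c hc _ (negPart_nonneg u)), P_smul μ hc (posPart_nonneg u),
        P_smul μ hc (negPart_nonneg u)]
      · ring
      · conv_lhs => rw [← posPart_sub_negPart u]
        rw [smul_sub]
    · have hc' : 0 ≤ -c := neg_nonneg.2 hc
      rw [p_eq μ (u := c • u) (a := (-c) • u⁻) (b := (-c) • u⁺) (hnn _ hc' _ (negPart_nonneg u))
        (hnn _ hc' _ (posPart_nonneg u)), P_smul μ hc' (posPart_nonneg u),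
        P_smul μ hc' (negPart_nonneg u)]
      · ring
      · conv_lhs => rw [← posPart_sub_negPart u]
        rw [smul_sub, neg_smul, neg_smul]
        abel

theorem pos_apply {u : C(Ω, ℝ)} (hu : 0 ≤ u) : pos μ u = P μ u := by
  change P μ u⁺ - P μ u⁻ = P μ u
  rw [p_eq μ (a := u) (b := 0) hu le_rfl (sub_zero u).symm, P_zero, sub_zero]

theorem main : TaskJordan := by
  intro Ω _ _ μ
  refine ⟨pos μ, pos μ - (μ : C(Ω, ℝ) →ₗ[ℝ] ℝ), ?_, ?_, ?_⟩
  · intro u hu
    have hu' : 0 ≤ u := fun x => hu x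
    rw [pos_apply μ hu']
    have h1 := le_P μ (le_refl (0 : C(Ω, ℝ))) hu'
    rwa [map_zero] at h1
  · intro u hu
    have hu' : 0 ≤ u := fun x => hu x
    rw [LinearMap.sub_apply, pos_apply μ hu']
    have h1 := le_P μ hu' le_rfl
    change 0 ≤ P μ u - μ u
    linarith
  · intro u
    rw [LinearMap.sub_apply]
    change μ u = pos μ u - (pos μ u - μ u)
    ring

end Q194.AP.Jordan
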