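import Pool.Agent.Q194.AP.Stmts

set_option autoImplicit false
set_option maxSynthPendingDepth 3

open MeasureTheory Set Filter Topology
open scoped ENNReal

noncomputable section

namespace Q194.AP.Key

open Q194.AP

variable (Ω : Type) [TopologicalSpace Ω] [CompactSpace Ω] [T2Space Ω] [TotallyDisconnectedSpace Ω]
  [SecondCountableTopology Ω] [MeasurableSpace Ω] [BorelSpace Ω] (m : Measure Ω) [IsProbabilityMeasure m]

theorem main (hHalf : TaskHalf Ω m) : TaskKey Ω m := by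
  intro Y B c ⟨p, hp, q, hq, hc⟩
  obtain ⟨α, f, t, u, s, h1, h2, h3, h4, h5, rfl⟩ := hp
  obtain ⟨β, g, t', v, s', k1, k2, k3, k4, k5, rfl⟩ := hq
  rcases le_total β.n α.n with h | h
  · obtain ⟨p, hp, q, hq, hpq, hi⟩ := hHalf Y B c α β f g t s t' s' u v h h1 h2 h3 h4 h5 k1 k2 k3 k4 k5 hc
    exact ⟨p, hp, q, hq, hpq, Or.inl hi⟩
  · obtain ⟨p, hp, q, hq, hpq, hi⟩ :=
      hHalf Y B.flip c β α g f t' s' t s v u h k1 k2 k3 k4 k5 h1 h2 h3 h4 h5 (by
        rw [ContinuousLinearMap.flip_apply]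
        exact hc)
    refine ⟨q, hq, p, hp, ?_, Or.inr hi⟩
    rw [ContinuousLinearMap.flip_apply] at hpq
    exact hpq

end Q194.AP.Key
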