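import Pool.Agent.Q194.AP.Stmts2

set_option autoImplicit false
set_option maxSynthPendingDepth 3

open MeasureTheory Set Filter Topology
open scoped ENNReal
open Q194.AP

namespace Q194.AP.KeyD

variable (Ω : Type) [TopologicalSpace Ω] [CompactSpace Ω] [T2Space Ω] [TotallyDisconnectedSpace Ω]
  [SecondCountableTopology Ω] [MeasurableSpace Ω] [BorelSpace Ω] (m : Measure Ω)
  [IsProbabilityMeasure m]

theorem main (hKey : TaskKey Ω m) (hBP : TaskBP Ω m) (hBB : TaskBB Ω m) : TaskKeyD Ω m := by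
  intro Y B c h
  obtain ⟨p, hp, q, hq, hc⟩ := h
  rcases hp with hp | hp
  · rcases hq with hq | hq
    · obtain ⟨p', hp', q', hq', hc', h1 | h1⟩ := hKey Y B c ⟨p, hp, q, hq, hc⟩
      · exact ⟨p', Or.inl hp', q', Or.inl hq', hc', Or.inl (by rw [h1]; norm_num)⟩
      · exact ⟨p', Or.inl hp', q', Or.inl hq', hc', Or.inr (by rw [h1]; norm_num)⟩
    · obtain ⟨p', q', hp', hq', hc', h1⟩ := hBP Y B.flip c q p hq hp (by simpa using hc)
      exact ⟨q', Or.inl hq', p', Or.inr hp', by simpa using hc', Or.inl (by rw [h1]; norm_num)⟩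
  · rcases hq with hq | hq
    · obtain ⟨p', q', hp', hq', hc', h1⟩ := hBP Y B c p q hp hq hc
      exact ⟨p', Or.inr hp', q', Or.inl hq', hc', Or.inr (by rw [h1]; norm_num)⟩
    · obtain ⟨p', q', hp', hq', hc', h1⟩ := hBB Y B c p q hp hq hc
      exact ⟨p', Or.inr hp', q', Or.inr hq', hc', Or.inl (by rw [h1])⟩

end Q194.AP.KeyD
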