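import Pool.Agent.Q194.AP.Stmts2

/-! The majorant functional, of norm at most one. -/

set_option autoImplicit false
set_option maxSynthPendingDepth 3

open MeasureTheory Set Filter Topology
open scoped ENNReal

noncomputable section

namespace Q194.AP.MajN

open Q194.AP

variable (Ω : Type) [TopologicalSpace Ω] [CompactSpace Ω] [T2Space Ω] [TotallyDisconnectedSpace Ω]
  [SecondCountableTopology Ω] [MeasurableSpace Ω] [BorelSpace Ω] (m : Measure Ω) [IsProbabilityMeasure m]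

theorem main (hB : TaskB Ω m) (hA : TaskA Ω m) (hBv : TaskBv Ω m) (hBvN : TaskBvN Ω m)
    (hG : TaskG Ω m) (hHH : TaskHH Ω m) : TaskMajN Ω m := by
  intro Y F ε hε
  set δ : ℝ := 1 / (2 * (F.card : ℝ) + 2) with hδ
  have hδ0 : 0 < δ := by positivity
  have e1 : ∀ᶠ n in atTop, ∀ ψ ∈ F, ∃ E : Set Ω, MeasurableSet E ∧
      (∀ x, Y.θ n x ∈ E ↔ x ∈ E) ∧ m.real Eᶜ ≤ δ ∧ ∀ E' ⊆ E, MeasurableSet E' →
      (∀ x, Y.θ n x ∈ E' ↔ x ∈ E') → ∀ f g : Lp ℝ 1 m, IsOdd Y n f →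
      (g : Ω → ℝ) =ᵐ[m] E'.indicator (f : Ω → ℝ) →
        |(ψ.comp (ContinuousLinearMap.inl ℝ (Lp ℝ 1 m)
          ((lp (fun _ : Dat Y => ℝ) 2) × C(Ω, ℝ) × ℝ))) g| ≤ ε / 3 * ‖f‖ := by
    rw [Filter.eventually_all_finset]
    intro ψ _
    exact hB Y (ψ.comp (ContinuousLinearMap.inl ℝ (Lp ℝ 1 m)
      ((lp (fun _ : Dat Y => ℝ) 2) × C(Ω, ℝ) × ℝ))) (ε / 3) δ (by positivity) hδ0
  obtain ⟨n0, hn0⟩ := eventually_atTop.1 e1
  have e2 : ∀ n, ∃ α : Dat Y, α.n = n ∧ ∀ ψ ∈ F, ∀ u ∈ HH α, |ψ (0, 0, u, 0)| ≤ ε / 3 := by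
    intro n
    classical
    obtain ⟨α, hα, h⟩ := hA Y n (F.image (fun ψ => ψ.comp
      ((ContinuousLinearMap.inr ℝ (Lp ℝ 1 m) ((lp (fun _ : Dat Y => ℝ) 2) × C(Ω, ℝ) × ℝ)).comp
      ((ContinuousLinearMap.inr ℝ (lp (fun _ : Dat Y => ℝ) 2) (C(Ω, ℝ) × ℝ)).comp
      (ContinuousLinearMap.inl ℝ C(Ω, ℝ) ℝ))))) (ε / 3) (by positivity)
    exact ⟨α, hα, fun ψ hψ u hu => h _ (Finset.mem_image_of_mem _ hψ) u hu⟩
  choose α hα1 hα2 using e2
  have fin : {β : Dat Y | ∃ ψ ∈ F, ε / 3 < |ψ (0, bv β, 0, 0)|}.Finite := by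
    refine Set.Finite.subset (Set.Finite.biUnion F.finite_toSet (fun ψ _ =>
      (hBv Y).1 (ψ.comp ((ContinuousLinearMap.inr ℝ (Lp ℝ 1 m)
        ((lp (fun _ : Dat Y => ℝ) 2) × C(Ω, ℝ) × ℝ)).comp
        (ContinuousLinearMap.inl ℝ (lp (fun _ : Dat Y => ℝ) 2) (C(Ω, ℝ) × ℝ))))
        (ε / 3) (by positivity))) (fun β hβ => ?_)
    obtain ⟨ψ, hψ, h⟩ := hβ
    exact Set.mem_biUnion (Finset.mem_coe.2 hψ) h
  have inj : Function.Injective α := fun i j h => by rw [← hα1 i, ← hα1 j, h]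
  obtain ⟨n, hn, hnn⟩ : ∃ n ≥ n0, α n ∉ {β : Dat Y | ∃ ψ ∈ F, ε / 3 < |ψ (0, bv β, 0, 0)|} := by
    by_contra hcon
    push Not at hcon
    exact (Set.Ici_infinite n0) ((fin.preimage inj.injOn).subset (fun n hn => hcon n hn))
  choose! E hE1 hE2 hE3 hE4 using hn0 n hn
  set E0 : Set Ω := ⋂ ψ ∈ F, E ψ with hE0
  have hE0m : MeasurableSet E0 := Finset.measurableSet_biInter F hE1
  have hE0i : ∀ x, Y.θ n x ∈ E0 ↔ x ∈ E0 := by
    intro x
    simp only [hE0, Set.mem_iInter]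
    exact forall_congr' fun ψ => forall_congr' fun hψ => hE2 ψ hψ x
  have hE0n : m E0 ≠ 0 := by
    intro h0
    have h1 : m.real E0ᶜ = 1 := by
      rw [probReal_compl_eq_one_sub hE0m, Measure.real, h0]; simp
    have h2 : m.real E0ᶜ ≤ ∑ ψ ∈ F, m.real (E ψ)ᶜ := by
      rw [hE0]
      simp only [Set.compl_iInter]
      exact measureReal_biUnion_finset_le F (fun ψ => (E ψ)ᶜ)
    have h3 : ∑ ψ ∈ F, m.real (E ψ)ᶜ ≤ F.card * δ := by
      have := Finset.sum_le_card_nsmul F (fun ψ => m.real (E ψ)ᶜ) δ hE3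
      simpa using this
    have h4 : (F.card : ℝ) * δ < 1 := by
      rw [hδ, mul_one_div, div_lt_one (by positivity)]
      have : (0 : ℝ) ≤ F.card := by positivity
      linarith
    linarith
  obtain ⟨γ, hγ1, hγ2, fs, hfs1, hfs2, hfs3⟩ := hG Y n E0 hE0m hE0i hE0n
  obtain ⟨z, hz1, hz2, hz3⟩ := hBvN Y (α n)
  have hbn := (hBv Y).2.1
  let Φ : V Y →L[ℝ] ℝ := (1 / 3 : ℝ) •
    (γ.comp (ContinuousLinearMap.fst ℝ _ _) +
      z.comp ((ContinuousLinearMap.fst ℝ _ _).comp (ContinuousLinearMap.snd ℝ _ _)) +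
      (ContinuousLinearMap.snd ℝ _ _).comp
        ((ContinuousLinearMap.snd ℝ _ _).comp (ContinuousLinearMap.snd ℝ _ _)))
  have hΦ : ∀ (f : Lp ℝ 1 m) (w : lp (fun _ : Dat Y => ℝ) 2) (u : C(Ω, ℝ)) (s : ℝ),
      Φ (f, w, u, s) = (γ f + z w + s) / 3 := by
    intro f w u s
    simp only [Φ, ContinuousLinearMap.smul_apply, ContinuousLinearMap.add_apply,
      ContinuousLinearMap.comp_apply, ContinuousLinearMap.coe_fst', ContinuousLinearMap.coe_snd',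
      smul_eq_mul]
    ring
  set κ : ℝ := 1 + 6 * ∑ ψ ∈ F, ‖ψ‖ with hκ
  have hS : 0 ≤ ∑ ψ ∈ F, ‖ψ‖ := Finset.sum_nonneg fun ψ _ => norm_nonneg ψ
  have hκ0 : 0 < κ := by positivity
  have hκψ : ∀ ψ ∈ F, 6 * ‖ψ‖ ≤ κ := by
    intro ψ hψ
    have := Finset.single_le_sum (f := fun ψ : V Y →L[ℝ] ℝ => ‖ψ‖) (fun ψ _ => norm_nonneg ψ) hψ
    rw [hκ]; linarith
  have hγle : ∀ f : Lp ℝ 1 m, ‖f‖ ≤ 1 → γ f ≤ 1 := fun f hf =>
    (le_abs_self _).trans ((hγ1 f).trans hf)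
  have hΦle : ∀ (β : Dat Y) (f : Lp ℝ 1 m) (t s : ℝ) (u : C(Ω, ℝ)), ‖f‖ ≤ 1 → |t| ≤ 1 → |s| ≤ 1 →
      Φ (f, t • bv β, u, s) ≤ 1 ∧ (β ≠ α n → Φ (f, t • bv β, u, s) ≤ 2 / 3) ∧
      (β = α n → 1 - Φ (f, t • bv β, u, s) = ((1 - γ f) + (1 - t) + (1 - s)) / 3) := by
    intro β f t s u hf ht hs
    have g1 := hγle f hf
    have t1 := (abs_le.1 ht).2
    have s1 := (abs_le.1 hs).2
    rw [hΦ, map_smul, smul_eq_mul]
    by_cases hβ : β = α n
    · subst hβ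
      rw [hz1]
      refine ⟨by linarith, fun h => absurd rfl h, fun _ => by ring⟩
    · rw [hz2 β hβ]
      refine ⟨by linarith, fun _ => by linarith, fun h => absurd h hβ⟩
  have hzero : (0 : C(Ω, ℝ)) ∈ HH (α n) := ⟨0, fun _ => 0, by simp, by simp⟩
  refine ⟨Φ, κ, hκ0, ?_, ?_, ?_, ?_⟩
  · rintro ⟨f, w, u, s⟩
    rw [hΦ]
    have b1 : γ f ≤ ‖((f, w, u, s) : V Y)‖ :=
      (le_abs_self _).trans ((hγ1 f).trans (norm_fst_le ((f, w, u, s) : V Y)))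
    have b2 : z w ≤ ‖((f, w, u, s) : V Y)‖ :=
      (le_abs_self _).trans ((hz3 w).trans ((norm_fst_le (w, u, s)).trans
        (norm_snd_le ((f, w, u, s) : V Y))))
    have b3 : s ≤ ‖((f, w, u, s) : V Y)‖ := by
      have b4 : s ≤ ‖s‖ := le_abs_self s
      exact b4.trans ((norm_snd_le (u, s)).trans ((norm_snd_le (w, u, s)).trans
        (norm_snd_le ((f, w, u, s) : V Y))))
    linarith
  · rintro x ⟨β, f, t, u, s, -, hf, ht, -, hs, rfl⟩
    exact (hΦle β f t s u hf ht hs).1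
  · refine ⟨(fs, (1 : ℝ) • bv (α n), 0, 1), ⟨α n, fs, 1, 0, 1, ?_, hfs2, by simp,
      hzero, by simp, rfl⟩, ?_⟩
    · rw [hα1 n]; exact hfs1
    · rw [hΦ, map_smul, hz1, hfs3]; norm_num
  · rintro x ⟨β, f, t, u, s, hodd, hf, ht, hu, hs, rfl⟩ ψ hψ
    obtain ⟨-, c2, c3⟩ := hΦle β f t s u hf ht hs
    have g1 := hγle f hf
    have t1 := (abs_le.1 ht).2
    have s1 := (abs_le.1 hs).2
    have hψ0 := norm_nonneg ψ
    by_cases hβ : β = α n
    · subst hβ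
      have c3 := c3 rfl
      rw [hα1 n] at hodd
      obtain ⟨f1, hf1, hf1'⟩ := hγ2 f hf
      have q1 : |ψ (f1, 0, 0, 0)| ≤ ε / 3 := by
        have := hE4 ψ hψ E0 (Set.biInter_subset_of_mem (Finset.mem_coe.2 hψ)) hE0m hE0i f f1 hodd hf1
        have h2 : |ψ (f1, 0, 0, 0)| ≤ ε / 3 * ‖f‖ := this
        refine h2.trans ?_
        have : 0 < ε / 3 := by positivity
        nlinarith
      have q2 : |ψ (f - f1, 0, 0, 0)| ≤ ‖ψ‖ * (1 - γ f) := by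
        have h1 : |ψ (f - f1, 0, 0, 0)| ≤ ‖ψ‖ * ‖((f - f1, 0, 0, 0) : V Y)‖ := ψ.le_opNorm _
        refine h1.trans (mul_le_mul_of_nonneg_left ?_ hψ0)
        refine le_trans ?_ hf1'
        rw [Prod.norm_def, Prod.norm_def, Prod.norm_def]
        simp
      have q3 : |ψ (0, bv (α n), 0, 0)| ≤ ε / 3 := by
        by_contra hc
        exact hnn ⟨ψ, hψ, not_le.1 hc⟩
      have q4 : |ψ (0, 0, u, 0)| ≤ ε / 3 := hα2 n ψ hψ u hu
      have q5 : |ψ (0, 0, 0, s - 1)| ≤ ‖ψ‖ * (1 - s) := by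
        have h1 : |ψ (0, 0, 0, s - 1)| ≤ ‖ψ‖ * ‖((0, 0, 0, s - 1) : V Y)‖ := ψ.le_opNorm _
        refine h1.trans (mul_le_mul_of_nonneg_left ?_ hψ0)
        rw [Prod.norm_def, Prod.norm_def, Prod.norm_def]
        simp only [norm_zero, Real.norm_eq_abs]
        rw [abs_sub_comm, abs_of_nonneg (by linarith : (0 : ℝ) ≤ 1 - s)]
        simp [s1]
      have dec : ψ (f, t • bv (α n), u, s) - ψ (x0 Y) =
          ψ (f1, 0, 0, 0) + ψ (f - f1, 0, 0, 0) + t * ψ (0, bv (α n), 0, 0) + ψ (0, 0, u, 0) +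
            ψ (0, 0, 0, s - 1) := by
        rw [← smul_eq_mul, ← map_smul, ← map_add, ← map_add, ← map_add, ← map_add, ← map_sub]
        congr 1
        simp [x0, Prod.ext_iff]
      rw [dec]
      have q3' : |t * ψ (0, bv (α n), 0, 0)| ≤ ε / 3 := by
        rw [abs_mul]
        calc |t| * |ψ (0, bv (α n), 0, 0)| ≤ 1 * (ε / 3) :=
              mul_le_mul ht q3 (abs_nonneg _) zero_le_one
          _ = ε / 3 := one_mul _
      have tri : |ψ (f1, 0, 0, 0) + ψ (f - f1, 0, 0, 0) + t * ψ (0, bv (α n), 0, 0) +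
          ψ (0, 0, u, 0) + ψ (0, 0, 0, s - 1)| ≤
          |ψ (f1, 0, 0, 0)| + |ψ (f - f1, 0, 0, 0)| + |t * ψ (0, bv (α n), 0, 0)| +
            |ψ (0, 0, u, 0)| + |ψ (0, 0, 0, s - 1)| := by
        refine (abs_add_le _ _).trans (add_le_add_left ?_ _)
        refine (abs_add_le _ _).trans (add_le_add_left ?_ _)
        refine (abs_add_le _ _).trans (add_le_add_left ?_ _)
        exact abs_add_le _ _
      have fin2 : ‖ψ‖ * (1 - γ f) + ‖ψ‖ * (1 - s) ≤ κ * (1 - Φ (f, t • bv (α n), u, s)) := by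
        rw [c3]
        have hk := hκψ ψ hψ
        have a1 : 0 ≤ (1 - γ f) + (1 - t) + (1 - s) := by linarith
        have a2 : 6 * ‖ψ‖ * (((1 - γ f) + (1 - t) + (1 - s)) / 3) ≤
            κ * (((1 - γ f) + (1 - t) + (1 - s)) / 3) :=
          mul_le_mul_of_nonneg_right hk (by linarith)
        have a3 : 0 ≤ ‖ψ‖ * (1 - t) := mul_nonneg hψ0 (by linarith)
        have a4 : 0 ≤ ‖ψ‖ * (1 - s) := mul_nonneg hψ0 (by linarith)
        have a5 : 0 ≤ ‖ψ‖ * (1 - γ f) := mul_nonneg hψ0 (by linarith)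
        nlinarith
      linarith
    · have c2 := c2 hβ
      have hun := (hHH Y β u hu).1
      have n1 : ‖((f, t • bv β, u, s) : V Y)‖ ≤ 1 := by
        rw [Prod.norm_def, Prod.norm_def, Prod.norm_def]
        simp only [norm_smul, hbn β, mul_one, Real.norm_eq_abs]
        exact max_le hf (max_le ht (max_le hun hs))
      have n2 : ‖x0 Y‖ ≤ 1 := by
        rw [x0, Prod.norm_def, Prod.norm_def, Prod.norm_def]
        simp
      have h1 : |ψ (f, t • bv β, u, s) - ψ (x0 Y)| ≤ ‖ψ‖ * 2 := by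
        rw [← map_sub]
        refine (ψ.le_opNorm _).trans (mul_le_mul_of_nonneg_left ?_ hψ0)
        refine (norm_sub_le _ _).trans ?_
        linarith
      have hk := hκψ ψ hψ
      have a2 : 6 * ‖ψ‖ * (1 / 3) ≤ κ * (1 - Φ (f, t • bv β, u, s)) :=
        mul_le_mul hk (by linarith) (by norm_num) hκ0.le
      linarith

end Q194.AP.MajN
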