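import Pool.Agent.Q194.AP.Stmts

set_option autoImplicit false
set_option maxSynthPendingDepth 3

open MeasureTheory Set Filter Topology
open scoped ENNReal

namespace Q194.AP.Mem
open Q194.AP

variable (Ω : Type) [TopologicalSpace Ω] [CompactSpace Ω] [T2Space Ω] [TotallyDisconnectedSpace Ω]
  [SecondCountableTopology Ω] [MeasurableSpace Ω] [BorelSpace Ω] (m : Measure Ω)
  [IsProbabilityMeasure m]

theorem main (hA : TaskA Ω m) (hHH : TaskHH Ω m) (hBv : TaskBv Ω m) : TaskMem Ω m := by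
  intro Y
  obtain ⟨α, -, -⟩ := hA Y 0 ∅ 1 one_pos
  have hx0 : x0 Y ∈ PP Y := by
    refine ⟨α, 0, 0, 0, 1, ?_, by simp, by simp, (hHH Y α 0 ⟨0, fun _ => 0, by simp, by simp⟩).2.2.2.2,
      by simp, ?_⟩
    · have h0 : ((0 : Lp ℝ 1 m) : Ω → ℝ) =ᵐ[m] 0 := Lp.coeFn_zero _ _ _
      have h1 := (Y.mp α.n).quasiMeasurePreserving.ae_eq_comp h0
      unfold IsOdd
      filter_upwards [h0, h1] with x hx hx'
      simp only [Function.comp, Pi.zero_apply] at hx hx' ⊢
      rw [hx, hx', neg_zero]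
    · simp [x0]
  have hneg : ∀ x ∈ PP Y, -x ∈ PP Y := by
    rintro x ⟨β, f, t, u, s, hf, hf1, ht, hu, hs, rfl⟩
    refine ⟨β, -f, -t, -u, -s, ?_, by rwa [norm_neg], by rwa [abs_neg], (hHH Y β u hu).2.2.1,
      by rwa [abs_neg], ?_⟩
    · have h0 : ((-f : Lp ℝ 1 m) : Ω → ℝ) =ᵐ[m] -f := Lp.coeFn_neg _
      have h1 := (Y.mp β.n).quasiMeasurePreserving.ae_eq_comp h0
      unfold IsOdd at hf ⊢
      filter_upwards [h0, h1, hf] with x hx hx' hx2
      simp only [Function.comp, Pi.neg_apply] at hx hx' ⊢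
      rw [hx, hx', hx2]
    · simp [neg_smul]
  have hconv : Convex ℝ (CC Y) := (convex_convexHull ℝ _).closure
  have hclosed : IsClosed (CC Y) := isClosed_closure
  have hsub : PP Y ⊆ CC Y := (subset_convexHull ℝ _).trans subset_closure
  have hnegC : ∀ x ∈ CC Y, -x ∈ CC Y := by
    have h1 : CC Y ⊆ (fun x : V Y => -x) ⁻¹' CC Y := by
      refine closure_minimal (convexHull_min ?_ ?_) ?_
      · intro x hx
        exact hsub (hneg x hx)
      · intro x hx y hy a b ha hb hab
        simp only [mem_preimage] at hx hy ⊢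
        have := hconv hx hy ha hb hab
        have e : -(a • x + b • y) = a • (-x) + b • (-y) := by
          rw [smul_neg, smul_neg]; abel
        rw [e]
        exact this
      · exact hclosed.preimage continuous_neg
    exact fun x hx => h1 hx
  refine ⟨hx0, hneg, hnegC, ?_, hclosed, hconv⟩
  have hb : CC Y ⊆ Metric.closedBall (0 : V Y) 1 := by
    refine closure_minimal (convexHull_min ?_ (convex_closedBall _ _)) Metric.isClosed_closedBall
    rintro x ⟨β, f, t, u, s, hf, hf1, ht, hu, hs, rfl⟩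
    rw [mem_closedBall_zero_iff]
    have h2 : ‖t • bv β‖ ≤ 1 := by
      rw [norm_smul, (hBv Y).2.1 β, mul_one]
      exact ht
    have h3 : ‖u‖ ≤ 1 := (hHH Y β u hu).1
    exact max_le hf1 (max_le h2 (max_le h3 hs))
  exact Metric.isBounded_closedBall.subset hb

end Q194.AP.Mem
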