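import Pool.Agent.Q194.AP.Stmts

set_option autoImplicit false
set_option maxSynthPendingDepth 3

open MeasureTheory Set Filter Topology
open scoped ENNReal

noncomputable section

namespace Q194.AP.Mem194

open Q194.AP

variable (Ω : Type) [TopologicalSpace Ω] [CompactSpace Ω] [T2Space Ω] [TotallyDisconnectedSpace Ω]
  [SecondCountableTopology Ω] [MeasurableSpace Ω] [BorelSpace Ω] (m : Measure Ω) [IsProbabilityMeasure m]

theorem main (hA : TaskA Ω m) (hHH : TaskHH Ω m) (hBv : TaskBv Ω m) : TaskMem Ω m := by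
  intro Y
  obtain ⟨α, -, -⟩ := hA Y 0 ∅ 1 one_pos
  have h1 : x0 Y ∈ PP Y := by
    refine ⟨α, 0, 0, 0, 1, ?_, by simp, by simp, ⟨0, fun _ => 0, by simp, by simp⟩, by simp, by simp [x0]⟩
    have h0 : ∀ᵐ x ∂m, ((0 : Lp ℝ 1 m) : Ω → ℝ) x = 0 := Lp.coeFn_zero ℝ 1 m
    have h0' := (Y.mp α.n).quasiMeasurePreserving.ae h0
    unfold IsOdd
    filter_upwards [h0, h0'] with x hx hx'
    rw [hx', hx, neg_zero]
  have h2 : ∀ x ∈ PP Y, -x ∈ PP Y := by
    rintro x ⟨β, f, t, u, s, hf, hf1, ht, hu, hs, rfl⟩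
    refine ⟨β, -f, -t, -u, -s, ?_, by rwa [norm_neg], by rwa [abs_neg], (hHH Y β u hu).2.2.1, by rwa [abs_neg], ?_⟩
    · have h0 : ∀ᵐ x ∂m, ((-f : Lp ℝ 1 m) : Ω → ℝ) x = -(f : Ω → ℝ) x := Lp.coeFn_neg f
      have h0' := (Y.mp β.n).quasiMeasurePreserving.ae h0
      unfold IsOdd at hf ⊢
      filter_upwards [h0, h0', hf] with x hx hx' hfx
      rw [hx', hx, hfx]
    · simp [Prod.ext_iff]
  have h3 : ∀ x ∈ convexHull ℝ (PP Y), -x ∈ convexHull ℝ (PP Y) := by
    intro x hx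
    have hsub : PP Y ⊆ -(convexHull ℝ (PP Y)) := fun y hy => subset_convexHull ℝ _ (h2 y hy)
    exact convexHull_min hsub (convex_convexHull ℝ (PP Y)).neg hx
  refine ⟨h1, h2, ?_, ?_, isClosed_closure, (convex_convexHull ℝ _).closure⟩
  · intro x hx
    exact map_mem_closure continuous_neg hx h3
  · have hb : Bornology.IsBounded (PP Y) := by
      refine (Metric.isBounded_closedBall (x := (0 : V Y)) (r := 1)).subset ?_
      rintro x ⟨β, f, t, u, s, hf, hf1, ht, hu, hs, rfl⟩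
      rw [mem_closedBall_zero_iff]
      refine (norm_prod_le_iff).2 ⟨hf1, (norm_prod_le_iff).2 ⟨?_, (norm_prod_le_iff).2 ⟨(hHH Y β u hu).1, ?_⟩⟩⟩
      · change ‖t • bv β‖ ≤ 1
        rw [norm_smul, (hBv Y).2.1 β, mul_one]
        exact ht
      · exact hs
    exact ((isBounded_convexHull).2 hb).closure

end Q194.AP.Mem194
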