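import Pool.Agent.Q194.AP.Stmts2

set_option autoImplicit false
set_option maxSynthPendingDepth 3

open MeasureTheory Set Filter Topology
open scoped ENNReal

noncomputable section

namespace Q194.AP.MemD

open Q194.AP

variable (Ω : Type) [TopologicalSpace Ω] [CompactSpace Ω] [T2Space Ω] [TotallyDisconnectedSpace Ω]
  [SecondCountableTopology Ω] [MeasurableSpace Ω] [BorelSpace Ω] (m : Measure Ω)
  [IsProbabilityMeasure m]

private theorem gen {X : Type} [NormedAddCommGroup X] [NormedSpace ℝ X] (Q : Set X)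
    (hQ : ∀ x ∈ Q, -x ∈ Q) (hb : Bornology.IsBounded Q) :
    (∀ x ∈ closure (convexHull ℝ Q), -x ∈ closure (convexHull ℝ Q)) ∧
      Bornology.IsBounded (closure (convexHull ℝ Q)) ∧ IsClosed (closure (convexHull ℝ Q)) ∧
      Convex ℝ (closure (convexHull ℝ Q)) ∧ Q ⊆ closure (convexHull ℝ Q) := by
  have hsub : Q ⊆ closure (convexHull ℝ Q) := (subset_convexHull ℝ Q).trans subset_closure
  have hconv : Convex ℝ (closure (convexHull ℝ Q)) := (convex_convexHull ℝ Q).closure
  refine ⟨?_, (isBounded_convexHull.mpr hb).closure, isClosed_closure, hconv, hsub⟩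
  intro x hx
  have h1 : closure (convexHull ℝ Q) ⊆ {y | -y ∈ closure (convexHull ℝ Q)} := by
    refine closure_minimal (convexHull_min (fun y hy => hsub (hQ y hy)) ?_)
      (isClosed_closure.preimage continuous_neg)
    intro y hy z hz a b ha hb hab
    show -(a • y + b • z) ∈ closure (convexHull ℝ Q)
    have := hconv hy hz ha hb hab
    rwa [smul_neg, smul_neg, ← neg_add] at this
  exact h1 hx

theorem main (h : TaskMem Ω m) : TaskMemD Ω m := by
  intro Y
  obtain ⟨h1, h2, _, h4, _, _⟩ := h Y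
  have hP : Bornology.IsBounded (PP Y) :=
    h4.subset ((subset_convexHull ℝ (PP Y)).trans subset_closure)
  have hB : Bornology.IsBounded {x : V Y | ‖x‖ ≤ 1 / 2} :=
    isBounded_iff_forall_norm_le.mpr ⟨1 / 2, fun x hx => hx⟩
  have hQ : ∀ x ∈ QQ Y, -x ∈ QQ Y := by
    rintro x (hx | hx)
    · exact Or.inl (h2 x hx)
    · refine Or.inr ?_
      show ‖-x‖ ≤ 1 / 2
      rw [norm_neg]
      exact hx
  obtain ⟨g1, g2, g3, g4, g5⟩ := gen (QQ Y) hQ (hP.union hB)
  exact ⟨Or.inl h1, hQ, g1, g2, g3, g4, fun x hx => g5 (Or.inr hx)⟩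

end Q194.AP.MemD
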