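import Pool.Agent.Q194.AP.Stmts2

set_option autoImplicit false
set_option maxSynthPendingDepth 3

open MeasureTheory Set Filter Topology
open scoped ENNReal
open Q194.AP

namespace Q194.AP.NotD

variable (Ω : Type) [TopologicalSpace Ω] [CompactSpace Ω] [T2Space Ω] [TotallyDisconnectedSpace Ω]
  [SecondCountableTopology Ω] [MeasurableSpace Ω] [BorelSpace Ω] (m : Measure Ω)
  [IsProbabilityMeasure m]

theorem main (hSup : TaskSup) (hBil : TaskBil) (hT : TaskT Ω m) (hKey : TaskKeyD Ω m) :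
    TaskNotD Ω m := by
  classical
  intro Y hA
  obtain ⟨T, hT⟩ := hT Y
  obtain ⟨b1, b2⟩ := hBil (V Y)
  obtain ⟨Φ1, h1⟩ := b2 T
  obtain ⟨Φ2, h2⟩ := b2 T.flip
  obtain ⟨φ, a, ha, ⟨z, hz, hz'⟩, hsl⟩ := hA.2 {Φ1, Φ2} (1 / 4) (by norm_num)
  obtain ⟨p, hp, q, hq, hpq⟩ := hSup (V Y) (QQ Y) φ _ ⟨z, hz, hz'⟩
  obtain ⟨B, hB⟩ := b1 φ
  rw [hB] at hpq
  obtain ⟨p', hp', q', hq', hpq', hor⟩ := hKey Y B _ ⟨p, hp, q, hq, hpq⟩
  have hmemDD : ∀ x ∈ QQ Y, x ∈ DD Y := fun x hx => subset_closure (subset_convexHull ℝ _ hx)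
  have hin : tens p' q' ∈ Slice (hull (DD Y) (DD Y)) φ a := by
    refine ⟨subset_closure (subset_convexHull ℝ _ ⟨p', hmemDD _ hp', q', hmemDD _ hq', rfl⟩), ?_⟩
    rw [hB]
    exact hpq'
  have hx0 : T (x0 Y) (x0 Y) = 0 := by
    rw [hT]
    simp [x0]
  rcases hor with h | h
  · have h3 := hsl _ hin Φ1 (by simp)
    rw [h1, h1, hT, hx0, sub_zero] at h3
    linarith
  · have h3 := hsl _ hin Φ2 (by simp)
    rw [h2, h2, ContinuousLinearMap.flip_apply, ContinuousLinearMap.flip_apply, hT, hx0,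
      sub_zero] at h3
    linarith

end Q194.AP.NotD
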