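import Pool.Agent.Q194.AP.Stmts

set_option autoImplicit false
set_option maxSynthPendingDepth 3

open MeasureTheory Set Filter Topology
open scoped ENNReal
open Q194.AP

namespace Q194.AP.RL

variable (Ω : Type) [TopologicalSpace Ω] [CompactSpace Ω] [T2Space Ω] [TotallyDisconnectedSpace Ω]
  [SecondCountableTopology Ω] [MeasurableSpace Ω] [BorelSpace Ω] (m : Measure Ω)
  [IsProbabilityMeasure m]

theorem main : TaskRL Ω m := by
  intro Y g hg
  have hr : ∀ n, AEStronglyMeasurable (fun x => Y.r n x) m := fun n =>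
    (Y.r n).continuous.aestronglyMeasurable
  have hrb : ∀ n x, |Y.r n x| = 1 := by
    intro n x
    rcases Y.r_val n x with h | h <;> rw [h] <;> simp
  have hgθ : ∀ n, Integrable (fun x => g (Y.θ n x)) m := fun n =>
    (Y.mp n).integrable_comp_of_integrable hg
  have hint : ∀ n (f : Ω → ℝ), Integrable f m → Integrable (fun x => f x * Y.r n x) m := by
    intro n f hf
    refine hf.mul_bdd (c := 1) (hr n) (Filter.Eventually.of_forall fun x => ?_)
    rw [Real.norm_eq_abs, hrb n x]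
  have h1 : ∀ n, ∫ x, g x * Y.r n x ∂m = - ∫ x, g (Y.θ n x) * Y.r n x ∂m := by
    intro n
    have gen : ∀ F : Ω → ℝ, AEStronglyMeasurable F m → ∫ x, F x ∂m = ∫ x, F (Y.θ n x) ∂m := by
      intro F hF
      have e := integral_map (μ := m) (f := F) (Y.mp n).measurable.aemeasurable
        (by rw [(Y.mp n).map_eq]; exact hF)
      rw [(Y.mp n).map_eq] at e
      exact e
    have h2 : ∫ x, g x * Y.r n x ∂m = ∫ x, g (Y.θ n x) * Y.r n (Y.θ n x) ∂m :=
      gen (fun x => g x * Y.r n x) (hg.aestronglyMeasurable.mul (hr n))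
    rw [h2, ← integral_neg]
    refine integral_congr_ae (Filter.Eventually.of_forall fun x => ?_)
    change g (Y.θ n x) * Y.r n (Y.θ n x) = -(g (Y.θ n x) * Y.r n x)
    rw [Y.r_self]
    ring
  refine squeeze_zero_norm (fun n => ?_) (Y.appr g hg)
  have h3 : 2 * ∫ x, g x * Y.r n x ∂m = ∫ x, (g x - g (Y.θ n x)) * Y.r n x ∂m := by
    have h4 : ∫ x, (g x - g (Y.θ n x)) * Y.r n x ∂m =
        ∫ x, g x * Y.r n x ∂m - ∫ x, g (Y.θ n x) * Y.r n x ∂m := by
      rw [← integral_sub (hint n g hg) (hint n _ (hgθ n))]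
      refine integral_congr_ae (Filter.Eventually.of_forall fun x => ?_)
      change (g x - g (Y.θ n x)) * Y.r n x = g x * Y.r n x - g (Y.θ n x) * Y.r n x
      ring
    rw [h4]
    have h5 := h1 n
    linarith
  have h6 : ‖∫ x, (g x - g (Y.θ n x)) * Y.r n x ∂m‖ ≤ ∫ x, |g (Y.θ n x) - g x| ∂m := by
    refine (norm_integral_le_integral_norm _).trans (le_of_eq ?_)
    refine integral_congr_ae (Filter.Eventually.of_forall fun x => ?_)
    change ‖(g x - g (Y.θ n x)) * Y.r n x‖ = |g (Y.θ n x) - g x|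
    rw [Real.norm_eq_abs, abs_mul, hrb, mul_one, abs_sub_comm]
  rw [← h3, norm_mul] at h6
  have h7 : ‖(2 : ℝ)‖ = 2 := by simp
  rw [h7] at h6
  have h8 := norm_nonneg (∫ x, g x * Y.r n x ∂m)
  linarith

end Q194.AP.RL
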