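import Pool.Agent.Q194.AP.Stmts

/-! `AP194.TaskRMK` (helper230). -/

set_option autoImplicit false
set_option maxSynthPendingDepth 3

open MeasureTheory Set Filter Topology
open scoped ENNReal CompactlySupported

noncomputable section

namespace Q194.AP.RMK

open Q194.AP

/-- the functional on compactly supported functions -/
def lin (Ω : Type) [TopologicalSpace Ω] (p : C(Ω, ℝ) →ₗ[ℝ] ℝ) : C_c(Ω, ℝ) →ₗ[ℝ] ℝ where
  toFun f := p f.toContinuousMap
  map_add' f g := by
    rw [← p.map_add]
    rfl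
  map_smul' c f := by
    rw [RingHom.id_apply, ← p.map_smul]
    rfl

theorem main : TaskRMK := by
  intro Ω _ _ _ _ _ p hp
  have hpos : ∀ f : C_c(Ω, ℝ), 0 ≤ f → 0 ≤ lin Ω p f := by
    intro f hf
    exact hp _ (fun x => hf x)
  let Λ : C_c(Ω, ℝ) →ₚ[ℝ] ℝ := PositiveLinearMap.mk₀ (lin Ω p) hpos
  refine ⟨RealRMK.rieszMeasure Λ, inferInstance, fun u => ?_⟩
  have h := RealRMK.integral_rieszMeasure Λ (CompactlySupportedContinuousMap.continuousMapEquiv u)
  have h2 : Λ (CompactlySupportedContinuousMap.continuousMapEquiv u) = p u := rfl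
  rw [← h2, ← h]
  rfl

end Q194.AP.RMK
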