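import Pool.Agent.Q194.AP.Stmts2

set_option autoImplicit false
set_option maxSynthPendingDepth 3

open Set Filter Topology

noncomputable section

namespace Q194.AP.Ren

open Q194.AP

/-! ### transfer -/

theorem apep_map {X X' : Type} [NormedAddCommGroup X] [NormedSpace ℝ X] [NormedAddCommGroup X'] [NormedSpace ℝ X']
    (e : X ≃L[ℝ] X') {C : Set X} {x0 : X} (h : APEP C x0) : APEP (e '' C) (e x0) := by
  classical
  refine ⟨mem_image_of_mem _ h.1, fun F ε hε => ?_⟩
  obtain ⟨φ, a, ha, ⟨y, hy⟩, H⟩ := h.2 (F.image (fun ψ => ψ.comp (e : X →L[ℝ] X'))) ε hε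
  have hs : (fun x => (φ.comp (e.symm : X' →L[ℝ] X)) x) '' (e '' C) = φ '' C := by
    rw [image_image]
    apply image_congr
    intro x _
    simp
  refine ⟨φ.comp (e.symm : X' →L[ℝ] X), a, ha, ⟨e y, mem_image_of_mem _ hy.1, ?_⟩, ?_⟩
  · have h2 := hy.2
    change sSup ((fun x => (φ.comp (e.symm : X' →L[ℝ] X)) x) '' (e '' C)) - a < _
    rw [hs]
    simpa using h2
  · rintro x ⟨⟨z, hz, rfl⟩, hx⟩ ψ hψ
    change sSup ((fun x => (φ.comp (e.symm : X' →L[ℝ] X)) x) '' (e '' C)) - a < _ at hx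
    rw [hs] at hx
    have := H z ⟨hz, by simpa using hx⟩ (ψ.comp (e : X →L[ℝ] X')) (Finset.mem_image_of_mem _ hψ)
    simpa using this

section ten

variable {X X' : Type} [NormedAddCommGroup X] [NormedSpace ℝ X] [NormedAddCommGroup X'] [NormedSpace ℝ X']

/-- `B ↦ B (e ·) (e ·)` -/
def G (e : X ≃L[ℝ] X') : Bil X' X' →L[ℝ] Bil X X :=
  ((e.symm.arrowCongr (e.symm.arrowCongr (ContinuousLinearEquiv.refl ℝ ℝ)) : Bil X' X' ≃L[ℝ] Bil X X) : Bil X' X' →L[ℝ] Bil X X)

theorem G_apply (e : X ≃L[ℝ] X') (B : Bil X' X') (x y : X) : G e B x y = B (e x) (e y) := by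
  simp [G]

def D (e : X ≃L[ℝ] X') : (Bil X X →L[ℝ] ℝ) →L[ℝ] (Bil X' X' →L[ℝ] ℝ) :=
  (ContinuousLinearMap.compL ℝ (Bil X' X') (Bil X X) ℝ).flip (G e)

theorem D_apply (e : X ≃L[ℝ] X') (z : Bil X X →L[ℝ] ℝ) (B : Bil X' X') : D e z B = z (G e B) := by
  simp [D]

theorem D_ev (e : X ≃L[ℝ] X') (x y : X) : D e (ev x y) = ev (e x) (e y) := by
  ext B
  rw [D_apply]
  simp [ev, G_apply]

theorem D_mem (e : X ≃L[ℝ] X') (z : Bil X X →L[ℝ] ℝ) (hz : z ∈ PT X X) : D e z ∈ PT X' X' := by
  refine map_mem_closure (D e).continuous hz ?_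
  intro w hw
  have hw' : w ∈ Submodule.span ℝ {z | ∃ x y : X, z = ev x y} := hw
  have : D e w ∈ Submodule.span ℝ {z | ∃ x y : X', z = ev x y} := by
    refine Submodule.span_induction ?_ ?_ ?_ ?_ hw'
    · rintro _ ⟨x, y, rfl⟩
      exact Submodule.subset_span ⟨e x, e y, D_ev e x y⟩
    · rw [map_zero]; exact Submodule.zero_mem _
    · intro a b _ _ ha hb
      rw [map_add]; exact Submodule.add_mem _ ha hb
    · intro c a _ ha
      rw [map_smul]; exact Submodule.smul_mem _ _ ha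
  exact this

def E1 (e : X ≃L[ℝ] X') : PT X X →L[ℝ] PT X' X' :=
  ((D e).comp (PT X X).subtypeL).codRestrict (PT X' X') (fun z => D_mem e z z.2)

theorem E1_coe (e : X ≃L[ℝ] X') (z : PT X X) : (E1 e z : Bil X' X' →L[ℝ] ℝ) = D e z := rfl

theorem E1_E1 (e : X ≃L[ℝ] X') (z : PT X X) : E1 e.symm (E1 e z) = z := by
  apply Subtype.ext
  rw [E1_coe, E1_coe]
  ext B
  rw [D_apply, D_apply]
  congr 1
  ext x y
  rw [G_apply, G_apply]
  simp

def E (e : X ≃L[ℝ] X') : PT X X ≃L[ℝ] PT X' X' :=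
  ContinuousLinearEquiv.equivOfInverse (E1 e) (E1 e.symm) (fun z => E1_E1 e z) (fun z => by
    have := E1_E1 e.symm z
    rwa [ContinuousLinearEquiv.symm_symm] at this)

theorem E_tens (e : X ≃L[ℝ] X') (x y : X) : E e (tens x y) = tens (e x) (e y) := by
  apply Subtype.ext
  change D e (ev x y) = ev (e x) (e y)
  exact D_ev e x y

theorem E_hull (e : X ≃L[ℝ] X') (C : Set X) : E e '' hull C C = hull (e '' C) (e '' C) := by
  unfold hull
  have h1 : E e '' closure (convexHull ℝ {z | ∃ x ∈ C, ∃ y ∈ C, z = tens x y}) =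
      closure (E e '' convexHull ℝ {z | ∃ x ∈ C, ∃ y ∈ C, z = tens x y}) :=
    (E e).toHomeomorph.image_closure _
  rw [h1]
  have h2 : E e '' convexHull ℝ {z | ∃ x ∈ C, ∃ y ∈ C, z = tens x y} =
      convexHull ℝ (E e '' {z | ∃ x ∈ C, ∃ y ∈ C, z = tens x y}) :=
    LinearMap.image_convexHull ((E e : PT X X →L[ℝ] PT X' X') : PT X X →ₗ[ℝ] PT X' X') _
  rw [h2]
  congr 2
  ext w
  constructor
  · rintro ⟨_, ⟨x, hx, y, hy, rfl⟩, rfl⟩
    exact ⟨e x, mem_image_of_mem _ hx, e y, mem_image_of_mem _ hy, E_tens e x y⟩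
  · rintro ⟨_, ⟨x, hx, rfl⟩, _, ⟨y, hy, rfl⟩, rfl⟩
    exact ⟨tens x y, ⟨x, hx, y, hy, rfl⟩, E_tens e x y⟩

end ten

/-! ### renorming -/

structure Body (X : Type) [NormedAddCommGroup X] [NormedSpace ℝ X] where
  C : Set X
  symm : ∀ x ∈ C, -x ∈ C
  R : ℝ
  Rpos : 0 < R
  bdd : ∀ x ∈ C, ‖x‖ ≤ R
  closed : IsClosed C
  conv : Convex ℝ C
  δ : ℝ
  δpos : 0 < δ
  ball : ∀ x, ‖x‖ ≤ δ → x ∈ C

variable {X : Type} [NormedAddCommGroup X] [NormedSpace ℝ X]

theorem Body.nhds (K : Body X) : K.C ∈ 𝓝 (0 : X) := by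
  refine Filter.mem_of_superset (Metric.closedBall_mem_nhds (0 : X) K.δpos) ?_
  intro x hx
  exact K.ball x (by simpa using hx)

theorem Body.abs (K : Body X) : Absorbent ℝ K.C := absorbent_nhds_zero K.nhds

theorem Body.up (K : Body X) (x : X) : gauge K.C x ≤ ‖x‖ / K.δ := by
  have h1 : Metric.closedBall (0 : X) K.δ ⊆ K.C := fun x hx => K.ball x (by simpa using hx)
  have h2 : Absorbent ℝ (Metric.closedBall (0 : X) K.δ) := absorbent_nhds_zero (Metric.closedBall_mem_nhds _ K.δpos)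
  have h3 := gauge_mono h2 h1 x
  rwa [gauge_closedBall K.δpos.le] at h3

theorem Body.low (K : Body X) (x : X) : ‖x‖ / K.R ≤ gauge K.C x := by
  have h1 : K.C ⊆ Metric.closedBall (0 : X) K.R := fun x hx => by simpa using K.bdd x hx
  have h3 := gauge_mono K.abs h1 x
  rwa [gauge_closedBall K.Rpos.le] at h3

/-- the space with the new norm -/
def RX (_ : Body X) : Type := X

instance (K : Body X) : AddCommGroup (RX K) := inferInstanceAs (AddCommGroup X)
instance (K : Body X) : Module ℝ (RX K) := inferInstanceAs (Module ℝ X)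
instance (K : Body X) : Norm (RX K) := ⟨fun x => gauge K.C (show X from x)⟩

theorem norm_def (K : Body X) (x : RX K) : ‖x‖ = gauge K.C (show X from x) := rfl

theorem core (K : Body X) : NormedSpace.Core ℝ (RX K) where
  norm_nonneg x := gauge_nonneg _
  norm_smul c x := by
    let x' : X := x
    change gauge K.C (c • x') = ‖c‖ * gauge K.C x'
    rcases le_total 0 c with h | h
    · rw [Real.norm_eq_abs, abs_of_nonneg h, gauge_smul_of_nonneg h]
      rfl
    · have h1 : c • x' = -((-c) • x') := by rw [neg_smul, neg_neg]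
      rw [h1, gauge_neg K.symm, gauge_smul_of_nonneg (by linarith), Real.norm_eq_abs, abs_of_nonpos h]
      rfl
  norm_triangle x y := gauge_add_le K.conv K.abs _ _
  norm_eq_zero_iff x := by
    rw [norm_def]
    constructor
    · intro h
      have h1 := K.low (show X from x)
      rw [h] at h1
      have h2 : ‖(show X from x)‖ ≤ 0 := by
        by_contra h3
        push Not at h3
        have := div_pos h3 K.Rpos
        linarith
      exact norm_le_zero_iff.1 h2
    · rintro rfl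
      exact gauge_zero

instance (K : Body X) : NormedAddCommGroup (RX K) := NormedAddCommGroup.ofCore (core K)
instance (K : Body X) : NormedSpace ℝ (RX K) := NormedSpace.ofCore (core K)

def eL (K : Body X) : X ≃ₗ[ℝ] RX K := LinearEquiv.refl ℝ X

theorem norm_eL (K : Body X) (x : X) : ‖eL K x‖ = gauge K.C x := rfl

def e (K : Body X) : X ≃L[ℝ] RX K :=
  (eL K).toContinuousLinearEquivOfBounds (1 / K.δ) K.R
    (fun x => by rw [norm_eL]; have := K.up x; rw [div_eq_inv_mul] at this; rwa [one_div])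
    (fun x => by
      have := K.low (show X from x)
      rw [div_le_iff₀ K.Rpos, mul_comm] at this
      exact this)

theorem e_apply (K : Body X) (x : X) : e K x = eL K x := rfl

theorem image_C (K : Body X) : e K '' K.C = Metric.closedBall (0 : RX K) 1 := by
  have key : ∀ x : X, ‖e K x‖ ≤ 1 ↔ x ∈ K.C := by
    intro x
    rw [e_apply, norm_eL, gauge_le_one_iff_mem_closure K.conv K.nhds, K.closed.closure_eq]
  ext w
  rw [mem_closedBall_zero_iff]
  constructor
  · rintro ⟨x, hx, rfl⟩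
    exact (key x).2 hx
  · intro hw
    refine ⟨(e K).symm w, (key _).1 (by simpa using hw), by simp⟩

theorem complete [CompleteSpace X] (K : Body X) : CompleteSpace (RX K) :=
  (completeSpace_congr (e := (e K).toEquiv) (e K).isUniformEmbedding).1 inferInstance

/-- unit balls -/
theorem main (h : Goal2) : ∃ (X : Type) (_ : NormedAddCommGroup X) (_ : NormedSpace ℝ X) (_ : CompleteSpace X) (x0 : X),
    APEP (Metric.closedBall (0 : X) 1) x0 ∧
      ¬ APEP (hull (Metric.closedBall (0 : X) 1) (Metric.closedBall (0 : X) 1)) (tens x0 x0) := by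
  obtain ⟨X, i1, i2, i3, C, x0, hs, hb, hcl, hcv, ⟨δ, hδ, hball⟩, hA, hN⟩ := h
  obtain ⟨R, hR⟩ := hb.exists_norm_le
  let K : Body X := ⟨C, hs, max R 1, lt_of_lt_of_le one_pos (le_max_right _ _), fun x hx => (hR x hx).trans (le_max_left _ _),
    hcl, hcv, δ, hδ, hball⟩
  have hKC : e K '' C = Metric.closedBall (0 : RX K) 1 := image_C K
  refine ⟨RX K, inferInstance, inferInstance, complete K, e K x0, ?_, ?_⟩
  · rw [← hKC]
    exact apep_map (e K) hA
  · rw [← hKC]
    intro h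
    apply hN
    have h2 := apep_map (X := PT (RX K) (RX K)) (X' := PT X X) (E (e K)).symm h
    rw [← E_hull, ← E_tens, ContinuousLinearEquiv.symm_apply_apply] at h2
    have h3 : (E (e K)).symm '' (E (e K) '' hull C C) = hull C C := by
      rw [image_image]; simp
    rwa [h3] at h2

end Q194.AP.Ren
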