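import Pool.Agent.Q194.AP.Stmts

set_option autoImplicit false
set_option maxSynthPendingDepth 3

open MeasureTheory Set Filter Topology
open scoped ENNReal

namespace Q194.AP.Sing

open Q194.AP

variable (Ω : Type) [TopologicalSpace Ω] [CompactSpace Ω] [T2Space Ω] [TotallyDisconnectedSpace Ω]
  [SecondCountableTopology Ω] [MeasurableSpace Ω] [BorelSpace Ω] (m : Measure Ω) [IsProbabilityMeasure m]

theorem invar (Y : Sys Ω m) (K0 : Set Ω) (hK0 : IsClosed K0) (hm : m K0 = 0) : ∀ N : ℕ,
    ∃ K : Set Ω, K0 ⊆ K ∧ IsClosed K ∧ m K = 0 ∧ ∀ i < N, ∀ x, Y.θ i x ∈ K ↔ x ∈ K := by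
  intro N
  induction N with
  | zero => exact ⟨K0, subset_rfl, hK0, hm, fun i hi => absurd hi (Nat.not_lt_zero i)⟩
  | succ N ih =>
    obtain ⟨K, h1, h2, h3, h4⟩ := ih
    refine ⟨K ∪ Y.θ N ⁻¹' K, h1.trans subset_union_left, h2.union (h2.preimage (Y.cont N)), ?_, ?_⟩
    · refine measure_union_null h3 ?_
      rw [(Y.mp N).measure_preimage h2.measurableSet.nullMeasurableSet]
      exact h3
    · intro i hi x
      rcases Nat.lt_succ_iff_lt_or_eq.1 hi with hlt | rfl
      · simp only [mem_union, mem_preimage]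
        rw [Y.comm N i x, h4 i hlt x, h4 i hlt (Y.θ N x)]
      · simp only [mem_union, mem_preimage, Y.inv]
        exact or_comm

theorem main : TaskSing Ω m := by
  intro Y l _ n ε hε
  set s := l.singularPart m with hs
  obtain ⟨S, hS1, hS2, hS3⟩ := Measure.mutuallySingular_singularPart l m
  have hε' : ENNReal.ofReal ε ≠ 0 := by simpa using hε
  obtain ⟨K0, hK1, hK2, hK3⟩ := hS1.compl.exists_isClosed_diff_lt (μ := s)
    (measure_ne_top s _) hε'
  have hmK0 : m K0 = 0 := measure_mono_null hK1 hS3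
  obtain ⟨K, h1, h2, h3, h4⟩ := invar Ω m Y K0 hK2 hmK0 (n + 1)
  refine ⟨K, h2, h3, fun i hi => h4 i (by omega), fun x => (l.rnDeriv m x).toReal,
    Measure.integrable_toReal_rnDeriv, fun u hu1 hu2 => ?_⟩
  have hui : ∀ (ν : Measure Ω) [IsFiniteMeasure ν], Integrable (fun x => u x) ν := fun ν _ =>
    Integrable.of_bound u.continuous.measurable.aestronglyMeasurable 1
      (Eventually.of_forall fun x => by rw [Real.norm_eq_abs]; exact hu2 x)
  have hdec : ∫ x, u x ∂l = ∫ x, u x ∂s + ∫ x, (l.rnDeriv m x).toReal * u x ∂m := by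
    have e1 : ∫ x, u x ∂(m.withDensity (l.rnDeriv m)) =
        ∫ x, (l.rnDeriv m x).toReal * u x ∂m := by
      rw [integral_withDensity_eq_integral_toReal_smul (Measure.measurable_rnDeriv l m)
        (Measure.rnDeriv_lt_top l m)]
      rfl
    rw [← e1, ← integral_add_measure (hui s) (hui _)]
    congr 1
    exact Measure.haveLebesgueDecomposition_add l m
  rw [hdec, add_sub_cancel_right]
  have hKc : s Kᶜ ≤ ENNReal.ofReal ε := by
    calc s Kᶜ ≤ s (S ∪ (Sᶜ \ K0)) := by
          refine measure_mono fun x hx => ?_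
          by_cases hxS : x ∈ S
          · exact Or.inl hxS
          · exact Or.inr ⟨hxS, fun h => hx (h1 h)⟩
      _ ≤ s S + s (Sᶜ \ K0) := measure_union_le _ _
      _ ≤ 0 + ENNReal.ofReal ε := add_le_add hS2.le hK3.le
      _ = ENNReal.ofReal ε := zero_add _
  calc |∫ x, u x ∂s| ≤ ∫ x, |u x| ∂s := abs_integral_le_integral_abs
    _ ≤ ∫ x, Kᶜ.indicator (fun _ => (1 : ℝ)) x ∂s := by
        refine integral_mono (hui s).abs ((integrable_const (1 : ℝ)).indicator
          h2.measurableSet.compl) fun x => ?_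
        by_cases hx : x ∈ K
        · rw [indicator_of_notMem (by simpa using hx)]
          show |u x| ≤ 0
          rw [hu1 x hx, abs_zero]
        · rw [indicator_of_mem (by simpa using hx)]
          exact hu2 x
    _ = s.real Kᶜ := by
        rw [integral_indicator h2.measurableSet.compl]
        simp
    _ ≤ ε := by
        unfold Measure.real
        exact ENNReal.toReal_le_of_le_ofReal hε.le hKc

end Q194.AP.Sing
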