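import Pool.Agent.Q194.AP.Stmts

/-! Part 2 of the blueprint for MP_3d49e4_an: Q2 (unit balls): the convex set `DD = closure (convexHull (PP ∪ ½ ball))` contains a
ball, so it is the unit ball of an equivalent norm. Same conventions as in Stmts.lean: file `Pool/Agent/Q194/AP/Xxx.lean`,
namespace `Q194.AP.Xxx`, `theorem main ... : TaskXxx Ω m` (import this file). -/

set_option autoImplicit false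
set_option maxSynthPendingDepth 3

open MeasureTheory Set Filter Topology
open scoped ENNReal

noncomputable section

namespace Q194.AP

variable {Ω : Type} [TopologicalSpace Ω] [CompactSpace Ω] [T2Space Ω] [TotallyDisconnectedSpace Ω]
  [SecondCountableTopology Ω] [MeasurableSpace Ω] [BorelSpace Ω] {m : Measure Ω} [IsProbabilityMeasure m]

def QQ (Y : Sys Ω m) : Set (V Y) := PP Y ∪ {x | ‖x‖ ≤ 1 / 2}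

def DD (Y : Sys Ω m) : Set (V Y) := closure (convexHull ℝ (QQ Y))

/-- the final statement with unit balls of equivalent norms -/
def Goal2 : Prop := ∃ (X : Type) (_ : NormedAddCommGroup X) (_ : NormedSpace ℝ X) (_ : CompleteSpace X) (C : Set X) (x0 : X),
  (∀ x ∈ C, -x ∈ C) ∧ Bornology.IsBounded C ∧ IsClosed C ∧ Convex ℝ C ∧ (∃ δ : ℝ, 0 < δ ∧ ∀ x, ‖x‖ ≤ δ → x ∈ C) ∧
  APEP C x0 ∧ ¬ APEP (hull C C) (tens x0 x0)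

variable (Ω m)

/-- decomposition in `L1`: `f = ∑ f 1_{G j} 1_{± f h_j > 0}` (`G j = {h j ≠ 0}`), each nonzero piece divided by its norm (times
`d`); if `ψ f ≤ ε` take `±` any normalised piece, e.g. of `h_j / ‖h_j‖` (as `full`, some `h j` is not a.e. zero). (The same as
`TaskDec` without the oddness.) -/
def TaskDecG : Prop := ∀ (h : ℕ → C(Ω, ℝ)), (∀ j x, h j x = 0 ∨ h j x = 1 ∨ h j x = -1) →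
  (∀ i j x, i ≠ j → h i x = 0 ∨ h j x = 0) → (∀ᵐ x ∂m, ∃ j, h j x ≠ 0) →
  ∀ (ψ : Lp ℝ 1 m →L[ℝ] ℝ) (f : Lp ℝ 1 m) (c d : ℝ), 0 < d → ‖f‖ ≤ d → c < ψ f →
  ∃ (j : ℕ) (g : Lp ℝ 1 m), ‖g‖ ≤ d ∧ c < ψ g ∧
    (∀ᵐ x ∂m, h j x = 0 → (g : Ω → ℝ) x = 0) ∧ |∫ x, h j x * (g : Ω → ℝ) x ∂m| = d

/-- approximate `u` by a finite sum `∑ c_i 1_{A_i}`, `|c_i| ≤ d`, `A_i` a clopen partition (clopen sets are a basis, compactness);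
replace the coefficients one by one by `± d` (affine) -/
def TaskExtC : Prop := ∀ (μ : C(Ω, ℝ) →L[ℝ] ℝ) (u : C(Ω, ℝ)) (c d : ℝ), 0 < d → ‖u‖ ≤ d → c < μ u →
  ∃ v : C(Ω, ℝ), (∀ x, v x = 1 ∨ v x = -1) ∧ c < μ (d • v)

/-- coordinates as functionals of norm one -/
def TaskBvN : Prop := ∀ (Y : Sys Ω m) (α : Dat Y), ∃ z : (lp (fun _ : Dat Y => ℝ) 2) →L[ℝ] ℝ, z (bv α) = 1 ∧
  (∀ β : Dat Y, β ≠ α → z (bv β) = 0) ∧ ∀ x, |z x| ≤ ‖x‖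

/-- `TaskMaj` with `Φ x ≤ ‖x‖` (the same proof: `Φ (f,z,u,s) = (γ f + z_α + s) / 3`); deps `TaskB`, `TaskA`, `TaskBv`, `TaskBvN`,
`TaskG`, `TaskHH` -/
def TaskMajN : Prop := ∀ (Y : Sys Ω m) (F : Finset (V Y →L[ℝ] ℝ)) (ε : ℝ), 0 < ε →
  ∃ (Φ : V Y →L[ℝ] ℝ) (κ : ℝ), 0 < κ ∧ (∀ x, Φ x ≤ ‖x‖) ∧ (∀ x ∈ PP Y, Φ x ≤ 1) ∧ (∃ x ∈ PP Y, Φ x = 1) ∧
    ∀ x ∈ PP Y, ∀ ψ ∈ F, |ψ x - ψ (x0 Y)| ≤ ε + κ * (1 - Φ x)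

/-- deps `TaskMajN`, `TaskMem`. -/
def TaskApepD : Prop := ∀ (Y : Sys Ω m), APEP (DD Y) (x0 Y)

/-- deps `TaskMem` -/
def TaskMemD : Prop := ∀ (Y : Sys Ω m), x0 Y ∈ QQ Y ∧ (∀ x ∈ QQ Y, -x ∈ QQ Y) ∧ (∀ x ∈ DD Y, -x ∈ DD Y) ∧
  Bornology.IsBounded (DD Y) ∧ IsClosed (DD Y) ∧ Convex ℝ (DD Y) ∧ ∀ x, ‖x‖ ≤ 1 / 2 → x ∈ DD Y

/-- deps `TaskDecG`, `TaskHH`: `p` in the ball, `q ∈ PP`: `f_p` replaced by a piece, then the coefficient of `u_q` by `± 1` -/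
def TaskBP : Prop := ∀ (Y : Sys Ω m) (B : Bil (V Y) (V Y)) (c : ℝ) (p q : V Y), ‖p‖ ≤ 1 / 2 → q ∈ PP Y → c < B p q →
  ∃ p' q' : V Y, ‖p'‖ ≤ 1 / 2 ∧ q' ∈ PP Y ∧ c < B p' q' ∧ |∫ ω, q'.2.2.1 ω * (p'.1 : Ω → ℝ) ω ∂m| = 1 / 2

/-- deps `TaskDecG`, `TaskExtC`: `u_p` replaced by a function with values `± ½`, then `f_q` by a piece -/
def TaskBB : Prop := ∀ (Y : Sys Ω m) (B : Bil (V Y) (V Y)) (c : ℝ) (p q : V Y), ‖p‖ ≤ 1 / 2 → ‖q‖ ≤ 1 / 2 → c < B p q →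
  ∃ p' q' : V Y, ‖p'‖ ≤ 1 / 2 ∧ ‖q'‖ ≤ 1 / 2 ∧ c < B p' q' ∧ |∫ ω, p'.2.2.1 ω * (q'.1 : Ω → ℝ) ω ∂m| = 1 / 4

/-- deps `TaskKey`, `TaskBP`, `TaskBB` -/
def TaskKeyD : Prop := ∀ (Y : Sys Ω m) (B : Bil (V Y) (V Y)) (c : ℝ), (∃ p ∈ QQ Y, ∃ q ∈ QQ Y, c < B p q) →
  ∃ p ∈ QQ Y, ∃ q ∈ QQ Y, c < B p q ∧ (1 / 4 ≤ |∫ ω, p.2.2.1 ω * (q.1 : Ω → ℝ) ω ∂m| ∨
    1 / 4 ≤ |∫ ω, q.2.2.1 ω * (p.1 : Ω → ℝ) ω ∂m|)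

/-- deps `TaskSup`, `TaskBil`, `TaskT`, `TaskKeyD`, `TaskMemD`, as `TaskNot` with `ε = 1/4` -/
def TaskNotD : Prop := ∀ (Y : Sys Ω m), ¬ APEP (hull (DD Y) (DD Y)) (tens (x0 Y) (x0 Y))

end Q194.AP
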