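import Pool.Agent.Q194.AP.Stmts

set_option autoImplicit false
set_option maxSynthPendingDepth 3

open MeasureTheory Set Filter Topology

noncomputable section

namespace Q194.AP.Sup

open Q194.AP

section

variable {X : Type} [NormedAddCommGroup X] [NormedSpace ℝ X]

theorem tens_left (a b : ℝ) (x x' y : X) :
    tens (a • x + b • x') y = a • tens x y + b • tens x' y := by
  apply Subtype.ext
  apply ContinuousLinearMap.ext
  intro B
  show B (a • x + b • x') y = a • (B x y) + b • (B x' y)
  rw [map_add, map_smul, map_smul]
  rfl

theorem tens_right (a b : ℝ) (x y y' : X) :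
    tens x (a • y + b • y') = a • tens x y + b • tens x y' := by
  apply Subtype.ext
  apply ContinuousLinearMap.ext
  intro B
  show B x (a • y + b • y') = a • (B x y) + b • (B x y')
  rw [map_add, map_smul, map_smul]

theorem cont_left (y : X) : Continuous fun x : X => tens x y := by
  apply Continuous.subtype_mk
  exact continuous_const.clm_comp
    ((ContinuousLinearMap.id ℝ (X →L[ℝ] X →L[ℝ] ℝ)).flip.continuous)

theorem cont_right (x : X) : Continuous fun y : X => tens x y := by
  apply Continuous.subtype_mk
  exact Continuous.clm_comp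
    ((ContinuousLinearMap.id ℝ (X →L[ℝ] ℝ)).flip.continuous) continuous_const

end

theorem main : TaskSup := by
  intro X _ _ P Φ c
  contrapose!
  intro h
  -- first variable
  have h1 : ∀ x ∈ closure (convexHull ℝ P), ∀ q ∈ P, Φ (tens x q) ≤ c := by
    intro x hx q hq
    have hcl : IsClosed {x : X | Φ (tens x q) ≤ c} :=
      isClosed_le (Φ.continuous.comp (cont_left q)) continuous_const
    have hcv : Convex ℝ {x : X | Φ (tens x q) ≤ c} := by
      intro u hu v hv a b ha hb hab
      simp only [mem_ofPred_eq] at hu hv ⊢
      rw [tens_left, map_add, map_smul, map_smul, smul_eq_mul, smul_eq_mul]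
      calc a * Φ (tens u q) + b * Φ (tens v q) ≤ a * c + b * c := by gcongr
        _ = c := by rw [← add_mul, hab, one_mul]
    exact closure_minimal (convexHull_min (fun p hp => h p hp q hq) hcv) hcl hx
  have h2 : ∀ x ∈ closure (convexHull ℝ P), ∀ y ∈ closure (convexHull ℝ P), Φ (tens x y) ≤ c := by
    intro x hx y hy
    have hcl : IsClosed {y : X | Φ (tens x y) ≤ c} :=
      isClosed_le (Φ.continuous.comp (cont_right x)) continuous_const
    have hcv : Convex ℝ {y : X | Φ (tens x y) ≤ c} := by
      intro u hu v hv a b ha hb hab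
      simp only [mem_ofPred_eq] at hu hv ⊢
      rw [tens_right, map_add, map_smul, map_smul, smul_eq_mul, smul_eq_mul]
      calc a * Φ (tens x u) + b * Φ (tens x v) ≤ a * c + b * c := by gcongr
        _ = c := by rw [← add_mul, hab, one_mul]
    exact closure_minimal (convexHull_min (fun q hq => h1 x hx q hq) hcv) hcl hy
  intro z hz
  have hcl : IsClosed {z : PT X X | Φ z ≤ c} := isClosed_le Φ.continuous continuous_const
  have hcv : Convex ℝ {z : PT X X | Φ z ≤ c} := by
    intro u hu v hv a b ha hb hab
    simp only [mem_ofPred_eq] at hu hv ⊢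
    rw [map_add, map_smul, map_smul, smul_eq_mul, smul_eq_mul]
    calc a * Φ u + b * Φ v ≤ a * c + b * c := by gcongr
      _ = c := by rw [← add_mul, hab, one_mul]
  refine closure_minimal (convexHull_min ?_ hcv) hcl hz
  rintro w ⟨x, hx, y, hy, rfl⟩
  exact h2 x hx y hy

end Q194.AP.Sup
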