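import Pool.Agent.Q194.AP.Stmts

set_option autoImplicit false
set_option maxSynthPendingDepth 3

open MeasureTheory Set Filter Topology
open scoped ENNReal BoundedContinuousFunction

noncomputable section

namespace Q194.AP.Sys

open Q194.AP

/-- the Cantor group -/
abbrev Om : Type := ℕ → Bool

/-- the fair coin -/
def coin : Measure Bool := (PMF.uniformOfFintype Bool).toMeasure

instance : IsProbabilityMeasure coin := by unfold coin; infer_instance

/-- the product measure -/
def mm : Measure Om := Measure.infinitePi fun _ => coin

instance : IsProbabilityMeasure mm := by unfold mm; infer_instance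

/-- flip of one coordinate -/
def th (n : ℕ) (x : Om) : Om := fun k => if k = n then !x k else x k

lemma th_cont (n : ℕ) : Continuous (th n) := by
  unfold th
  refine continuous_pi fun k => ?_
  by_cases h : k = n
  · simp only [h, if_true]
    exact (continuous_of_discreteTopology (f := Bool.not)).comp (continuous_apply n)
  · simp only [h, if_false]
    exact continuous_apply k

lemma coin_not : coin.map Bool.not = coin := by
  unfold coin
  rw [PMF.toMeasure_map _ _ (measurable_of_finite _)]
  congr 1
  ext b
  rw [PMF.map_apply]
  cases b <;> simp [tsum_fintype, PMF.uniformOfFintype_apply]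

lemma th_mp (n : ℕ) : MeasurePreserving (th n) mm mm := by
  refine ⟨(th_cont n).measurable, ?_⟩
  have h := Measure.infinitePi_map_pi (fun _ : ℕ => coin)
    (f := fun k => if k = n then Bool.not else id) (fun k => by split_ifs <;> exact measurable_of_finite _)
  have e : (fun (x : ℕ → Bool) (i : ℕ) => (if i = n then Bool.not else id) (x i)) = th n := by
    funext x i
    unfold th
    by_cases hi : i = n
    · simp [hi]
    · simp [hi]
  have e2 : (fun i : ℕ => Measure.map (if i = n then Bool.not else id) coin) = fun _ => coin := by
    funext i
    by_cases hi : i = n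
    · simp [hi, coin_not]
    · simp [hi]
  rw [e, e2] at h
  exact h

lemma th_tendsto (x : Om) : Tendsto (fun n => th n x) atTop (𝓝 x) := by
  rw [tendsto_pi_nhds]
  intro k
  refine tendsto_const_nhds.congr' ?_
  filter_upwards [eventually_gt_atTop k] with n hn
  unfold th
  rw [if_neg (by omega)]

lemma th_appr (g : Om → ℝ) (hg : Integrable g mm) :
    Tendsto (fun n => ∫ x, |g (th n x) - g x| ∂mm) atTop (𝓝 0) := by
  rw [Metric.tendsto_atTop]
  intro ε hε
  obtain ⟨h, hh, hhi⟩ := hg.exists_boundedContinuous_integral_sub_le (ε := ε / 4) (by positivity)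
  have hlim : Tendsto (fun n => ∫ x, |h (th n x) - h x| ∂mm) atTop (𝓝 0) := by
    have h1 := tendsto_integral_of_dominated_convergence (μ := mm)
      (F := fun n x => |h (th n x) - h x|) (f := fun _ => (0 : ℝ)) (fun _ => 2 * ‖h‖)
      (fun n => ?_) (integrable_const _) (fun n => ?_) ?_
    · simpa using h1
    · exact (((h.continuous.comp (th_cont n)).sub h.continuous).abs).aestronglyMeasurable
    · refine ae_of_all _ fun x => ?_
      rw [Real.norm_eq_abs, abs_abs]
      have a1 := h.norm_coe_le_norm (th n x)
      have a2 := h.norm_coe_le_norm x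
      rw [Real.norm_eq_abs] at a1 a2
      have := abs_sub (h (th n x)) (h x)
      linarith
    · refine ae_of_all _ fun x => ?_
      have h2 := ((h.continuous.tendsto x).comp (th_tendsto x)).sub_const (h x)
      rw [sub_self] at h2
      simpa using h2.abs
  rw [Metric.tendsto_atTop] at hlim
  obtain ⟨N, hN⟩ := hlim (ε / 4) (by positivity)
  refine ⟨N, fun n hn => ?_⟩
  have hN' := hN n hn
  rw [Real.dist_eq, sub_zero] at hN' ⊢
  have nn : ∀ f : Om → ℝ, 0 ≤ ∫ x, |f x| ∂mm := fun f => integral_nonneg fun _ => abs_nonneg _
  rw [abs_of_nonneg (nn _)] at hN' ⊢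
  have i1 : Integrable (fun x => |g x - h x|) mm := (hg.sub hhi).abs
  have i1' : Integrable (fun x => |g (th n x) - h (th n x)|) mm :=
    (th_mp n).integrable_comp_of_integrable i1
  have i2 : Integrable (fun x => |h (th n x) - h x|) mm :=
    (((th_mp n).integrable_comp_of_integrable hhi).sub hhi).abs
  have e1 : ∫ x, |g (th n x) - h (th n x)| ∂mm = ∫ x, |g x - h x| ∂mm := by
    have hm := (th_mp n).map_eq
    have := integral_map (μ := mm) (φ := th n) (th_mp n).measurable.aemeasurable
      (f := fun x => |g x - h x|) (by rw [hm]; exact i1.aestronglyMeasurable)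
    rw [hm] at this
    exact this.symm
  have i3 : Integrable (fun x => |g (th n x) - g x|) mm :=
    (((th_mp n).integrable_comp_of_integrable hg).sub hg).abs
  have key : ∫ x, |g (th n x) - g x| ∂mm ≤
      ∫ x, (|g (th n x) - h (th n x)| + |h (th n x) - h x| + |g x - h x|) ∂mm := by
    refine integral_mono i3 ((i1'.add i2).add i1) fun x => ?_
    have a := abs_add_le (g (th n x) - h (th n x)) (h (th n x) - h x)
    have b := abs_sub ((g (th n x) - h (th n x)) + (h (th n x) - h x)) (g x - h x)
    have c : g (th n x) - g x = (g (th n x) - h (th n x)) + (h (th n x) - h x) - (g x - h x) := by ring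
    simp only
    rw [c]
    linarith
  have e2 : ∫ x, (|g (th n x) - h (th n x)| + |h (th n x) - h x| + |g x - h x|) ∂mm =
      ∫ x, |g (th n x) - h (th n x)| ∂mm + ∫ x, |h (th n x) - h x| ∂mm + ∫ x, |g x - h x| ∂mm := by
    have a1 := integral_add (i1'.add i2) i1
    have a2 := integral_add i1' i2
    simp only [Pi.add_apply] at a1 a2
    rw [a1, a2]
  have hh' : ∫ x, |g x - h x| ∂mm ≤ ε / 4 := hh
  linarith

/-- Rademacher functions -/
def rr (n : ℕ) : C(Om, ℝ) :=
  ⟨fun x => if x n then 1 else -1,
    (continuous_of_discreteTopology (f := fun b : Bool => if b then (1 : ℝ) else -1)).comp (continuous_apply n)⟩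

theorem main : TaskSys := by
  refine ⟨Om, inferInstance, inferInstance, inferInstance, inferInstance, inferInstance, inferInstance,
    inferInstance, mm, inferInstance, ⟨?_⟩⟩
  exact
    { θ := th
      cont := th_cont
      inv := fun n x => by
        funext k
        unfold th
        by_cases h : k = n <;> simp [h]
      comm := fun i j x => by
        funext k
        unfold th
        split_ifs <;> rfl
      mp := th_mp
      r := rr
      r_val := fun n x => by
        by_cases h : x n = true
        · left; simp [rr, h]
        · right; simp [rr, h]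
      r_self := fun n x => by
        by_cases h : x n = true
        · simp [rr, th, h]
        · simp [rr, th, h]
      r_ne := fun i n x h => by
        simp [rr, th, h.symm]
      appr := th_appr }

end Q194.AP.Sys
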