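import Pool.Agent.Q194.AP.Stmts

set_option autoImplicit false
set_option maxSynthPendingDepth 3

open MeasureTheory Set Filter Topology
open scoped ENNReal
open Q194.AP

noncomputable section

namespace Q194.AP.T

variable (Ω : Type) [TopologicalSpace Ω] [CompactSpace Ω] [T2Space Ω] [TotallyDisconnectedSpace Ω]
  [SecondCountableTopology Ω] [MeasurableSpace Ω] [BorelSpace Ω] (m : Measure Ω) [IsProbabilityMeasure m]

omit [T2Space Ω] [TotallyDisconnectedSpace Ω] in
lemma integ (u : C(Ω, ℝ)) (f : Lp ℝ 1 m) : Integrable (fun ω => u ω * (f : Ω → ℝ) ω) m := by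
  have hf : Integrable (f : Ω → ℝ) m := L1.integrable_coeFn f
  refine hf.bdd_mul (c := ‖u‖) u.continuous.aestronglyMeasurable ?_
  exact Filter.Eventually.of_forall fun ω => u.norm_coe_le_norm ω

omit [T2Space Ω] [TotallyDisconnectedSpace Ω] in
lemma bound (u : C(Ω, ℝ)) (f : Lp ℝ 1 m) : ‖∫ ω, u ω * (f : Ω → ℝ) ω ∂m‖ ≤ 1 * ‖u‖ * ‖f‖ := by
  have hf : Integrable (f : Ω → ℝ) m := L1.integrable_coeFn f
  rw [one_mul, L1.norm_eq_integral_norm, ← integral_const_mul]
  refine (norm_integral_le_integral_norm _).trans ?_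
  refine integral_mono (integ Ω m u f).norm (hf.norm.const_mul _) ?_
  intro ω
  simp only [norm_mul]
  exact mul_le_mul_of_nonneg_right (u.norm_coe_le_norm ω) (norm_nonneg _)

/-- the pairing -/
def pair : C(Ω, ℝ) →L[ℝ] Lp ℝ 1 m →L[ℝ] ℝ :=
  LinearMap.mkContinuous₂ (LinearMap.mk₂ ℝ (fun (u : C(Ω, ℝ)) (f : Lp ℝ 1 m) => ∫ ω, u ω * (f : Ω → ℝ) ω ∂m)
    (by
      intro u v f
      rw [← integral_add (integ Ω m u f) (integ Ω m v f)]
      refine integral_congr_ae (Filter.Eventually.of_forall fun ω => ?_)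
      simp [add_mul])
    (by
      intro c u f
      rw [smul_eq_mul, ← integral_const_mul]
      refine integral_congr_ae (Filter.Eventually.of_forall fun ω => ?_)
      simp [mul_assoc])
    (by
      intro u f g
      rw [← integral_add (integ Ω m u f) (integ Ω m u g)]
      refine integral_congr_ae ?_
      filter_upwards [Lp.coeFn_add f g] with ω hω
      rw [hω]
      simp [mul_add])
    (by
      intro c u f
      rw [smul_eq_mul, ← integral_const_mul]
      refine integral_congr_ae ?_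
      filter_upwards [Lp.coeFn_smul c f] with ω hω
      rw [hω]
      simp [mul_left_comm])) 1 (by
    intro u f
    exact bound Ω m u f)

theorem main : TaskT Ω m := by
  intro Y
  let p : V Y →L[ℝ] C(Ω, ℝ) :=
    (ContinuousLinearMap.fst ℝ C(Ω, ℝ) ℝ).comp ((ContinuousLinearMap.snd ℝ (lp (fun _ : Dat Y => ℝ) 2) (C(Ω, ℝ) × ℝ)).comp
      (ContinuousLinearMap.snd ℝ (Lp ℝ 1 m) ((lp (fun _ : Dat Y => ℝ) 2) × C(Ω, ℝ) × ℝ)))
  let q : V Y →L[ℝ] Lp ℝ 1 m := ContinuousLinearMap.fst ℝ (Lp ℝ 1 m) ((lp (fun _ : Dat Y => ℝ) 2) × C(Ω, ℝ) × ℝ)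
  refine ⟨(pair Ω m).bilinearComp p q, ?_⟩
  intro x y
  rfl

end Q194.AP.T
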