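import Pool.Agent.Q194.AP.Stmts

set_option autoImplicit false
set_option maxSynthPendingDepth 3

open MeasureTheory Set Filter Topology
open scoped ENNReal

noncomputable section

namespace Q194.AP.W

open Q194.AP

/-- the inclusion of `L2` in `L1` -/
def j (Ω : Type) [MeasurableSpace Ω] (m : Measure Ω) [IsProbabilityMeasure m] :
    Lp ℝ 2 m →ₗ[ℝ] Lp ℝ 1 m where
  toFun := fun f => ⟨f.1, Lp.antitone (by norm_num) f.2⟩
  map_add' := fun _ _ => Subtype.ext rfl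
  map_smul' := fun _ _ => Subtype.ext rfl

theorem j_coe (Ω : Type) [MeasurableSpace Ω] (m : Measure Ω) [IsProbabilityMeasure m]
    (f : Lp ℝ 2 m) : ((j Ω m f : Lp ℝ 1 m) : Ω → ℝ) = (f : Ω → ℝ) := rfl

theorem main : TaskW := by
  intro Ω _ m _ φ
  have hb : ∀ f : Lp ℝ 2 m, ‖j Ω m f‖ ≤ 1 * ‖f‖ := by
    intro f
    rw [one_mul, Lp.norm_def, Lp.norm_def]
    apply ENNReal.toReal_mono (Lp.eLpNorm_ne_top _)
    exact eLpNorm_le_eLpNorm_of_exponent_le (by norm_num) (Lp.stronglyMeasurable f).aestronglyMeasurable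
  let J : Lp ℝ 2 m →L[ℝ] Lp ℝ 1 m := (j Ω m).mkContinuous 1 hb
  let ψ : Lp ℝ 2 m →L[ℝ] ℝ := φ.comp J
  let w2 : Lp ℝ 2 m := (InnerProductSpace.toDual ℝ (Lp ℝ 2 m)).symm ψ
  have hw2 : ∀ g : Lp ℝ 2 m, ψ g = inner ℝ w2 g := by
    intro g
    exact (InnerProductSpace.toDual_symm_apply).symm
  refine ⟨(w2 : Ω → ℝ), (Lp.stronglyMeasurable w2).measurable,
    (Lp.memLp w2).integrable (by norm_num), ?_⟩
  intro f b c hbm hbc hfb
  have hb2 : MemLp b 2 m := MemLp.of_bound hbm.aestronglyMeasurable c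
    (Eventually.of_forall fun x => by rw [Real.norm_eq_abs]; exact hbc x)
  have hg := hb2.coeFn_toLp
  have hJ : J (hb2.toLp b) = f := by
    apply Lp.ext
    have h1 : ((J (hb2.toLp b) : Lp ℝ 1 m) : Ω → ℝ) = ((hb2.toLp b : Lp ℝ 2 m) : Ω → ℝ) := rfl
    rw [h1]
    exact hg.trans hfb.symm
  have h2 : φ f = ψ (hb2.toLp b) := by
    show φ f = φ (J (hb2.toLp b))
    rw [hJ]
  rw [h2, hw2, L2.inner_def]
  apply integral_congr_ae
  filter_upwards [hg] with x hx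
  rw [hx]
  simp [mul_comm]

end Q194.AP.W
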